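import Pool.Agent.Helper19K9.Tf.Sq

/-!
Bihomogeneous forms of bidegree `(3, 1)` and `(2, 2)` as quadratic polynomials in the last variable.
-/

set_option autoImplicit false
set_option linter.all false
set_option maxHeartbeats 4000000

namespace Pool.Agent.Helper19K9.Tf

open MvPolynomial Pool.Agent.TH910.Voj Pool.Agent.H813R3.Voj Pool.Agent.Helper19K9.Sq

/-- the coefficient of `X₂ ^ (b - k) X₃ ^ k` -/
noncomputable def part (F : MvPolynomial (Fin 4) ℤ) (k : ℕ) : MvPolynomial (Fin 4) ℤ :=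
  ∑ d ∈ F.support.filter (fun d => d 3 = k), C (coeff d F) * (X 0 ^ d 0 * X 1 ^ d 1)

lemma part_ind (F : MvPolynomial (Fin 4) ℤ) (k : ℕ) (x x' : Fin 4 → ℤ) (h0 : x 0 = x' 0)
    (h1 : x 1 = x' 1) : eval x (part F k) = eval x' (part F k) := by
  unfold part
  rw [map_sum, map_sum]
  refine Finset.sum_congr rfl fun d _ => ?_
  simp [h0, h1]

lemma part_hom {F : MvPolynomial (Fin 4) ℤ} {a b : ℕ} (h : Bi F a b) (k : ℕ) :
    (part F k).IsHomogeneous a := by
  unfold part
  refine IsHomogeneous.sum _ _ _ fun d hd => ?_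
  rw [Finset.mem_filter] at hd
  obtain ⟨e1, e2⟩ := h.exps (mem_support_iff.1 hd.1)
  have h1 := (isHomogeneous_C (Fin 4) (coeff d F)).mul
    ((isHomogeneous_X_pow (R := ℤ) (0 : Fin 4) (d 0)).mul (isHomogeneous_X_pow (R := ℤ) (1 : Fin 4) (d 1)))
  rw [zero_add, e1] at h1
  exact h1

lemma decomp {F : MvPolynomial (Fin 4) ℤ} {a b : ℕ} (h : Bi F a b) (x : Fin 4 → ℤ) :
    eval x F = ∑ k ∈ Finset.range (b + 1), eval x (part F k) * x 2 ^ (b - k) * x 3 ^ k := by
  classical
  have h1 : ∀ d ∈ F.support, d 3 ∈ Finset.range (b + 1) := by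
    intro d hd
    obtain ⟨e1, e2⟩ := h.exps (mem_support_iff.1 hd)
    rw [Finset.mem_range]
    omega
  rw [eval_eq', ← Finset.sum_fiberwise_of_maps_to h1]
  refine Finset.sum_congr rfl fun k _ => ?_
  unfold part
  rw [map_sum, Finset.sum_mul, Finset.sum_mul]
  refine Finset.sum_congr rfl fun d hd => ?_
  rw [Finset.mem_filter] at hd
  obtain ⟨e1, e2⟩ := h.exps (mem_support_iff.1 hd.1)
  rw [Fin.prod_univ_four]
  have e3 : b - k = d 2 := by omega
  rw [e3, ← hd.2]
  simp
  ring

lemma toQ_mul (P Q : MvPolynomial (Fin 4) ℤ) : toQ (P * Q) = toQ P * toQ Q := map_mul _ _ _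

lemma toQ_ne_zero {P : MvPolynomial (Fin 4) ℤ} (h : P ≠ 0) : toQ P ≠ 0 := by
  intro h0
  apply h
  exact (MvPolynomial.map_injective (Int.castRingHom ℚ) Int.cast_injective) (h0.trans (map_zero _).symm)

lemma td_toQ {P : MvPolynomial (Fin 4) ℤ} {k : ℕ} (hP : P.IsHomogeneous k) (h : P ≠ 0) :
    (toQ P).totalDegree = k := by
  have h1 : (toQ P).IsHomogeneous k := hP.map _
  exact h1.totalDegree (toQ_ne_zero h)

lemma not_unit {P : MvPolynomial (Fin 4) ℤ} {k : ℕ} (hP : P.IsHomogeneous k) (hk : 1 ≤ k) :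
    ¬ IsUnit (toQ P) := by
  intro hu
  have h0 : P ≠ 0 := by
    rintro rfl
    exact hu.ne_zero (map_zero _)
  have h1 := td_toQ hP h0
  obtain ⟨u, hu⟩ := hu
  have h2 := congrArg totalDegree (Units.mul_inv u)
  rw [hu, totalDegree_mul_of_isDomain (toQ_ne_zero h0) (Units.ne_zero _), totalDegree_one, h1] at h2
  omega

lemma not_irr_mul {P Q : MvPolynomial (Fin 4) ℤ} {k l : ℕ} (hP : P.IsHomogeneous k) (hk : 1 ≤ k)
    (hQ : Q.IsHomogeneous l) (hl : 1 ≤ l) : ¬ Irreducible (toQ (P * Q)) := by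
  intro h
  rw [toQ_mul] at h
  rcases h.isUnit_or_isUnit rfl with h1 | h1
  · exact not_unit hP hk h1
  · exact not_unit hQ hl h1

theorem sq_one {F : MvPolynomial (Fin 4) ℤ} {a : ℕ} (h : Bi F (a + 1) 1) (hirr : Irreducible (toQ F)) :
    SQ F := by
  have hdec : ∀ x : Fin 4 → ℤ, eval x F = eval x (part F 1) * x 3 + x 2 * eval x (part F 0) := by
    intro x
    rw [decomp h x, Finset.sum_range_succ, Finset.sum_range_succ, Finset.sum_range_zero]
    simp
    ring
  have h1 : part F 1 ≠ 0 := by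
    intro h0
    have h2 : F = X 2 * part F 0 := by
      refine MvPolynomial.funext fun x => ?_
      rw [hdec x, h0]
      simp
    rw [h2] at hirr
    exact not_irr_mul (isHomogeneous_X ℤ 2) le_rfl (part_hom h 0) (by omega) hirr
  refine sq_quad F 0 (part F 1) (X 2 * part F 0) ?_ ?_ ?_ ?_ ?_
  · intro x x' _ _ _
    simp
  · intro x x' e0 e1 _
    exact part_ind F 1 x x' e0 e1
  · intro x x' e0 e1 e2
    rw [map_mul, map_mul, part_ind F 0 x x' e0 e1, eval_X, eval_X, e2]
  · intro x
    rw [hdec x]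
    simp
  · rw [mul_zero, zero_mul, sub_zero]
    exact pow_ne_zero _ h1

theorem sq_two {F : MvPolynomial (Fin 4) ℤ} {a : ℕ} (h : Bi F (a + 1) 2) (hirr : Irreducible (toQ F)) :
    SQ F := by
  have hdec : ∀ x : Fin 4 → ℤ, eval x F = eval x (part F 2) * x 3 ^ 2 +
      x 2 * eval x (part F 1) * x 3 + x 2 ^ 2 * eval x (part F 0) := by
    intro x
    rw [decomp h x, Finset.sum_range_succ, Finset.sum_range_succ, Finset.sum_range_succ,
      Finset.sum_range_zero]
    simp
    ring
  have hF0 : F ≠ 0 := by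
    rintro rfl
    exact hirr.ne_zero (map_zero _)
  have hdisc : part F 1 ^ 2 - 4 * part F 2 * part F 0 ≠ 0 := by
    intro hd
    have hd' : ∀ x : Fin 4 → ℤ, eval x (part F 1) ^ 2 = 4 * eval x (part F 2) * eval x (part F 0) := by
      intro x
      have := congrArg (eval x) hd
      simp at this
      linarith
    by_cases h2 : part F 2 = 0
    · have h1 : part F 1 = 0 := by
        rw [h2, mul_zero, zero_mul, sub_zero] at hd
        exact pow_eq_zero_iff (two_ne_zero) |>.1 hd
      have h3 : F = X 2 * (X 2 * part F 0) := by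
        refine MvPolynomial.funext fun x => ?_
        rw [hdec x, h1, h2]
        simp
        ring
      rw [h3] at hirr
      exact not_irr_mul (isHomogeneous_X ℤ 2) le_rfl ((isHomogeneous_X ℤ 2).mul (part_hom h 0))
        (by omega) hirr
    · have h3 : C 4 * part F 2 * F = (C 2 * part F 2 * X 3 + part F 1 * X 2) ^ 2 := by
        refine MvPolynomial.funext fun x => ?_
        rw [map_mul, map_mul, hdec x]
        simp
        have := hd' x
        linear_combination (- x 2 ^ 2) * this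
      have h4 : toQ F ∣ toQ (C 2 * part F 2 * X 3 + part F 1 * X 2) := by
        have h5 : toQ F ∣ toQ (C 2 * part F 2 * X 3 + part F 1 * X 2) ^ 2 := by
          refine ⟨toQ (C 4 * part F 2), ?_⟩
          rw [← toQ_mul, mul_comm F, h3]
          exact (map_pow _ _ _).symm
        exact hirr.prime.dvd_of_dvd_pow h5
      obtain ⟨M, hM⟩ := h4
      have h5 : toQ (C 4 * part F 2) * toQ F = (toQ F * M) ^ 2 := by
        rw [← toQ_mul, h3, ← hM]
        exact map_pow _ _ _
      have h6 : toQ (C 4 * part F 2) = toQ F * M ^ 2 := by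
        have h7 : toQ F * toQ (C 4 * part F 2) = toQ F * (toQ F * M ^ 2) := by
          rw [mul_comm, h5]; ring
        exact mul_left_cancel₀ hirr.ne_zero h7
      have h8 : C 4 * part F 2 ≠ 0 := mul_ne_zero (by simp) h2
      have h9 : (C 4 * part F 2 : MvPolynomial (Fin 4) ℤ).IsHomogeneous (a + 1) := by
        have := (isHomogeneous_C (Fin 4) (4 : ℤ)).mul (part_hom h 2)
        rwa [zero_add] at this
      have h10 := congrArg totalDegree h6
      have hM0 : M ^ 2 ≠ 0 := by
        intro h0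
        rw [h0, mul_zero] at h6
        exact toQ_ne_zero h8 h6
      rw [totalDegree_mul_of_isDomain hirr.ne_zero hM0, td_toQ h9 h8, td_toQ h.hom hF0] at h10
      omega
  refine sq_quad F (part F 2) (X 2 * part F 1) (X 2 ^ 2 * part F 0) ?_ ?_ ?_ ?_ ?_
  · intro x x' e0 e1 _
    exact part_ind F 2 x x' e0 e1
  · intro x x' e0 e1 e2
    rw [map_mul, map_mul, part_ind F 1 x x' e0 e1, eval_X, eval_X, e2]
  · intro x x' e0 e1 e2
    rw [map_mul, map_mul, part_ind F 0 x x' e0 e1, map_pow, map_pow, eval_X, eval_X, e2]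
  · intro x
    rw [hdec x]
    simp
  · have h1 : (X 2 * part F 1) ^ 2 - 4 * part F 2 * (X 2 ^ 2 * part F 0) =
        X 2 ^ 2 * (part F 1 ^ 2 - 4 * part F 2 * part F 0) := by ring
    rw [h1]
    exact mul_ne_zero (pow_ne_zero _ (X_ne_zero 2)) hdisc

/-- types `(3, 1)`, `(2, 2)` and `(1, 3)` -/
theorem sq_four {F : MvPolynomial (Fin 4) ℤ} {a b : ℕ} (h : Bi F a b) (h4 : a + b = 4) (ha : 1 ≤ a)
    (hb : 1 ≤ b) (hirr : Irreducible (toQ F)) : SQ F := by
  have hcase : b = 1 ∨ b = 2 ∨ b = 3 := by omega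
  rcases hcase with rfl | rfl | rfl
  · obtain rfl : a = 2 + 1 := by omega
    exact sq_one h hirr
  · obtain rfl : a = 1 + 1 := by omega
    exact sq_two h hirr
  · obtain rfl : a = 1 := by omega
    set σ : Equiv.Perm (Fin 4) := Equiv.swap 0 2 * Equiv.swap 1 3 with hσ
    have f0 : σ 0 = 2 := by rw [hσ]; decide
    have f1 : σ 1 = 3 := by rw [hσ]; decide
    have f2 : σ 2 = 0 := by rw [hσ]; decide
    have f3 : σ 3 = 1 := by rw [hσ]; decide
    have h' : Bi (rename σ F) (2 + 1) 1 := by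
      refine Bi.of_exps fun d hd => ?_
      obtain ⟨u, hu, hu2⟩ := exps_rename _ hd
      obtain ⟨w1, w2⟩ := h.exps hu
      have e0 := hu2 0
      have e1 := hu2 1
      have e2 := hu2 2
      have e3 := hu2 3
      rw [f0] at e0
      rw [f1] at e1
      rw [f2] at e2
      rw [f3] at e3
      omega
    have h1 := (sq_one h' (irr_rename hirr σ)).perm σ.symm
    have h2 : rename σ.symm (rename σ F) = F := by
      rw [rename_rename]
      have : (σ.symm ∘ σ : Fin 4 → Fin 4) = id := by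
        funext i; simp
      rw [this, rename_id]
      rfl
    rwa [h2] at h1

end Pool.Agent.Helper19K9.Tf
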