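import Pool.Agent.Helper19K9.Tf.Rd

/-!
The truncated counting function at almost all pairs of points, from lower bounds for the radicals.
-/

set_option autoImplicit false
set_option linter.all false
set_option maxHeartbeats 4000000

namespace Pool.Agent.Helper19K9.Tf

open MvPolynomial Pool.Agent.TH910.Voj Pool.Agent.H813R3.Voj Pool.Agent.Helper19K9.Sq

theorem main_sparse' {ℓ : ℕ} (F : Fin ℓ → MvPolynomial (Fin 4) ℤ) (a b : Fin ℓ → ℕ)
    (hbi : ∀ j, Bi (F j) (a j) (b j)) (hirr : ∀ j, Irreducible (toQ (F j)))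
    (hdist : ∀ i j, i ≠ j → ¬ Associated (toQ (F i)) (toQ (F j))) (S : Finset ℕ)
    (ρ : Fin ℓ → ℝ) (hρ : ∀ j, ∀ η : ℝ, 0 < η → Sparse 4 (fun B x => IsCoprime (x 0) (x 1) ∧
      IsCoprime (x 2) (x 3) ∧ (rd (eval x (F j)).natAbs : ℝ) < (B : ℝ) ^ (ρ j - η)))
    (κ₁ κ₂ : ℝ) (hκ : ∑ j, ((a j : ℝ) + b j - ρ j) < κ₁ + κ₂) :
    Sparse 4 (fun B x => IsCoprime (x 0) (x 1) ∧ IsCoprime (x 2) (x 3) ∧
      ((∃ j, eval x (F j) = 0) ∨
        ∑ p ∈ (∏ j, eval x (F j)).natAbs.primeFactors \ S, Real.log (p : ℝ) <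
          ((∑ j, (a j : ℝ)) - κ₁) * Real.log (max (x 0).natAbs (x 1).natAbs : ℕ) +
          ((∑ j, (b j : ℝ)) - κ₂) * Real.log (max (x 2).natAbs (x 3).natAbs : ℕ))) := by
  classical
  set Γ : ℝ := κ₁ + κ₂ - ∑ j, ((a j : ℝ) + b j - ρ j) with hΓ
  have hΓ0 : 0 < Γ := by rw [hΓ]; linarith
  set A₁ : ℝ := |(∑ j, (a j : ℝ)) - κ₁| with hA₁
  set A₂ : ℝ := |(∑ j, (b j : ℝ)) - κ₂| with hA₂
  have hA₁0 : 0 ≤ A₁ := abs_nonneg _
  have hA₂0 : 0 ≤ A₂ := abs_nonneg _
  set M : ℝ := (ℓ : ℝ) + (ℓ : ℝ) ^ 2 + A₁ + A₂ + 1 with hM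
  have hM1 : 1 ≤ M := by rw [hM]; have : (0 : ℝ) ≤ ℓ := Nat.cast_nonneg _; nlinarith
  have hM0 : 0 < M := by linarith
  set η : ℝ := min 1 (Γ / (2 * M)) with hη
  have hη0 : 0 < η := by rw [hη]; positivity
  have hη1 : η ≤ 1 := min_le_left _ _
  have hηM : η * M ≤ Γ / 2 := by
    have := min_le_right 1 (Γ / (2 * M))
    rw [← hη] at this
    calc η * M ≤ Γ / (2 * M) * M := mul_le_mul_of_nonneg_right this hM0.le
      _ = Γ / 2 := by field_simp
  set σ : ℝ := ∑ p ∈ S, Real.log (p : ℝ) with hσ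
  have hσ0 : 0 ≤ σ := Finset.sum_nonneg fun p _ => Real.log_natCast_nonneg p
  -- the sparse sets
  have t1 : Sparse 4 (fun B x => ∃ j, eval x (F j) = 0) :=
    Sparse.exists_fin fun j => by
      have hF0 : F j ≠ 0 := by
        intro h0
        exact (hirr j).ne_zero (by rw [h0, map_zero])
      exact sparse_zeros (F j) hF0
  have t2 : Sparse 4 (fun B x => ∃ j, IsCoprime (x 0) (x 1) ∧ IsCoprime (x 2) (x 3) ∧
      (rd (eval x (F j)).natAbs : ℝ) <
        (B : ℝ) ^ (ρ j - η)) :=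
    Sparse.exists_fin fun j => hρ j η hη0
  have t3 : Sparse 4 (fun B x => ∃ i, ∃ j, i ≠ j ∧ eval x (F i) ≠ 0 ∧
      (B : ℝ) ^ η < rd (Int.gcd (eval x (F i)) (eval x (F j)))) := by
    refine Sparse.exists_fin fun i => Sparse.exists_fin fun j => ?_
    by_cases hij : i = j
    · refine (Sparse.false 4).mono ?_
      rintro B x - - ⟨h, -⟩
      exact h hij
    · have hnd : ¬ toQ (F i) ∣ toQ (F j) := by
        intro h
        exact hdist i j hij (((hirr i).dvd_irreducible_iff_associated (hirr j)).1 h)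
      refine (sparse_gcd (n := 3) (F i) (F j) (hbi i).hom (hirr i) hnd hη0).mono ?_
      rintro B x - - ⟨-, h⟩
      exact h
  have t4 := sparse_height 0 hη0 hη1
  have t5 := sparse_height 2 hη0 hη1
  refine (((t1.or t2).or t3).or (t4.or t5)).of_eventually (⌈Real.exp (2 * σ / Γ)⌉₊ + 2) ?_
  rintro B x hB₀ hB hx ⟨c1, c2, hbad⟩
  by_contra hcon
  push Not at hcon
  obtain ⟨⟨⟨k1, k2⟩, k3⟩, k4, k5⟩ := hcon
  have hB1 : (1 : ℝ) ≤ B := by exact_mod_cast hB
  have hB0 : (0 : ℝ) < B := by linarith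
  have hlog0 : 0 ≤ Real.log B := Real.log_nonneg hB1
  have hlogσ : σ ≤ Γ / 2 * Real.log B := by
    have h1 : Real.exp (2 * σ / Γ) ≤ B := by
      refine (Nat.le_ceil _).trans ?_
      exact_mod_cast (show ⌈Real.exp (2 * σ / Γ)⌉₊ ≤ B by omega)
    have h2 : 2 * σ / Γ ≤ Real.log B := by
      rw [Real.le_log_iff_exp_le hB0]; exact h1
    rw [div_le_iff₀ hΓ0] at h2
    linarith
  rcases hbad with ⟨j, hj⟩ | hbad
  · exact k1 j hj
  apply absurd hbad
  rw [not_lt]
  -- the primes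
  set P : Fin ℓ → Finset ℕ := fun j => (eval x (F j)).natAbs.primeFactors with hP
  have hne : ∀ j, (eval x (F j)).natAbs ≠ 0 := fun j => Int.natAbs_ne_zero.2 (k1 j)
  have hprimes : (∏ j, eval x (F j)).natAbs.primeFactors = Finset.univ.biUnion P := by
    have hna : (∏ j, eval x (F j)).natAbs = ∏ j, (eval x (F j)).natAbs :=
      map_prod Int.natAbsHom _ _
    rw [hna]
    ext p
    rw [Finset.mem_biUnion, Nat.mem_primeFactors]
    constructor
    · rintro ⟨hp, hpd, -⟩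
      rw [hp.prime.dvd_finsetProd_iff] at hpd
      obtain ⟨j, hj, hpj⟩ := hpd
      exact ⟨j, hj, Nat.mem_primeFactors.2 ⟨hp, hpj, hne j⟩⟩
    · rintro ⟨j, hj, hpj⟩
      rw [hP, Nat.mem_primeFactors] at hpj
      exact ⟨hpj.1, hpj.2.1.trans (Finset.dvd_prod_of_mem _ hj),
        Finset.prod_ne_zero_iff.2 fun j _ => hne j⟩
  have hlognn : ∀ p : ℕ, 0 ≤ Real.log (p : ℝ) := fun p => Real.log_natCast_nonneg p
  have hpair : ∀ i ∈ (Finset.univ : Finset (Fin ℓ)), ∀ j ∈ (Finset.univ : Finset (Fin ℓ)), i ≠ j →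
      ∑ p ∈ P i ∩ P j, Real.log (p : ℝ) ≤ η * Real.log B := by
    intro i _ j _ hij
    have h1 := k3 i j hij (k1 i)
    have h2 : P i ∩ P j = (Int.gcd (eval x (F i)) (eval x (F j))).primeFactors := by
      rw [hP]
      show _ = (Nat.gcd (eval x (F i)).natAbs (eval x (F j)).natAbs).primeFactors
      rw [Nat.primeFactors_gcd (hne i) (hne j)]
    rw [h2, ← log_rd, ← Real.log_rpow hB0]
    exact Real.log_le_log (by exact_mod_cast rd_pos _) h1
  have hbon := bonferroni P (fun p => Real.log (p : ℝ)) hlognn (η * Real.log B) (by positivity)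
    Finset.univ hpair
  rw [Finset.card_univ, Fintype.card_fin] at hbon
  have hsd : ∑ p ∈ Finset.univ.biUnion P, Real.log (p : ℝ) ≤
      ∑ p ∈ Finset.univ.biUnion P \ S, Real.log (p : ℝ) + σ := by
    have h1 : Finset.univ.biUnion P ⊆ (Finset.univ.biUnion P \ S) ∪ S := by
      intro p hp
      rw [Finset.mem_union, Finset.mem_sdiff]
      by_cases h : p ∈ S
      · exact Or.inr h
      · exact Or.inl ⟨hp, h⟩
    have h2 : ∑ p ∈ Finset.univ.biUnion P, Real.log (p : ℝ) ≤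
        ∑ p ∈ (Finset.univ.biUnion P \ S) ∪ S, Real.log (p : ℝ) :=
      Finset.sum_le_sum_of_subset_of_nonneg h1 (fun p _ _ => hlognn p)
    refine h2.trans ?_
    rw [Finset.sum_union (Finset.sdiff_disjoint)]
  rw [hprimes]
  -- the radicals
  have hrad : ∀ j, (ρ j - η) * Real.log B ≤
      ∑ p ∈ P j, Real.log (p : ℝ) := by
    intro j
    have h1 := k2 j c1 c2
    rw [hP, ← log_rd, ← Real.log_rpow hB0]
    exact Real.log_le_log (by positivity) h1
  have hradsum : ∑ j, (ρ j - η) * Real.log B ≤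
      ∑ j, ∑ p ∈ P j, Real.log (p : ℝ) := Finset.sum_le_sum fun j _ => hrad j
  have hsum1 : ∑ j, (ρ j - η) =
      (∑ j, (a j : ℝ)) + (∑ j, (b j : ℝ)) - (κ₁ + κ₂ - Γ) - ℓ * η := by
    have h1 : κ₁ + κ₂ - Γ = ∑ j, ((a j : ℝ) + b j - ρ j) := by rw [hΓ]; ring
    rw [h1]
    rw [Finset.sum_sub_distrib, Finset.sum_sub_distrib, Finset.sum_const, Finset.card_univ,
      Fintype.card_fin, nsmul_eq_mul, Finset.sum_add_distrib]
    ring
  rw [← Finset.sum_mul, hsum1] at hradsum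
  -- the heights
  have hh : ∀ (i j : Fin 4) (A : ℝ), (B : ℝ) ^ (1 - η) < ((x i).natAbs : ℝ) →
      A * Real.log (max (x i).natAbs (x j).natAbs : ℕ) ≤ (A + |A| * η) * Real.log B := by
    intro i j A hi
    set H := Real.log (max (x i).natAbs (x j).natAbs : ℕ) with hH
    have hb := mem_box.1 hx
    have h1 : H ≤ Real.log B := by
      have hp : (0 : ℝ) < ((x i).natAbs : ℝ) := lt_trans (by positivity) hi
      refine Real.log_le_log ?_ ?_
      · have : 0 < (x i).natAbs := by exact_mod_cast hp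
        exact_mod_cast lt_of_lt_of_le this (le_max_left _ _)
      · have e1 := hb i
        have e2 := hb j
        rw [Int.abs_eq_natAbs] at e1 e2
        have : max (x i).natAbs (x j).natAbs ≤ B := max_le (by exact_mod_cast e1) (by exact_mod_cast e2)
        exact_mod_cast this
    have h2 : (1 - η) * Real.log B ≤ H := by
      rw [← Real.log_rpow hB0]
      refine Real.log_le_log (by positivity) (hi.le.trans ?_)
      exact_mod_cast le_max_left _ _
    rcases le_total 0 A with hA | hA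
    · rw [abs_of_nonneg hA]
      have : 0 ≤ A * η * Real.log B := by positivity
      nlinarith
    · rw [abs_of_nonpos hA]
      nlinarith
  have e1 := hh 0 1 ((∑ j, (a j : ℝ)) - κ₁) k4
  have e2 := hh 2 3 ((∑ j, (b j : ℝ)) - κ₂) k5
  rw [← hA₁] at e1
  rw [← hA₂] at e2
  have hfin : (((∑ j, (a j : ℝ)) - κ₁) + A₁ * η) * Real.log B +
      (((∑ j, (b j : ℝ)) - κ₂) + A₂ * η) * Real.log B ≤
      ((∑ j, (a j : ℝ)) + (∑ j, (b j : ℝ)) - (κ₁ + κ₂ - Γ) - ℓ * η) * Real.log B -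
        (ℓ : ℝ) ^ 2 * (η * Real.log B) - σ := by
    have h1 : (((∑ j, (a j : ℝ)) + (∑ j, (b j : ℝ)) - (κ₁ + κ₂ - Γ) - ℓ * η) * Real.log B -
        (ℓ : ℝ) ^ 2 * (η * Real.log B) - σ) - ((((∑ j, (a j : ℝ)) - κ₁) + A₁ * η) * Real.log B +
      (((∑ j, (b j : ℝ)) - κ₂) + A₂ * η) * Real.log B) =
        (Γ - η * M) * Real.log B + η * Real.log B - σ := by
      rw [hM]; ring
    have h2 : Γ / 2 * Real.log B ≤ (Γ - η * M) * Real.log B :=
      mul_le_mul_of_nonneg_right (by linarith) hlog0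
    have h3 : 0 ≤ η * Real.log B := by positivity
    linarith
  linarith

end Pool.Agent.Helper19K9.Tf
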