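import Pool.Agent.Helper19K9.Tf.Frad
import Pool.Agent.Helper19K9.Fb.Main

/-!
The truncated counting function in every fibre, without loss up to the fourth power.
-/

set_option autoImplicit false
set_option linter.all false
set_option maxHeartbeats 4000000

namespace Pool.Agent.Helper19K9.Tf

open MvPolynomial Pool.Agent.TH910.Voj Pool.Agent.Helper19K9.Sq Pool.Agent.H813R3.Voj
  Pool.Agent.Helper19K9.Fb

/-- the contribution of a component of bidegree `(a, b)` at the points with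
`log ht y = s log ht x` -/
noncomputable def gain4 (a b : ℕ) (s : ℝ) : ℝ :=
  if a = 0 then 0 else if (a : ℝ) + b * s ≤ 4 then (a : ℝ) + b * s else
    ((a : ℝ) + b * s) / (max 1 ⌊((a : ℝ) + b * s) / 2⌋₊ : ℕ)

theorem main_fib4 {ℓ : ℕ} (F : Fin ℓ → MvPolynomial (Fin 4) ℤ) (a b : Fin ℓ → ℕ)
    (hbi : ∀ j, Bi (F j) (a j) (b j)) (hirr : ∀ j, Irreducible (toQ (F j)))
    (hdist : ∀ i j, i ≠ j → ¬ Associated (toQ (F i)) (toQ (F j))) (S : Finset ℕ)
    (Λ : ℝ) (hΛ : 0 < Λ) (κ₁ κ₂ : ℝ)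
    (hκ : ∀ s : ℝ, 0 ≤ s → s ≤ Λ → ((∑ j, (a j : ℝ)) - κ₁) + ((∑ j, (b j : ℝ)) - κ₂) * s ≤
      ∑ j, gain4 (a j) (b j) s) :
    ∃ Z : Set (ℤ × ℤ), Z.Finite ∧ ∀ ε : ℝ, 0 < ε → FS (fun y => IsCoprime y.1 y.2 ∧ y ∉ Z) Λ
      (fun B y x => (∃ j, val (F j) x y = 0) ∨
        ∑ p ∈ (∏ j, val (F j) x y).natAbs.primeFactors \ S, Real.log (p : ℝ) <
          ((∑ j, (a j : ℝ)) - κ₁ - ε) * Real.log (ht x) +
          ((∑ j, (b j : ℝ)) - κ₂ - ε) * Real.log (ht y)) := by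
  classical
  -- the exceptional points
  have hRj : ∀ j, ∃ R : ℤ × ℤ → ℤ, IsRes R ∧ (1 ≤ a j → ∀ (Λ : ℝ), 0 ≤ Λ → ∀ (m : ℕ), 1 ≤ m →
      ((a j : ℝ) + Λ * b j < 2 * (m + 1)) → ∀ ε : ℝ, 0 < ε →
      FS (fun y => IsCoprime y.1 y.2 ∧ R y ≠ 0) Λ (fun B y x =>
        (rd (val (F j) x y).natAbs : ℝ) ^ m <
          (ht y : ℝ) ^ b j * (B : ℝ) ^ ((a j : ℝ) - ε))) ∧
      (1 ≤ a j → ∀ (Λ : ℝ), 0 ≤ Λ → ((a j : ℝ) + Λ * b j ≤ 4) → ∀ ε : ℝ, 0 < ε →
      FS (fun y => IsCoprime y.1 y.2 ∧ R y ≠ 0) Λ (fun B y x =>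
        (rd (val (F j) x y).natAbs : ℝ) <
          (ht y : ℝ) ^ b j * (B : ℝ) ^ ((a j : ℝ) - ε))) := by
    intro j
    by_cases ha : 1 ≤ a j
    · obtain ⟨R, hR, h, h'⟩ := fs_rad4 (hbi j) ha (hirr j)
      exact ⟨R, hR, fun _ => h, fun _ => h'⟩
    · refine ⟨fun _ => 1, ⟨by simp, 1, 0, fun y _ => by simp⟩, fun h => absurd h ha,
        fun h => absurd h ha⟩
  choose R hR hRrad hRrad4 using hRj
  have hRij : ∀ i j, ∃ R : ℤ × ℤ → ℤ, IsRes R ∧ (i ≠ j → 1 ≤ a i → ∀ (Λ : ℝ), 0 ≤ Λ →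
      ∀ η : ℝ, 0 < η → η ≤ 1 →
      FS (fun y => IsCoprime y.1 y.2 ∧ R y ≠ 0) Λ (fun B y x => val (F i) x y ≠ 0 ∧
        (B : ℝ) ^ η < rd (Int.gcd (val (F i) x y) (val (F j) x y)))) := by
    intro i j
    by_cases hij : i ≠ j ∧ 1 ≤ a i
    · have hnd : ¬ toQ (F i) ∣ toQ (F j) := by
        intro h
        exact hdist i j hij.1 (((hirr i).dvd_irreducible_iff_associated (hirr j)).1 h)
      obtain ⟨R, hR, h⟩ := fs_gcd (hbi i) (hbi j) hij.2 (hirr i) hnd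
      exact ⟨R, hR, fun _ _ => h⟩
    · refine ⟨fun _ => 1, ⟨by simp, 1, 0, fun y _ => by simp⟩, fun h1 h2 => absurd ⟨h1, h2⟩ hij⟩
  choose R' hR' hRgcd using hRij
  set Z : Set (ℤ × ℤ) := (⋃ j, {y : ℤ × ℤ | IsCoprime y.1 y.2 ∧ R j y = 0}) ∪
    (⋃ i, ⋃ j, {y : ℤ × ℤ | IsCoprime y.1 y.2 ∧ R' i j y = 0}) ∪
    (⋃ j, {y : ℤ × ℤ | IsCoprime y.1 y.2 ∧ a j = 0 ∧ ∃ x : ℤ × ℤ, val (F j) x y = 0}) with hZ
  have hZfin : Z.Finite := by
    refine ((Set.finite_iUnion fun j => (hR j).1).union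
      (Set.finite_iUnion fun i => Set.finite_iUnion fun j => (hR' i j).1)).union
      (Set.finite_iUnion fun j => ?_)
    by_cases ha : a j = 0
    · have h1 : Bi (F j) 0 (b j) := by rw [← ha]; exact hbi j
      refine (finite_fibre h1 (hirr j)).subset ?_
      rintro y ⟨h1, -, h2⟩
      exact ⟨h1, h2⟩
    · refine (Set.finite_empty).subset ?_
      rintro y ⟨-, h, -⟩
      exact ha h
  refine ⟨Z, hZfin, fun ε hε => ?_⟩
  -- the parameters
  set q₁ : ℝ := (∑ j, (a j : ℝ)) - κ₁ with hq₁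
  set q₂ : ℝ := (∑ j, (b j : ℝ)) - κ₂ with hq₂
  set r : ℝ := ∑ j, (b j : ℝ) with hr
  have hr0 : 0 ≤ r := Finset.sum_nonneg fun j _ => Nat.cast_nonneg _
  set M : ℝ := (ℓ : ℝ) + (ℓ : ℝ) ^ 2 + |q₁| + r + |q₂| + 1 with hM
  have hA1 : 0 ≤ |q₁| := abs_nonneg _
  have hA2 : 0 ≤ |q₂| := abs_nonneg _
  have hM1 : 1 ≤ M := by rw [hM]; have : (0 : ℝ) ≤ ℓ := Nat.cast_nonneg _; nlinarith
  have hM0 : 0 < M := by linarith
  set η : ℝ := min (1 / 2) (ε / (8 * M)) with hη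
  have hη0 : 0 < η := by rw [hη]; positivity
  have hη1 : η ≤ 1 / 2 := min_le_left _ _
  have hηM : η * M ≤ ε / 8 := by
    have := min_le_right (1 / 2) (ε / (8 * M))
    rw [← hη] at this
    calc η * M ≤ ε / (8 * M) * M := mul_le_mul_of_nonneg_right this hM0.le
      _ = ε / 8 := by field_simp
  obtain ⟨n₀, hn₀⟩ := exists_nat_gt (8 * M * Λ / ε)
  set n := n₀ + 1 with hn
  have hnR : (0 : ℝ) < n := by rw [hn]; positivity
  set θ : ℝ := Λ / n with hθ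
  have hθ0 : 0 < θ := by positivity
  have hθM : θ * M ≤ ε / 8 := by
    have h1 : 8 * M * Λ / ε < n := by
      rw [hn]; push_cast; linarith
    rw [div_lt_iff₀ hε] at h1
    rw [hθ, div_mul_eq_mul_div, div_le_iff₀ hnR]
    linarith
  set σ : ℝ := ∑ p ∈ S, Real.log (p : ℝ) with hσ
  have hσ0 : 0 ≤ σ := Finset.sum_nonneg fun p _ => Real.log_natCast_nonneg p
  -- the radicals
  let Λi : Fin n → ℝ := fun i => ((i : ℕ) + 1 : ℝ) * θ
  let mi : Fin n → Fin ℓ → ℕ := fun i j => if (a j : ℝ) + b j * Λi i ≤ 4 then 1 else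
    max 1 ⌊((a j : ℝ) + b j * Λi i) / 2⌋₊
  have hΛi0 : ∀ i, 0 ≤ Λi i := fun i => by
    show 0 ≤ ((i : ℕ) + 1 : ℝ) * θ
    positivity
  have hmi1 : ∀ i j, 1 ≤ mi i j := fun i j => by
    show 1 ≤ (if (a j : ℝ) + b j * Λi i ≤ 4 then 1 else max 1 ⌊((a j : ℝ) + b j * Λi i) / 2⌋₊)
    split_ifs
    · exact le_rfl
    · exact le_max_left _ _
  have hmi4 : ∀ i j, (a j : ℝ) + b j * Λi i ≤ 4 → mi i j = 1 := fun i j h => if_pos h
  have hmi5 : ∀ i j, ¬ (a j : ℝ) + b j * Λi i ≤ 4 →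
      mi i j = max 1 ⌊((a j : ℝ) + b j * Λi i) / 2⌋₊ := fun i j h => if_neg h
  have hmi : ∀ i j, ¬ (a j : ℝ) + b j * Λi i ≤ 4 →
      (a j : ℝ) + Λi i * b j < 2 * ((mi i j : ℝ) + 1) := by
    intro i j h4
    have h1 := Nat.lt_floor_add_one (((a j : ℝ) + b j * Λi i) / 2)
    have h2 : ((⌊((a j : ℝ) + b j * Λi i) / 2⌋₊ : ℕ) : ℝ) ≤ (mi i j : ℝ) := by
      rw [hmi5 i j h4]
      exact_mod_cast le_max_right 1 ⌊((a j : ℝ) + b j * Λi i) / 2⌋₊
    linarith [mul_comm (Λi i) (b j : ℝ)]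
  have hYZ : ∀ (Q : ℤ × ℤ → ℤ), {y : ℤ × ℤ | IsCoprime y.1 y.2 ∧ Q y = 0} ⊆ Z →
      ∀ y : ℤ × ℤ, (IsCoprime y.1 y.2 ∧ y ∉ Z) → (IsCoprime y.1 y.2 ∧ Q y ≠ 0) := by
    rintro Q hQ y ⟨h1, h2⟩
    exact ⟨h1, fun h3 => h2 (hQ ⟨h1, h3⟩)⟩
  have hZR : ∀ j, {y : ℤ × ℤ | IsCoprime y.1 y.2 ∧ R j y = 0} ⊆ Z := fun j y hy =>
    Or.inl (Or.inl (Set.mem_iUnion.2 ⟨j, hy⟩))
  have hZR' : ∀ i j, {y : ℤ × ℤ | IsCoprime y.1 y.2 ∧ R' i j y = 0} ⊆ Z := fun i j y hy =>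
    Or.inl (Or.inr (Set.mem_iUnion.2 ⟨i, Set.mem_iUnion.2 ⟨j, hy⟩⟩))
  set Y : ℤ × ℤ → Prop := fun y => IsCoprime y.1 y.2 ∧ y ∉ Z with hY
  have t1 : FS Y Λ (fun B y x => ∃ j, 1 ≤ a j ∧ val (F j) x y = 0) := by
    refine FS.exists_fin fun j => ?_
    by_cases ha : 1 ≤ a j
    · refine ((fs_zero (hbi j) ha (hirr j) Λ).anti (fun y hy => hy.1) le_rfl).mono ?_
      intro B y x _ _ _ _ _ h
      exact h.2
    · refine FS.false.mono ?_
      intro B y x _ _ _ _ _ h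
      exact ha h.1
  have t2 : FS Y Λ (fun B y x => ∃ i : Fin n, ∃ j, (ht y : ℝ) ≤ (B : ℝ) ^ Λi i ∧ (1 ≤ a j ∧
      (rd (val (F j) x y).natAbs : ℝ) ^ mi i j <
        (ht y : ℝ) ^ b j * (B : ℝ) ^ ((a j : ℝ) - η))) := by
    refine FS.exists_fin fun i => FS.exists_fin fun j => ?_
    by_cases ha : 1 ≤ a j
    · by_cases h4 : (a j : ℝ) + b j * Λi i ≤ 4
      · have h1 := (hRrad4 j ha (Λi i) (hΛi0 i) (by rw [mul_comm (Λi i)]; exact h4) η hη0).anti
          (hYZ _ (hZR j)) le_rfl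
        refine (h1.restrict (Λ := Λ)).mono ?_
        intro B y x _ _ _ _ _ h
        refine ⟨h.1, ?_⟩
        have h2 := h.2.2
        rw [hmi4 i j h4, pow_one] at h2
        exact h2
      · have h1 := (hRrad j ha (Λi i) (hΛi0 i) (mi i j) (hmi1 i j) (hmi i j h4) η hη0).anti
          (hYZ _ (hZR j)) le_rfl
        refine (h1.restrict (Λ := Λ)).mono ?_
        intro B y x _ _ _ _ _ h
        exact ⟨h.1, h.2.2⟩
    · refine FS.false.mono ?_
      intro B y x _ _ _ _ _ h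
      exact ha h.2.1
  have t3 : FS Y Λ (fun B y x => ∃ i, ∃ j, (i ≠ j ∧ 1 ≤ a i) ∧ (val (F i) x y ≠ 0 ∧
      (B : ℝ) ^ η < rd (Int.gcd (val (F i) x y) (val (F j) x y)))) := by
    refine FS.exists_fin fun i => FS.exists_fin fun j => ?_
    by_cases hij : i ≠ j ∧ 1 ≤ a i
    · refine ((hRgcd i j hij.1 hij.2 Λ hΛ.le η hη0 (by linarith)).anti
        (hYZ _ (hZR' i j)) le_rfl).mono ?_
      intro B y x _ _ _ _ _ h
      exact h.2
    · refine FS.false.mono ?_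
      intro B y x _ _ _ _ _ h
      exact hij h.1
  have t4 := fs_height Y Λ hη0 (by linarith)
  refine (((t1.or t2).or t3).or t4).of_eventually (⌈Real.exp (8 * σ / ε)⌉₊ + 2) ?_
  rintro B y x hB₀ hB ⟨hyc, hyZ⟩ hyB hx hco hbad
  by_contra hcon
  push Not at hcon
  obtain ⟨⟨⟨k1, k2⟩, k3⟩, k4⟩ := hcon
  have hB1 : (1 : ℝ) ≤ B := by exact_mod_cast hB
  have hB0 : (0 : ℝ) < B := by linarith
  set L := Real.log B with hL
  have hlog0 : 0 ≤ L := Real.log_nonneg hB1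
  have hlogσ : σ ≤ ε / 8 * L := by
    have h1 : Real.exp (8 * σ / ε) ≤ B := by
      refine (Nat.le_ceil _).trans ?_
      exact_mod_cast (show ⌈Real.exp (8 * σ / ε)⌉₊ ≤ B by omega)
    have h2 : 8 * σ / ε ≤ L := by
      rw [hL, Real.le_log_iff_exp_le hB0]; exact h1
    rw [div_le_iff₀ hε] at h2
    linarith
  -- no zeros
  have hnz : ∀ j, val (F j) x y ≠ 0 := by
    intro j h
    by_cases ha : 1 ≤ a j
    · exact k1 j ha h
    · apply hyZ
      exact Or.inr (Set.mem_iUnion.2 ⟨j, hyc, by omega, x, h⟩)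
  rcases hbad with ⟨j, hj⟩ | hbad
  · exact hnz j hj
  apply absurd hbad
  rw [not_lt]
  have hty : (1 : ℝ) ≤ ht y := by exact_mod_cast ht_pos hyc
  have hty0 : (0 : ℝ) < ht y := by linarith
  have htx0 : (0 : ℝ) < ht x := by exact_mod_cast ht_pos hco
  set hy' := Real.log (ht y : ℝ) with hhy
  have hhy0 : 0 ≤ hy' := Real.log_nonneg hty
  have hhyΛ : hy' ≤ Λ * L := by
    rw [hhy, hL, ← Real.log_rpow hB0]
    exact Real.log_le_log hty0 hyB
  -- the interval of `log ht y / log B`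
  obtain ⟨i, hi1, hi2⟩ : ∃ i : Fin n, (ht y : ℝ) ≤ (B : ℝ) ^ Λi i ∧ (Λi i - θ) * L ≤ hy' := by
    have hex : ∃ i : ℕ, hy' ≤ ((i : ℝ) + 1) * θ * L := by
      refine ⟨n₀, hhyΛ.trans (le_of_eq ?_)⟩
      rw [hθ, hn]
      push_cast
      field_simp
    set i := Nat.find hex with hidef
    have hi := Nat.find_spec hex
    have hin : i < n := by
      have : i ≤ n₀ := Nat.find_min' hex (by
        refine hhyΛ.trans (le_of_eq ?_)
        rw [hθ, hn]
        push_cast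
        field_simp)
      omega
    refine ⟨⟨i, hin⟩, ?_, ?_⟩
    · rw [← Real.log_le_log_iff hty0 (by positivity), Real.log_rpow hB0]
      exact hi
    · show (((i : ℕ) + 1 : ℝ) * θ - θ) * L ≤ hy'
      rcases Nat.eq_zero_or_pos i with h0 | h0
      · rw [h0]
        have : (((0 : ℕ) : ℝ) + 1) * θ - θ = 0 := by push_cast; ring
        rw [this, zero_mul]
        exact hhy0
      · have h1 := Nat.find_min hex (m := i - 1) (by omega)
        push Not at h1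
        have h2 : (((i - 1 : ℕ) : ℝ) + 1) = i := by
          rw [Nat.cast_sub h0]; push_cast; ring
        rw [h2] at h1
        have h3 : (((i : ℕ) + 1 : ℝ) * θ - θ) * L = (i : ℝ) * θ * L := by ring
        rw [h3]
        exact h1.le
  have hΛiΛ : Λi i ≤ Λ := by
    show ((i : ℕ) + 1 : ℝ) * θ ≤ Λ
    have h1 : ((i : ℕ) + 1 : ℝ) ≤ n := by exact_mod_cast i.2
    calc ((i : ℕ) + 1 : ℝ) * θ ≤ n * θ := mul_le_mul_of_nonneg_right h1 hθ0.le
      _ = Λ := by rw [hθ]; field_simp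
  -- the primes
  set P : Fin ℓ → Finset ℕ := fun j => (val (F j) x y).natAbs.primeFactors with hP
  set J : Finset (Fin ℓ) := Finset.univ.filter fun j => 1 ≤ a j with hJ
  have hne : ∀ j, (val (F j) x y).natAbs ≠ 0 := fun j => Int.natAbs_ne_zero.2 (hnz j)
  have hprimes : J.biUnion P ⊆ (∏ j, val (F j) x y).natAbs.primeFactors := by
    have hna : (∏ j, val (F j) x y).natAbs = ∏ j, (val (F j) x y).natAbs :=
      map_prod Int.natAbsHom _ _
    rw [hna]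
    intro p hp
    rw [Finset.mem_biUnion] at hp
    obtain ⟨j, hj, hpj⟩ := hp
    rw [hP, Nat.mem_primeFactors] at hpj
    rw [Nat.mem_primeFactors]
    exact ⟨hpj.1, hpj.2.1.trans (Finset.dvd_prod_of_mem _ (Finset.mem_univ j)),
        Finset.prod_ne_zero_iff.2 fun j _ => hne j⟩
  have hlognn : ∀ p : ℕ, 0 ≤ Real.log (p : ℝ) := fun p => Real.log_natCast_nonneg p
  have hpair : ∀ i ∈ J, ∀ j ∈ J, i ≠ j →
      ∑ p ∈ P i ∩ P j, Real.log (p : ℝ) ≤ η * L := by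
    intro i hi j _ hij
    rw [hJ, Finset.mem_filter] at hi
    have h1 := k3 i j ⟨hij, hi.2⟩ (hnz i)
    have h2 : P i ∩ P j = (Int.gcd (val (F i) x y) (val (F j) x y)).primeFactors := by
      rw [hP]
      show _ = (Nat.gcd (val (F i) x y).natAbs (val (F j) x y).natAbs).primeFactors
      rw [Nat.primeFactors_gcd (hne i) (hne j)]
    rw [h2, ← log_rd, hL, ← Real.log_rpow hB0]
    exact Real.log_le_log (by exact_mod_cast rd_pos _) h1
  have hbon := bonferroni P (fun p => Real.log (p : ℝ)) hlognn (η * L) (by positivity)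
    J hpair
  have hJc : ((J.card : ℝ)) ^ 2 * (η * L) ≤ (ℓ : ℝ) ^ 2 * (η * L) := by
    have : J.card ≤ ℓ := by
      have := Finset.card_le_univ J
      rwa [Fintype.card_fin] at this
    have h2 : (J.card : ℝ) ≤ ℓ := by exact_mod_cast this
    have h3 : 0 ≤ η * L := by positivity
    exact mul_le_mul_of_nonneg_right (pow_le_pow_left₀ (Nat.cast_nonneg _) h2 _) h3
  have hsd : ∑ p ∈ J.biUnion P, Real.log (p : ℝ) ≤
      ∑ p ∈ (∏ j, val (F j) x y).natAbs.primeFactors \ S, Real.log (p : ℝ) + σ := by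
    have h1 : J.biUnion P ⊆ ((∏ j, val (F j) x y).natAbs.primeFactors \ S) ∪ S := by
      intro p hp
      rw [Finset.mem_union, Finset.mem_sdiff]
      by_cases h : p ∈ S
      · exact Or.inr h
      · exact Or.inl ⟨hprimes hp, h⟩
    have h2 : ∑ p ∈ J.biUnion P, Real.log (p : ℝ) ≤
        ∑ p ∈ ((∏ j, val (F j) x y).natAbs.primeFactors \ S) ∪ S, Real.log (p : ℝ) :=
      Finset.sum_le_sum_of_subset_of_nonneg h1 (fun p _ _ => hlognn p)
    refine h2.trans ?_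
    rw [Finset.sum_union (Finset.sdiff_disjoint)]
  -- the radicals
  have hrad : ∀ j ∈ J, (gain4 (a j) (b j) (Λi i) - b j * θ - η) * L ≤
      ∑ p ∈ P j, Real.log (p : ℝ) := by
    intro j hj
    rw [hJ, Finset.mem_filter] at hj
    have h1 := k2 i j hi1 hj.2
    have hm0 : (0 : ℝ) < mi i j := by exact_mod_cast hmi1 i j
    have hm1 : (1 : ℝ) ≤ mi i j := by exact_mod_cast hmi1 i j
    have h2 : (b j : ℝ) * hy' + ((a j : ℝ) - η) * L ≤ mi i j * ∑ p ∈ P j, Real.log (p : ℝ) := by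
      rw [hP, ← log_rd, ← Real.log_pow, ← Real.log_pow, hL, ← Real.log_rpow hB0,
        ← Real.log_mul (by positivity) (by positivity)]
      exact Real.log_le_log (by positivity) h1
    have h3 : gain4 (a j) (b j) (Λi i) = ((a j : ℝ) + b j * Λi i) / mi i j := by
      unfold gain4
      rw [if_neg (by omega)]
      by_cases h4 : (a j : ℝ) + b j * Λi i ≤ 4
      · rw [if_pos h4, hmi4 i j h4, Nat.cast_one, div_one]
      · rw [if_neg h4, hmi5 i j h4]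
    have h4 : (b j : ℝ) * ((Λi i - θ) * L) ≤ b j * hy' :=
      mul_le_mul_of_nonneg_left hi2 (Nat.cast_nonneg _)
    have h5 : ((a j : ℝ) + b j * Λi i) * L - (b j * θ + η) * L ≤
        mi i j * ∑ p ∈ P j, Real.log (p : ℝ) := by
      refine le_trans (le_of_eq ?_) ((add_le_add_left h4 (((a j : ℝ) - η) * L)).trans
        (le_trans (le_of_eq ?_) h2))
      · ring
      · ring
    rw [h3]
    have h6 : (((a j : ℝ) + b j * Λi i) / mi i j - b j * θ - η) * L * mi i j ≤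
        (∑ p ∈ P j, Real.log (p : ℝ)) * mi i j := by
      have h7 : (((a j : ℝ) + b j * Λi i) / mi i j - b j * θ - η) * L * mi i j =
          ((a j : ℝ) + b j * Λi i) * L - (b j * θ + η) * L * mi i j := by
        field_simp
        ring
      rw [h7]
      have h8 : (b j * θ + η) * L ≤ (b j * θ + η) * L * mi i j :=
        le_mul_of_one_le_right (by positivity) hm1
      linarith
    exact le_of_mul_le_mul_right h6 hm0
  have hradsum : ∑ j ∈ J, (gain4 (a j) (b j) (Λi i) - b j * θ - η) * L ≤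
      ∑ j ∈ J, ∑ p ∈ P j, Real.log (p : ℝ) := Finset.sum_le_sum hrad
  have hgainJ : ∑ j ∈ J, gain4 (a j) (b j) (Λi i) = ∑ j, gain4 (a j) (b j) (Λi i) := by
    rw [hJ, Finset.sum_filter]
    refine Finset.sum_congr rfl fun j _ => ?_
    split_ifs with h
    · rfl
    · unfold gain4
      rw [if_pos (by omega)]
  have hsum1 : (∑ j, gain4 (a j) (b j) (Λi i)) - r * θ - ℓ * η ≤
      ∑ j ∈ J, (gain4 (a j) (b j) (Λi i) - b j * θ - η) := by
    rw [Finset.sum_sub_distrib, Finset.sum_sub_distrib, hgainJ, Finset.sum_const, nsmul_eq_mul,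
      ← Finset.sum_mul]
    have h1 : ∑ j ∈ J, (b j : ℝ) ≤ r :=
      Finset.sum_le_sum_of_subset_of_nonneg (Finset.subset_univ _) fun _ _ _ => Nat.cast_nonneg _
    have h2 : (J.card : ℝ) ≤ ℓ := by
      have := Finset.card_le_univ J
      rw [Fintype.card_fin] at this
      exact_mod_cast this
    have h3 := mul_le_mul_of_nonneg_right h1 hθ0.le
    have h4 := mul_le_mul_of_nonneg_right h2 hη0.le
    linarith
  rw [← Finset.sum_mul] at hradsum
  have hgain := hκ (Λi i) (hΛi0 i) hΛiΛ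
  -- the height of `x`
  set hx' := Real.log (ht x : ℝ) with hhx
  have hx1 : hx' ≤ L := Real.log_le_log htx0 (by exact_mod_cast hx)
  have hx2 : (1 - η) * L ≤ hx' := by
    rw [hL, ← Real.log_rpow hB0]
    exact Real.log_le_log (by positivity) k4.le
  have hy2 : hy' ≤ Λi i * L := by
    rw [hhy, hL, ← Real.log_rpow hB0]
    exact Real.log_le_log hty0 hi1
  have e1 : q₁ * hx' ≤ q₁ * L + |q₁| * (η * L) := by
    have h1 : |q₁ * (hx' - L)| ≤ |q₁| * (η * L) := by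
      rw [abs_mul]
      refine mul_le_mul_of_nonneg_left ?_ hA1
      rw [abs_le]
      constructor
      · linarith
      · have : 0 ≤ η * L := by positivity
        linarith
    have h2 := le_abs_self (q₁ * (hx' - L))
    linarith
  have e2 : q₂ * hy' ≤ q₂ * (Λi i * L) + |q₂| * (θ * L) := by
    have h1 : |q₂ * (hy' - Λi i * L)| ≤ |q₂| * (θ * L) := by
      rw [abs_mul]
      refine mul_le_mul_of_nonneg_left ?_ hA2
      rw [abs_le]
      constructor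
      · linarith
      · have : 0 ≤ θ * L := by positivity
        linarith
    have h2 := le_abs_self (q₂ * (hy' - Λi i * L))
    linarith
  have e3 : ε * ((1 - η) * L) ≤ ε * hx' := mul_le_mul_of_nonneg_left hx2 hε.le
  have e4 : 0 ≤ ε * hy' := by positivity
  have e5 : (q₁ + q₂ * Λi i) * L ≤ (∑ j, gain4 (a j) (b j) (Λi i)) * L :=
    mul_le_mul_of_nonneg_right hgain hlog0
  have e6 : ((∑ j, gain4 (a j) (b j) (Λi i)) - r * θ - ℓ * η) * L ≤
      (∑ j ∈ J, (gain4 (a j) (b j) (Λi i) - b j * θ - η)) * L :=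
    mul_le_mul_of_nonneg_right hsum1 hlog0
  have e7 : (r + |q₂|) * θ * L + (ℓ + (ℓ : ℝ) ^ 2 + |q₁|) * η * L ≤ ε / 4 * L := by
    have h1 : (r + |q₂|) * θ ≤ θ * M := by
      rw [mul_comm]
      refine mul_le_mul_of_nonneg_left ?_ hθ0.le
      rw [hM]
      have : (0 : ℝ) ≤ ℓ := Nat.cast_nonneg _
      nlinarith
    have h2 : (ℓ + (ℓ : ℝ) ^ 2 + |q₁|) * η ≤ η * M := by
      rw [mul_comm]
      refine mul_le_mul_of_nonneg_left ?_ hη0.le
      rw [hM]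
      linarith
    have h3 : (r + |q₂|) * θ + (ℓ + (ℓ : ℝ) ^ 2 + |q₁|) * η ≤ ε / 4 := by linarith
    have := mul_le_mul_of_nonneg_right h3 hlog0
    linarith
  have e8 : ε / 2 * L ≤ ε * ((1 - η) * L) := by
    have : ε / 2 ≤ ε * (1 - η) := by nlinarith
    have := mul_le_mul_of_nonneg_right this hlog0
    linarith
  linarith

end Pool.Agent.Helper19K9.Tf
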