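import Pool.Agent.Helper19K9.Tf.Fsq

/-!
The radical of the value in every fibre, without loss if the values are at most the fourth power.
-/

set_option autoImplicit false
set_option linter.all false
set_option maxHeartbeats 4000000

namespace Pool.Agent.Helper19K9.Tf

open MvPolynomial Pool.Agent.TH910.Voj Pool.Agent.Helper19K9.Sq Pool.Agent.H813R3.Voj
  Pool.Agent.Helper19K9.Fb

lemma arith_core' {n : ℕ} (hn0 : n ≠ 0) (V : ℤ) {L U : ℝ} (hL : 1 ≤ L)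
    (hLU : L ^ 2 ≤ U)
    (hw : ∀ w : ℕ, w ∣ n → (∀ p : ℕ, p.Prime → p ∣ w → (p : ℤ) ∣ V) → (w : ℝ) ≤ L)
    (hno : ∀ s : ℕ, Pw s → s ∣ n → IsCoprime (s : ℤ) V → (s : ℝ) < L ∨ U < s)
    (hnU : (n : ℝ) ^ 2 < U ^ 3) : (n : ℝ) ≤ L * (L * (rd n : ℝ)) ∨
      ∃ v t : ℕ, v ≠ 0 ∧ n = v * t ^ 2 ∧ (v : ℝ) * U ≤ L * L * n := by
  classical
  set w := ∏ p ∈ n.primeFactors.filter (fun p : ℕ => (p : ℤ) ∣ V),
    p ^ n.factorization p with hwd
  set n' := ∏ p ∈ n.primeFactors.filter (fun p : ℕ => ¬ (p : ℤ) ∣ V),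
    p ^ n.factorization p with hn'
  have hwn : w * n' = n := by
    rw [hwd, hn', Finset.prod_filter_mul_prod_filter_not]
    exact Nat.prod_factorization_pow_eq_self hn0
  have hw0 : w ≠ 0 := by rintro h; rw [h, zero_mul] at hwn; exact hn0 hwn.symm
  have hn'0 : n' ≠ 0 := by rintro h; rw [h, mul_zero] at hwn; exact hn0 hwn.symm
  have hpw : ∀ p : ℕ, p.Prime → p ∣ w → (p : ℤ) ∣ V := by
    intro p hp hpd
    rw [hwd, hp.prime.dvd_finsetProd_iff] at hpd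
    obtain ⟨q, hq, hpq⟩ := hpd
    rw [Finset.mem_filter] at hq
    rw [(Nat.prime_dvd_prime_iff_eq hp (Nat.prime_of_mem_primeFactors hq.1)).1
      (hp.dvd_of_dvd_pow hpq)]
    exact hq.2
  have hpn' : ∀ p : ℕ, p.Prime → p ∣ n' → ¬ (p : ℤ) ∣ V := by
    intro p hp hpd
    rw [hn', hp.prime.dvd_finsetProd_iff] at hpd
    obtain ⟨q, hq, hpq⟩ := hpd
    rw [Finset.mem_filter] at hq
    rw [(Nat.prime_dvd_prime_iff_eq hp (Nat.prime_of_mem_primeFactors hq.1)).1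
      (hp.dvd_of_dvd_pow hpq)]
    exact hq.2
  have hn'n : n' ∣ n := ⟨w, by rw [← hwn, mul_comm]⟩
  have hwB : (w : ℝ) ≤ L := hw w ⟨n', hwn.symm⟩ hpw
  have hrd : rd n' ≤ rd n := rd_le_of_dvd hn0 (fun p _ hp => hp.trans hn'n) hn'0
  have hn'le : (n' : ℝ) ≤ n := by exact_mod_cast Nat.le_of_dvd (Nat.pos_of_ne_zero hn0) hn'n
  have hkey := rad_or_sq (n := n') hn'0 hL hLU (by
    intro s hs hsn
    refine hno s hs (hsn.trans hn'n) ?_
    rw [Int.isCoprime_iff_gcd_eq_one]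
    by_contra hne
    obtain ⟨p, hp, hpd⟩ := Nat.exists_prime_and_dvd hne
    have e1 : (p : ℤ) ∣ s := (Int.natCast_dvd_natCast.2 hpd).trans (Int.gcd_dvd_left _ _)
    have e2 : (p : ℤ) ∣ V := (Int.natCast_dvd_natCast.2 hpd).trans (Int.gcd_dvd_right _ _)
    exact hpn' p hp ((Int.natCast_dvd_natCast.1 e1).trans hsn) e2)
    (lt_of_le_of_lt (pow_le_pow_left₀ (Nat.cast_nonneg _) hn'le _) hnU)
  have hnwn : (n : ℝ) = w * n' := by rw [← hwn, Nat.cast_mul]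
  rcases hkey with hkey | ⟨v, t, hv0, hvt, hvU⟩
  · left
    rw [hnwn]
    refine mul_le_mul hwB (hkey.trans ?_) (Nat.cast_nonneg _) (by linarith)
    refine mul_le_mul_of_nonneg_left ?_ (by linarith)
    exact_mod_cast hrd
  · right
    refine ⟨w * v, t, mul_ne_zero hw0 hv0, ?_, ?_⟩
    · rw [← hwn, hvt]; ring
    · push_cast
      have h1 : (w : ℝ) * v * U ≤ w * (L * n') := by
        rw [mul_assoc]
        exact mul_le_mul_of_nonneg_left hvU (Nat.cast_nonneg _)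
      have h2 : (w : ℝ) * (L * n') = L * n := by rw [hnwn]; ring
      have h3 : L * (n : ℝ) ≤ L * L * n := by
        have : (0 : ℝ) ≤ n := Nat.cast_nonneg _
        have h4 : 1 * (L * (n : ℝ)) ≤ L * (L * n) := mul_le_mul_of_nonneg_right hL (by positivity)
        linarith
      linarith

theorem FS_rad4 {F : MvPolynomial (Fin 4) ℤ} {a b : ℕ} (h : Bi F (a + 1) b) (ha4 : a + 1 ≤ 4)
    (hirr : Irreducible (toQ F)) (h0 : pderiv 0 F ≠ 0) :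
    ∃ R : ℤ × ℤ → ℤ, IsRes R ∧ ∀ (Λ : ℝ), 0 ≤ Λ →
      ((a : ℝ) + 1 + Λ * b ≤ 4) → ∀ ε : ℝ, 0 < ε →
      FS (fun y => IsCoprime y.1 y.2 ∧ R y ≠ 0) Λ (fun B y x =>
        (rd (val F x y).natAbs : ℝ) < (ht y : ℝ) ^ b * (B : ℝ) ^ ((a : ℝ) + 1 - ε)) := by
  classical
  have hnd : ¬ toQ F ∣ toQ (X 1 * pderiv 0 F) := by
    refine not_dvd_aux (d := a + b) ?_ hirr h0
    rw [show a + b + 1 = a + 1 + b by omega]
    exact h.hom
  obtain ⟨R₁, hR₁, hRp⟩ := prime_elim h (bi_G h) hirr h0 hnd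
  obtain ⟨R₂, hR₂, hsq⟩ := FS_sq h ha4 hirr h0
  refine ⟨fun y => R₁ y * R₂ y, isRes_mul hR₁ hR₂, fun Λ hΛ hσ ε hε => ?_⟩
  have hR1 : ∀ y : ℤ × ℤ, (IsCoprime y.1 y.2 ∧ R₁ y * R₂ y ≠ 0) → (IsCoprime y.1 y.2 ∧ R₁ y ≠ 0) :=
    fun y hy => ⟨hy.1, left_ne_zero_of_mul hy.2⟩
  have hR2 : ∀ y : ℤ × ℤ, (IsCoprime y.1 y.2 ∧ R₁ y * R₂ y ≠ 0) → (IsCoprime y.1 y.2 ∧ R₂ y ≠ 0) :=
    fun y hy => ⟨hy.1, right_ne_zero_of_mul hy.2⟩
  set c : ℝ := min (ε / 3) (1 / 64) with hc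
  have hc0 : 0 < c := by rw [hc]; positivity
  have hcε : 3 * c ≤ ε := by
    have := min_le_left (ε / 3) (1 / 64)
    rw [← hc] at this
    linarith
  have hc64 : c ≤ 1 / 64 := min_le_right _ _
  have hc1 : c ≤ 1 := by linarith
  obtain ⟨cF, hcF1, hcF⟩ := val_le h
  have s1 := (FS_small h (by omega) hirr h0 Λ hc0 (by push_cast; linarith [Nat.cast_nonneg (α := ℝ) a])).anti
    (Y' := fun y => IsCoprime y.1 y.2 ∧ R₁ y * R₂ y ≠ 0) (fun y hy => hy.1) le_rfl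
  have s2 := (FS_part h hirr h0 R₁ hR₁ Λ hΛ hc0 hc1).anti
    (Y' := fun y => IsCoprime y.1 y.2 ∧ R₁ y * R₂ y ≠ 0) (fun y hy => hR1 y hy) le_rfl
  have s4 := (hsq Λ hΛ).anti
    (Y' := fun y => IsCoprime y.1 y.2 ∧ R₁ y * R₂ y ≠ 0) (fun y hy => hR2 y hy) le_rfl
  have s3 := (FS_pw h Λ hc0 (by linarith)).anti
    (Y' := fun y => IsCoprime y.1 y.2 ∧ R₁ y * R₂ y ≠ 0) (fun y hy => hy.1) le_rfl
  refine (((s1.or s2).or s3).or s4).of_eventually (⌈(cF : ℝ) ^ (1 / c)⌉₊ + 2) ?_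
  rintro B y x hB₀ hB ⟨hyc, hyR⟩ hyB hx hco hrad
  by_contra hcon
  push Not at hcon
  obtain ⟨⟨⟨h1, h2⟩, h3⟩, h5⟩ := hcon
  have hB1 : (1 : ℝ) ≤ B := by exact_mod_cast hB
  have hB0 : (0 : ℝ) < B := by linarith
  have hty : (1 : ℝ) ≤ ht y := by exact_mod_cast ht_pos hyc
  set n := (val F x y).natAbs with hn
  have hpos : (0 : ℝ) < (ht y : ℝ) ^ b * (B : ℝ) ^ (((a + 1 : ℕ) : ℝ) - c) := by positivity
  have hn0 : n ≠ 0 := by
    intro h0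
    rw [h0, Nat.cast_zero] at h1
    linarith
  have hF0 : val F x y ≠ 0 := by rwa [hn, Ne, Int.natAbs_eq_zero] at hn0
  have hnF : ∀ s : ℕ, s ∣ n → (s : ℤ) ∣ val F x y := fun s hs =>
    (Int.natCast_dvd_natCast.2 hs).trans (by rw [hn]; exact Int.natAbs_dvd.2 dvd_rfl)
  have hnub : (n : ℝ) ≤ cF * (B : ℝ) ^ ((a : ℝ) + 1 + Λ * b) := by
    have e1 : (n : ℝ) ≤ cF * (ht x : ℝ) ^ (a + 1) * (ht y : ℝ) ^ b := by exact_mod_cast hcF x y
    refine e1.trans ?_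
    rw [mul_assoc]
    refine mul_le_mul_of_nonneg_left ?_ (Nat.cast_nonneg _)
    rw [Real.rpow_add hB0, Real.rpow_mul hB0.le, Real.rpow_natCast]
    have e2 : (B : ℝ) ^ ((a : ℝ) + 1) = (B : ℝ) ^ (a + 1) := by
      rw [← Real.rpow_natCast]; push_cast; rfl
    rw [e2]
    refine mul_le_mul (pow_le_pow_left₀ (Nat.cast_nonneg _) (by exact_mod_cast hx) _)
      (pow_le_pow_left₀ (by positivity) hyB _) (by positivity) (by positivity)
  have hcFB : (cF : ℝ) ≤ (B : ℝ) ^ c := by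
    have e1 : (cF : ℝ) ^ (1 / c) ≤ B := by
      refine (Nat.le_ceil _).trans ?_
      exact_mod_cast (show ⌈(cF : ℝ) ^ (1 / c)⌉₊ ≤ B by omega)
    calc (cF : ℝ) = ((cF : ℝ) ^ (1 / c)) ^ c := by
          rw [← Real.rpow_mul (Nat.cast_nonneg _), one_div, inv_mul_cancel₀ hc0.ne', Real.rpow_one]
      _ ≤ (B : ℝ) ^ c := Real.rpow_le_rpow (by positivity) e1 hc0.le
  have hB1' : (1 : ℝ) < B := by exact_mod_cast (by omega : 1 < B)
  have hn4 : (n : ℝ) ≤ (B : ℝ) ^ (4 + c) := by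
    refine hnub.trans ?_
    calc (cF : ℝ) * (B : ℝ) ^ ((a : ℝ) + 1 + Λ * b) ≤ (B : ℝ) ^ c * (B : ℝ) ^ (4 : ℝ) :=
          mul_le_mul hcFB (Real.rpow_le_rpow_of_exponent_le hB1 hσ) (by positivity) (by positivity)
      _ = _ := by
          rw [← Real.rpow_add hB0]
          congr 1
          ring
  rcases arith_core' (n := n) hn0 (val (X 1 * pderiv 0 F) x y)
    (L := (B : ℝ) ^ c) (U := (B : ℝ) ^ (4 - c))
    (Real.one_le_rpow hB1 hc0.le) (by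
      rw [← Real.rpow_natCast, ← Real.rpow_mul hB0.le]
      refine Real.rpow_le_rpow_of_exponent_le hB1 ?_
      push_cast
      linarith) (by
      intro w hwn hwp
      by_contra hlt
      push Not at hlt
      refine absurd hlt (not_lt.2 (h2 hF0 w (hnF w hwn) ?_))
      intro p hp hpw
      exact hRp p hp x y hco hyc ((Int.natCast_dvd_natCast.2 hpw).trans (hnF w hwn)) (hwp p hp hpw))
    (by
      intro s hs hsn hcop
      by_contra hcon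
      push Not at hcon
      rw [val_G] at hcop
      exact h3 s hs hcon.1 hcon.2 (hnF s hsn) hcop) (by
      refine lt_of_le_of_lt (pow_le_pow_left₀ (Nat.cast_nonneg _) hn4 2) ?_
      rw [← Real.rpow_natCast ((B : ℝ) ^ (4 + c)), ← Real.rpow_natCast ((B : ℝ) ^ (4 - c)),
        ← Real.rpow_mul hB0.le, ← Real.rpow_mul hB0.le]
      refine Real.rpow_lt_rpow_of_exponent_lt hB1' ?_
      push_cast
      linarith) with hkey | ⟨v, t, hv0, hvt, hvU⟩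
  · -- large radical
    have e2 : (ht y : ℝ) ^ b * (B : ℝ) ^ (((a + 1 : ℕ) : ℝ) - c) <
        (B : ℝ) ^ c * ((B : ℝ) ^ c * (rd n : ℝ)) := lt_of_lt_of_le h1 hkey
    have e5 : (B : ℝ) ^ c * ((B : ℝ) ^ c * (rd n : ℝ)) ≤
        (ht y : ℝ) ^ b * (B : ℝ) ^ (((a + 1 : ℕ) : ℝ) - c) := by
      calc (B : ℝ) ^ c * ((B : ℝ) ^ c * (rd n : ℝ)) ≤
            (B : ℝ) ^ c * ((B : ℝ) ^ c * ((ht y : ℝ) ^ b * (B : ℝ) ^ ((a : ℝ) + 1 - ε))) :=
            mul_le_mul_of_nonneg_left (mul_le_mul_of_nonneg_left hrad.le (by positivity))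
              (by positivity)
        _ = (ht y : ℝ) ^ b * ((B : ℝ) ^ c * (B : ℝ) ^ c * (B : ℝ) ^ ((a : ℝ) + 1 - ε)) := by ring
        _ ≤ _ := by
            refine mul_le_mul_of_nonneg_left ?_ (by positivity)
            rw [← Real.rpow_add hB0, ← Real.rpow_add hB0]
            refine Real.rpow_le_rpow_of_exponent_le hB1 ?_
            push_cast
            linarith
    linarith
  · -- a small multiple of a square
    have hU0 : (0 : ℝ) < (B : ℝ) ^ (4 - c) := by positivity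
    have e1 : (v : ℝ) ≤ (B : ℝ) ^ (4 * c) := by
      have e2 : (v : ℝ) * (B : ℝ) ^ (4 - c) ≤ (B : ℝ) ^ (4 * c) * (B : ℝ) ^ (4 - c) := by
        refine hvU.trans ?_
        calc (B : ℝ) ^ c * (B : ℝ) ^ c * (n : ℝ) ≤ (B : ℝ) ^ c * (B : ℝ) ^ c * (B : ℝ) ^ (4 + c) :=
              mul_le_mul_of_nonneg_left hn4 (by positivity)
          _ = _ := by
              rw [← Real.rpow_add hB0, ← Real.rpow_add hB0, ← Real.rpow_add hB0]
              congr 1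
              ring
      exact le_of_mul_le_mul_right e2 hU0
    have e2 : (v : ℝ) ≤ (B : ℝ) ^ (1 / 16 : ℝ) :=
      e1.trans (Real.rpow_le_rpow_of_exponent_le hB1 (by linarith))
    have hv0' : ((v : ℕ) : ℤ) ≠ 0 := by exact_mod_cast hv0
    have e3 : ((val F x y).natAbs : ℤ) = (v : ℤ) * (t : ℤ) ^ 2 := by
      rw [← hn, hvt]
      push_cast
      ring
    rcases Int.natAbs_eq (val F x y) with e4 | e4
    · refine h5 (v : ℤ) t hv0' ?_ ?_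
      · rw [Int.cast_natCast, Nat.abs_cast]
        exact e2
      · rw [e4, e3]
    · refine h5 (-(v : ℤ)) t (neg_ne_zero.2 hv0') ?_ ?_
      · rw [Int.cast_neg, abs_neg, Int.cast_natCast, Nat.abs_cast]
        exact e2
      · rw [e4, e3]
        ring

/-- both bounds -/
theorem fs_rad4 {F : MvPolynomial (Fin 4) ℤ} {a b : ℕ} (h : Bi F a b) (ha : 1 ≤ a)
    (hirr : Irreducible (toQ F)) :
    ∃ R : ℤ × ℤ → ℤ, IsRes R ∧ (∀ (Λ : ℝ), 0 ≤ Λ → ∀ (m : ℕ), 1 ≤ m →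
      ((a : ℝ) + Λ * b < 2 * (m + 1)) → ∀ ε : ℝ, 0 < ε →
      FS (fun y => IsCoprime y.1 y.2 ∧ R y ≠ 0) Λ (fun B y x =>
        (rd (val F x y).natAbs : ℝ) ^ m < (ht y : ℝ) ^ b * (B : ℝ) ^ ((a : ℝ) - ε))) ∧
      (∀ (Λ : ℝ), 0 ≤ Λ → ((a : ℝ) + Λ * b ≤ 4) → ∀ ε : ℝ, 0 < ε →
      FS (fun y => IsCoprime y.1 y.2 ∧ R y ≠ 0) Λ (fun B y x =>
        (rd (val F x y).natAbs : ℝ) < (ht y : ℝ) ^ b * (B : ℝ) ^ ((a : ℝ) - ε))) := by
  obtain ⟨R₁, hR₁, h1⟩ := fs_rad h ha hirr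
  obtain ⟨R₂, hR₂, h2⟩ : ∃ R : ℤ × ℤ → ℤ, IsRes R ∧
      (∀ (Λ : ℝ), 0 ≤ Λ → ((a : ℝ) + Λ * b ≤ 4) → ∀ ε : ℝ, 0 < ε →
      FS (fun y => IsCoprime y.1 y.2 ∧ R y ≠ 0) Λ (fun B y x =>
        (rd (val F x y).natAbs : ℝ) < (ht y : ℝ) ^ b * (B : ℝ) ^ ((a : ℝ) - ε))) := by
    by_cases ha4 : a ≤ 4
    · obtain ⟨a, rfl⟩ : ∃ a', a = a' + 1 := ⟨a - 1, by omega⟩
      push_cast
      rcases exists_pderiv h ha hirr with h0 | h0
      · exact FS_rad4 h ha4 hirr h0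
      · obtain ⟨R, hR, hR2⟩ := FS_rad4 (sx_bi h) ha4 (sx_irr hirr) (sx_pderiv h0)
        refine ⟨R, hR, fun Λ hΛ hσ ε hε => ?_⟩
        refine (hR2 Λ hΛ hσ ε hε).swap.mono ?_
        intro B y x _ _ _ _ _ h1
        show (rd (val (sx F) (x.2, x.1) y).natAbs : ℝ) < _
        rw [sx_val]
        exact h1
    · refine ⟨fun _ => 1, ⟨by simp, 1, 0, fun y _ => by simp⟩, fun Λ hΛ hσ => ?_⟩
      exfalso
      have h5 : (5 : ℝ) ≤ a := by exact_mod_cast (by omega : 5 ≤ a)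
      have : 0 ≤ Λ * b := mul_nonneg hΛ (Nat.cast_nonneg _)
      linarith
  refine ⟨fun y => R₁ y * R₂ y, isRes_mul hR₁ hR₂, fun Λ hΛ m hm1 hm ε hε => ?_,
    fun Λ hΛ hσ ε hε => ?_⟩
  · exact (h1 Λ hΛ m hm1 hm ε hε).anti (fun y hy => ⟨hy.1, left_ne_zero_of_mul hy.2⟩) le_rfl
  · exact (h2 Λ hΛ hσ ε hε).anti (fun y hy => ⟨hy.1, right_ne_zero_of_mul hy.2⟩) le_rfl

end Pool.Agent.Helper19K9.Tf
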