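import Pool.Agent.Helper19K9.Sq.Pw

/-!
Numbers without powerful divisors of medium size: large radical, or a small multiple of a square.
-/

set_option autoImplicit false
set_option linter.all false
set_option maxHeartbeats 4000000

namespace Pool.Agent.Helper19K9.Tf

open Pool.Agent.TH910.Voj Pool.Agent.H813R3.Voj Pool.Agent.Helper19K9.Sq

lemma sqf_dvd {s t w : ℕ} (hs : Pw s) (h : s = t ^ 2 * w) (hw : Squarefree w) (ht : t ≠ 0) :
    w ∣ t := by
  have h1 : ∀ p ∈ w.primeFactors, p ∈ t.primeFactors := by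
    intro p hp
    have hp' := Nat.mem_primeFactors.1 hp
    have hps : p ∣ s := by rw [h]; exact Dvd.dvd.mul_left hp'.2.1 _
    have h2 := hs.2 p hp'.1 hps
    rw [Nat.mem_primeFactors]
    refine ⟨hp'.1, ?_, ht⟩
    by_contra hpt
    have h3 : Nat.Coprime (p ^ 2) (t ^ 2) :=
      Nat.Coprime.pow _ _ ((Nat.Prime.coprime_iff_not_dvd hp'.1).2 hpt)
    rw [h] at h2
    have h4 : p ^ 2 ∣ w := h3.dvd_of_dvd_mul_left h2
    rw [pow_two] at h4
    have h5 := hw p h4
    exact hp'.1.one_lt.ne' (Nat.isUnit_iff.1 h5)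
  have h2 : w = ∏ p ∈ w.primeFactors, p := (Nat.prod_primeFactors_of_squarefree hw).symm
  rw [h2]
  exact (Finset.prod_dvd_prod_of_subset _ _ _ h1).trans (Nat.prod_primeFactors_dvd t)

theorem rad_or_sq {n : ℕ} (hn : n ≠ 0) {L U : ℝ} (hL : 1 ≤ L) (hLU : L ^ 2 ≤ U)
    (hno : ∀ s : ℕ, Pw s → s ∣ n → (s : ℝ) < L ∨ U < s) (hnU : (n : ℝ) ^ 2 < U ^ 3) :
    (n : ℝ) ≤ L * (rd n : ℝ) ∨ ∃ v t : ℕ, v ≠ 0 ∧ n = v * t ^ 2 ∧ (v : ℝ) * U ≤ L * n := by
  by_cases hbig : ∃ s : ℕ, Pw s ∧ s ∣ n ∧ U < s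
  · right
    obtain ⟨s, hs, hsn, hUs⟩ := hbig
    obtain ⟨w, t, htw, hw⟩ := Nat.sq_mul_squarefree s
    have ht : t ≠ 0 := by
      rintro rfl
      apply hs.1
      rw [← htw]
      simp
    have hwt := sqf_dvd hs htw.symm hw ht
    have hw0 : w ≠ 0 := hw.ne_zero
    have hU0 : 0 < U := by nlinarith
    have hwt' : w ≤ t := Nat.le_of_dvd (Nat.pos_of_ne_zero ht) hwt
    have hsle : s ≤ n := Nat.le_of_dvd (Nat.pos_of_ne_zero hn) hsn
    have hPw : Pw (w ^ 2) := by
      refine ⟨pow_ne_zero _ hw0, fun p hp hpd => ?_⟩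
      exact pow_dvd_pow_of_dvd (hp.dvd_of_dvd_pow hpd) 2
    have hwn : w ^ 2 ∣ n := by
      refine (pow_dvd_pow_of_dvd hwt 2).trans ?_
      refine dvd_trans ?_ hsn
      rw [← htw]
      exact Dvd.intro _ rfl
    have hwL : (w : ℝ) ≤ L := by
      rcases hno _ hPw hwn with h1 | h1
      · have h2 : (1 : ℝ) ≤ w := by exact_mod_cast Nat.pos_of_ne_zero hw0
        push_cast at h1
        nlinarith
      · exfalso
        have h2 : w ^ 3 ≤ n := by
          refine le_trans ?_ hsle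
          rw [← htw, pow_succ]
          exact Nat.mul_le_mul (Nat.pow_le_pow_left hwt' 2) le_rfl
        have h3 : ((w : ℝ) ^ 3) ≤ n := by exact_mod_cast h2
        have h4 : ((w : ℝ) ^ 3) ^ 2 ≤ (n : ℝ) ^ 2 := pow_le_pow_left₀ (by positivity) h3 2
        have h5 : U ^ 3 ≤ ((w : ℝ) ^ 2) ^ 3 := by
          push_cast at h1
          exact pow_le_pow_left₀ hU0.le h1.le 3
        have h6 : ((w : ℝ) ^ 2) ^ 3 = ((w : ℝ) ^ 3) ^ 2 := by ring
        linarith
    obtain ⟨r, hr⟩ := hsn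
    have hr0 : r ≠ 0 := by
      rintro rfl
      rw [mul_zero] at hr
      exact hn hr
    refine ⟨w * r, t, mul_ne_zero hw0 hr0, ?_, ?_⟩
    · rw [hr, ← htw]; ring
    · have h1 : (n : ℝ) = s * r := by rw [hr]; push_cast; ring
      rw [h1]
      push_cast
      have h2 : (0 : ℝ) ≤ r := Nat.cast_nonneg _
      have h3 : (w : ℝ) * U ≤ L * s := mul_le_mul hwL hUs.le hU0.le (by linarith)
      nlinarith
  · left
    push Not at hbig
    have h1 := rad_of_no_pw (n := n) (m := 1) hn le_rfl (L := L) (U := max (L ^ 2) ((n : ℝ) + 1)) hL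
      (le_max_left _ _) (fun s hs hsn => by
        rcases hno s hs hsn with h1 | h1
        · exact Or.inl h1
        · exact absurd (hbig s hs hsn) (not_le.2 h1)) (by
        have h2 : (n : ℝ) + 1 ≤ max (L ^ 2) ((n : ℝ) + 1) := le_max_right _ _
        have h3 : (0 : ℝ) ≤ n := Nat.cast_nonneg _
        norm_num
        nlinarith)
    rwa [pow_one] at h1

end Pool.Agent.Helper19K9.Tf
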