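import Pool.Agent.Helper19K9.Tf.Sn
import Pool.Agent.Helper19K9.Tf.Ros
import Pool.Agent.Helper19K9.Fb.Gcd

/-!
In every fibre: the points at which the value is a small multiple of a square are rare.
-/

set_option autoImplicit false
set_option linter.all false
set_option maxHeartbeats 4000000

namespace Pool.Agent.Helper19K9.Tf

open MvPolynomial Pool.Agent.TH910.Voj Pool.Agent.H813R3.Voj Pool.Agent.Helper19K9.Sq
  Pool.Agent.Helper19K9.Fb

lemma isRes_mul {R R' : ℤ × ℤ → ℤ} (h : IsRes R) (h' : IsRes R') : IsRes fun y => R y * R' y := by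
  obtain ⟨h1, C, K, h2⟩ := h
  obtain ⟨h1', C', K', h2'⟩ := h'
  refine ⟨(h1.union h1').subset ?_, C * C', K + K', fun y hy => ?_⟩
  · rintro y ⟨e1, e2⟩
    rcases mul_eq_zero.1 e2 with e3 | e3
    · exact Or.inl ⟨e1, e3⟩
    · exact Or.inr ⟨e1, e3⟩
  · rw [Int.natAbs_mul]
    calc (R y).natAbs * (R' y).natAbs ≤ (C * ht y ^ K) * (C' * ht y ^ K') :=
          Nat.mul_le_mul (h2 y hy) (h2' y hy)
      _ = _ := by rw [pow_add]; ring

lemma isRes_fst : IsRes fun y => y.1 := by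
  refine ⟨finite_fst, 1, 1, fun y _ => ?_⟩
  rw [one_mul, pow_one]
  exact le_max_left _ _

lemma lead_eq {F : MvPolynomial (Fin 4) ℤ} {a b : ℕ} (hF : Bi F a b) (y : ℤ × ℤ) :
    (fy F y.1 y.2).coeff a = val F (1, 0) y := by
  rw [val_form hF]
  unfold bf
  rw [Finset.sum_eq_single a]
  · simp
  · intro i hi hne
    rw [Finset.mem_range] at hi
    have : a - i ≠ 0 := by omega
    simp [this]
  · intro h
    exact absurd (Finset.mem_range.2 (Nat.lt_succ_self a)) h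

lemma no_common {F : MvPolynomial (Fin 4) ℤ} {a b : ℕ} (hF : Bi F (a + 1) b) {ρ : Polynomial ℤ}
    (hρ : ∀ (k : Type) [Field k] (x t : k),
      aeval ![x, 1, 1, t] F = 0 → aeval ![x, 1, 1, t] (pderiv 0 F) = 0 → Polynomial.aeval t ρ = 0)
    {l : ℕ} [Fact l.Prime] {k : Type} [Field k] [Algebra (ZMod l) k] [CharP k l] {y : ℤ × ℤ}
    (hl1 : ¬ (l : ℤ) ∣ y.1) {x : k}
    (hx1 : Polynomial.aeval x ((fy F y.1 y.2).map (Int.castRingHom (ZMod l))) = 0)
    (hx2 : Polynomial.aeval x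
      (Polynomial.derivative ((fy F y.1 y.2).map (Int.castRingHom (ZMod l)))) = 0) :
    (l : ℤ) ∣ hz ρ y := by
  have hy1 : ((y.1 : ℤ) : k) ≠ 0 := by
    intro h
    exact hl1 ((CharP.intCast_eq_zero_iff k l _).1 h)
  have hev : ∀ G : MvPolynomial (Fin 4) ℤ,
      Polynomial.aeval x ((fy G y.1 y.2).map (Int.castRingHom (ZMod l))) =
      aeval ![x, 1, ((y.1 : ℤ) : k), ((y.2 : ℤ) : k)] G := by
    intro G
    rw [Polynomial.aeval_def, Polynomial.eval₂_map]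
    have h1 : (algebraMap (ZMod l) k).comp (Int.castRingHom (ZMod l)) = Int.castRingHom k :=
      RingHom.ext_int _ _
    rw [h1]
    unfold fy
    have h2 : ((Polynomial.aeval x : Polynomial ℤ →ₐ[ℤ] k).comp
        (aeval (![Polynomial.X, 1, Polynomial.C y.1, Polynomial.C y.2] :
          Fin 4 → Polynomial ℤ))) = aeval ![x, 1, ((y.1 : ℤ) : k), ((y.2 : ℤ) : k)] := by
      refine MvPolynomial.algHom_ext fun i => ?_
      fin_cases i <;> simp
    have h3 := DFunLike.congr_fun h2 G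
    rw [← h3]
    rfl
  rw [hev] at hx1
  rw [Polynomial.derivative_map, fy_der, hev] at hx2
  have hsc : ∀ (G : MvPolynomial (Fin 4) ℤ) (c d : ℕ), Bi G c d →
      aeval ![x, 1, ((y.1 : ℤ) : k), ((y.2 : ℤ) : k)] G = 0 →
      aeval ![x, 1, 1, ((y.2 : ℤ) : k) / ((y.1 : ℤ) : k)] G = 0 := by
    intro G c d hG h1
    have h2 := scale4 hG (1 : k) ((y.1 : ℤ) : k) x 1 1 (((y.2 : ℤ) : k) / ((y.1 : ℤ) : k))
    rw [mul_div_cancel₀ _ hy1, one_mul, mul_one, mul_one, h1] at h2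
    rcases mul_eq_zero.1 h2.symm with h3 | h3
    · rcases mul_eq_zero.1 h3 with h4 | h4
      · simp at h4
      · exact absurd h4 (pow_ne_zero _ hy1)
    · exact h3
  have h1 := hρ k x (((y.2 : ℤ) : k) / ((y.1 : ℤ) : k)) (hsc F _ _ hF hx1)
    (hsc (pderiv 0 F) _ _ hF.pderiv hx2)
  have h2 := hz_cast (k := k) ρ y hy1
  rw [h1, zero_mul] at h2
  exact (CharP.intCast_eq_zero_iff k l _).1 h2

/-- the polynomial `F(X, 1, y)` is squarefree modulo almost all primes -/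
theorem sqf_elim {F : MvPolynomial (Fin 4) ℤ} {a b : ℕ} (hF : Bi F (a + 1) b)
    (hirr : Irreducible (toQ F)) (h0 : pderiv 0 F ≠ 0) :
    ∃ R : ℤ × ℤ → ℤ, IsRes R ∧ ∀ l : ℕ, l.Prime → ∀ y : ℤ × ℤ, IsCoprime y.1 y.2 →
      ¬ (l : ℤ) ∣ R y → Squarefree ((fy F y.1 y.2).map (Int.castRingHom (ZMod l))) ∧
        ((fy F y.1 y.2).map (Int.castRingHom (ZMod l))).natDegree = a + 1 := by
  have hnd : ¬ toQ F ∣ toQ (pderiv 0 F) := by
    have h1 : ¬ toQ F ∣ toQ (X 1 * pderiv 0 F) := by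
      refine not_dvd_aux (d := a + b) ?_ hirr h0
      rw [show a + b + 1 = a + 1 + b by omega]
      exact hF.hom
    intro h
    apply h1
    have h2 : toQ (X 1 * pderiv 0 F) = toQ (X 1) * toQ (pderiv 0 F) := map_mul _ _ _
    rw [h2]
    exact Dvd.dvd.mul_left h _
  obtain ⟨ρ, hρ0, hρ⟩ := chart_elim hF hF.pderiv hirr h0 hnd
  have hlead : IsRes fun y => val F (1, 0) y := by
    obtain ⟨C, K, h⟩ := val_bound F
    exact ⟨finite_lead hF hirr h0, C, K, fun y hy => h (1, 0) y hy (by unfold ht; decide)⟩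
  refine ⟨fun y => y.1 * hz ρ y * val F (1, 0) y,
    isRes_mul (isRes_mul isRes_fst ⟨finite_hz ρ hρ0, hz_bound ρ⟩) hlead, ?_⟩
  intro l hl y hy hly
  haveI : Fact l.Prime := ⟨hl⟩
  have hl1 : ¬ (l : ℤ) ∣ y.1 := fun h => hly (Dvd.dvd.mul_right (Dvd.dvd.mul_right h _) _)
  have hl2 : ¬ (l : ℤ) ∣ hz ρ y := fun h => hly (Dvd.dvd.mul_right (Dvd.dvd.mul_left h _) _)
  have hl3 : ¬ (l : ℤ) ∣ val F (1, 0) y := fun h => hly (Dvd.dvd.mul_left h _)
  constructor
  · -- squarefree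
    have hsep : ((fy F y.1 y.2).map (Int.castRingHom (ZMod l))).Separable := by
      unfold Polynomial.Separable
      rw [Polynomial.isCoprime_iff_aeval_ne_zero_of_isAlgClosed (ZMod l) (AlgebraicClosure (ZMod l))]
      intro x
      by_contra hcon
      push Not at hcon
      obtain ⟨hx1, hx2⟩ := hcon
      haveI : CharP (AlgebraicClosure (ZMod l)) l :=
        charP_of_injective_algebraMap (algebraMap (ZMod l) (AlgebraicClosure (ZMod l))).injective l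
      exact hl2 (no_common hF hρ hl1 hx1 hx2)
    exact hsep.squarefree
  · refine le_antisymm ((Polynomial.natDegree_map_le).trans (hF.fy_deg y.1 y.2)) ?_
    refine Polynomial.le_natDegree_of_ne_zero ?_
    rw [Polynomial.coeff_map, lead_eq hF]
    intro h
    apply hl3
    rw [← ZMod.intCast_zmod_eq_zero_iff_dvd]
    exact h

/-- **In every fibre the values which are small multiples of squares are rare.** -/
theorem FS_sq {F : MvPolynomial (Fin 4) ℤ} {a b : ℕ} (hF : Bi F (a + 1) b) (ha : a + 1 ≤ 4)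
    (hirr : Irreducible (toQ F)) (h0 : pderiv 0 F ≠ 0) :
    ∃ R : ℤ × ℤ → ℤ, IsRes R ∧ ∀ Λ : ℝ, 0 ≤ Λ → FS (fun y => IsCoprime y.1 y.2 ∧ R y ≠ 0) Λ
      (fun B y x => ∃ v t : ℤ, v ≠ 0 ∧ |(v : ℝ)| ≤ (B : ℝ) ^ (1 / 16 : ℝ) ∧
        val F x y = v * t ^ 2) := by
  classical
  obtain ⟨R, hR, hRl⟩ := sqf_elim hF hirr h0
  refine ⟨R, hR, fun Λ hΛ => ?_⟩
  obtain ⟨-, CR, KR, hRb⟩ := hR
  obtain ⟨n₁, hn₁⟩ := exists_nat_ge (Λ * KR)
  obtain ⟨C, hC, hq⟩ := deg_count (n := a + 1) (by omega) ha (n₁ + 1)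
  have s1 : FS (fun y => IsCoprime y.1 y.2 ∧ R y ≠ 0) Λ (fun B y x => x.2 = 0) := by
    refine ⟨1, one_pos, 3, by norm_num, fun B hB y _ _ => ?_⟩
    have hB1 : (1 : ℝ) ≤ B := by exact_mod_cast hB
    have h1 : (fset B fun x => x.2 = 0).ncard ≤ 2 * B + 1 := by
      have h2 : (fset B fun x => x.2 = 0) ⊆
          (((Finset.Icc (-(B : ℤ)) B).image fun z : ℤ => (z, (0 : ℤ)) : Finset (ℤ × ℤ)) : Set (ℤ × ℤ)) := by
        rintro x ⟨h1, h2, h3⟩
        rw [Finset.mem_coe, Finset.mem_image]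
        refine ⟨x.1, ?_, ?_⟩
        · rw [Finset.mem_Icc, ← abs_le]
          exact (ht_le.1 h1).1
        · have h3' : x.2 = 0 := h3
          rw [← h3']
      have h3 := Set.ncard_le_ncard h2 (Finset.finite_toSet _)
      rw [Set.ncard_coe_finset] at h3
      refine h3.trans (Finset.card_image_le.trans ?_)
      rw [card_Icc_int]
    calc ((fset B fun x => x.2 = 0).ncard : ℝ) ≤ ((2 * B + 1 : ℕ) : ℝ) := by exact_mod_cast h1
      _ ≤ 3 * (B : ℝ) ^ ((2 : ℝ) - 1) := by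
          rw [show (2 : ℝ) - 1 = 1 by norm_num, Real.rpow_one]
          push_cast
          linarith
  have s2 : FS (fun y => IsCoprime y.1 y.2 ∧ R y ≠ 0) Λ (fun B y x => CR ≤ B ∧ x.2 ≠ 0 ∧
      ∃ v t : ℤ, v ≠ 0 ∧ |(v : ℝ)| ≤ (B : ℝ) ^ (1 / 16 : ℝ) ∧ val F x y = v * t ^ 2) := by
    refine ⟨1 / 16, by norm_num, 9 * C, by positivity, fun B hB y hy hyB => ?_⟩
    obtain ⟨hyc, hyR⟩ := hy
    have hB1 : (1 : ℝ) ≤ B := by exact_mod_cast hB
    have hB0 : (0 : ℝ) < B := by linarith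
    by_cases hCB : CR ≤ B
    swap
    · have : (fset B fun x => CR ≤ B ∧ x.2 ≠ 0 ∧
          ∃ v t : ℤ, v ≠ 0 ∧ |(v : ℝ)| ≤ (B : ℝ) ^ (1 / 16 : ℝ) ∧ val F x y = v * t ^ 2) = ∅ := by
        ext x
        simp only [Set.mem_empty_iff_false, iff_false]
        rintro ⟨-, -, h, -⟩
        exact hCB h
      rw [this, Set.ncard_empty, Nat.cast_zero]
      positivity
    set T := (bx B).filter fun x => CR ≤ B ∧ x.2 ≠ 0 ∧
      ∃ v t : ℤ, v ≠ 0 ∧ |(v : ℝ)| ≤ (B : ℝ) ^ (1 / 16 : ℝ) ∧ val F x y = v * t ^ 2 with hT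
    have hle : ((fset B fun x => CR ≤ B ∧ x.2 ≠ 0 ∧
        ∃ v t : ℤ, v ≠ 0 ∧ |(v : ℝ)| ≤ (B : ℝ) ^ (1 / 16 : ℝ) ∧ val F x y = v * t ^ 2).ncard : ℝ) ≤
        T.card := by
      have h2 : (fset B fun x => CR ≤ B ∧ x.2 ≠ 0 ∧
        ∃ v t : ℤ, v ≠ 0 ∧ |(v : ℝ)| ≤ (B : ℝ) ^ (1 / 16 : ℝ) ∧ val F x y = v * t ^ 2) ⊆
          (T : Set (ℤ × ℤ)) := by
        rintro x ⟨h1, h2, h3⟩
        rw [Finset.mem_coe, hT, Finset.mem_filter, mem_bx]
        exact ⟨h1, h3⟩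
      have h3 := Set.ncard_le_ncard h2 (Finset.finite_toSet _)
      rw [Set.ncard_coe_finset] at h3
      exact_mod_cast h3
    refine hle.trans ?_
    have hex : ∀ x ∈ T, ∃ v : ℤ, v ≠ 0 ∧ |(v : ℝ)| ≤ (B : ℝ) ^ (1 / 16 : ℝ) ∧
        ∃ t : ℤ, val F x y = v * t ^ 2 := by
      intro x hx
      obtain ⟨-, -, -, v, t, e1, e2, e3⟩ := Finset.mem_filter.1 hx
      exact ⟨v, e1, e2, t, e3⟩
    choose! v hv0 hvB hvt using hex
    set W : ℕ := ⌊(B : ℝ) ^ (1 / 16 : ℝ)⌋₊ with hW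
    have hWB : (W : ℝ) ≤ (B : ℝ) ^ (1 / 16 : ℝ) := Nat.floor_le (by positivity)
    set I := Finset.Icc (-(B : ℤ)) B with hI
    set V := Finset.Icc (-(W : ℤ)) W with hV
    let φ : ℤ × ℤ → ℤ × ℤ := fun x => (x.2, v x)
    have hφ : ∀ x ∈ T, φ x ∈ I ×ˢ V := by
      intro x hx
      have hb := ht_le.1 (mem_bx.1 (Finset.mem_filter.1 hx).1)
      have hvx : |v x| ≤ (W : ℤ) := by
        have e1 := hvB x hx
        have e2 : ((v x).natAbs : ℝ) ≤ (B : ℝ) ^ (1 / 16 : ℝ) := by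
          rwa [← Int.cast_abs, Int.abs_eq_natAbs] at e1
        have e3 : (v x).natAbs ≤ W := Nat.le_floor e2
        rw [Int.abs_eq_natAbs]
        exact_mod_cast e3
      simp only [φ, Finset.mem_product, hI, hV, Finset.mem_Icc, ← abs_le]
      exact ⟨hb.2, hvx⟩
    have hcard : T.card = ∑ z ∈ I ×ˢ V, (T.filter fun x => φ x = z).card :=
      Finset.card_eq_sum_card_fiberwise fun x hx => hφ x hx
    have hRB : ((R y).natAbs : ℝ) ≤ (B : ℝ) ^ (n₁ + 1) := by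
      have e1 : ((R y).natAbs : ℝ) ≤ CR * (ht y : ℝ) ^ KR := by exact_mod_cast hRb y hyc
      have e2 : (ht y : ℝ) ^ KR ≤ (B : ℝ) ^ n₁ := by
        calc (ht y : ℝ) ^ KR ≤ ((B : ℝ) ^ Λ) ^ KR := pow_le_pow_left₀ (Nat.cast_nonneg _) hyB _
          _ = (B : ℝ) ^ (Λ * KR) := by rw [← Real.rpow_natCast, ← Real.rpow_mul hB0.le]
          _ ≤ (B : ℝ) ^ (n₁ : ℝ) := Real.rpow_le_rpow_of_exponent_le hB1 hn₁
          _ = (B : ℝ) ^ n₁ := Real.rpow_natCast _ _
      have e3 : (CR : ℝ) ≤ B := by exact_mod_cast hCB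
      calc ((R y).natAbs : ℝ) ≤ CR * (ht y : ℝ) ^ KR := e1
        _ ≤ B * (B : ℝ) ^ n₁ := mul_le_mul e3 e2 (by positivity) hB0.le
        _ = _ := by ring
    have hfib : ∀ z ∈ I ×ˢ V, ((T.filter fun x => φ x = z).card : ℝ) ≤
        C * (B : ℝ) ^ (7 / 8 : ℝ) := by
      intro z _
      rcases (T.filter fun x => φ x = z).eq_empty_or_nonempty with he | ⟨x₀, hx₀⟩
      · rw [he, Finset.card_empty, Nat.cast_zero]
        positivity
      · rw [Finset.mem_filter] at hx₀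
        obtain ⟨hx₀T, hx₀z⟩ := hx₀
        have hinj : (T.filter fun x => φ x = z).card =
            ((T.filter fun x => φ x = z).image fun x => x.1).card := by
          rw [Finset.card_image_of_injOn]
          intro x hx x' hx' hxx
          rw [Finset.mem_coe, Finset.mem_filter] at hx hx'
          have e1 := hx.2.trans hx'.2.symm
          simp only [φ, Prod.mk.injEq] at e1
          exact Prod.ext hxx e1.1
        rw [hinj]
        have e5 : |(v x₀ : ℝ)| ≤ B := by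
          refine (hvB x₀ hx₀T).trans ?_
          calc (B : ℝ) ^ (1 / 16 : ℝ) ≤ (B : ℝ) ^ (1 : ℝ) :=
                Real.rpow_le_rpow_of_exponent_le hB1 (by norm_num)
            _ = B := Real.rpow_one _
        have e6 : |((x₀.2 : ℤ) : ℝ)| ≤ B := by
          have := (ht_le.1 (mem_bx.1 (Finset.mem_filter.1 hx₀T).1)).2
          rw [← Int.cast_abs]
          exact_mod_cast this
        refine hq B hB (fy F y.1 y.2) (R y).natAbs (Int.natAbs_ne_zero.2 hyR) hRB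
          (fun l hl hlR => hRl l hl y hyc (fun h => hlR (Int.natCast_dvd.1 h)))
          x₀.2 (v x₀) (Finset.mem_filter.1 hx₀T).2.2.1 (hv0 x₀ hx₀T) e6 e5 _ ?_
        intro u hu
        rw [Finset.mem_image] at hu
        obtain ⟨x, hx, rfl⟩ := hu
        rw [Finset.mem_filter] at hx
        obtain ⟨hxT, hxz⟩ := hx
        refine ⟨(ht_le.1 (mem_bx.1 (Finset.mem_filter.1 hxT).1)).1, ?_⟩
        have e1 := hxz.trans hx₀z.symm
        simp only [φ, Prod.mk.injEq] at e1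
        obtain ⟨f0, f3⟩ := e1
        obtain ⟨t, ht'⟩ := hvt x hxT
        refine ⟨t, ?_⟩
        rw [← f3, ← ht', val_form hF]
        unfold bf
        rw [← f0]
        exact Finset.sum_congr rfl fun i _ => by ring
    rw [hcard, Nat.cast_sum]
    refine (Finset.sum_le_sum hfib).trans ?_
    rw [Finset.sum_const, nsmul_eq_mul, Finset.card_product, hI, hV, card_Icc_int, card_Icc_int]
    have e1 : ((((2 * B + 1) * (2 * W + 1) : ℕ)) : ℝ) ≤ 3 * (B : ℝ) * (3 * (B : ℝ) ^ (1 / 16 : ℝ)) := by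
      push_cast
      have e2 : (2 * (B : ℝ) + 1) ≤ 3 * B := by linarith
      have e3 : (2 * (W : ℝ) + 1) ≤ 3 * (B : ℝ) ^ (1 / 16 : ℝ) := by
        have := Real.one_le_rpow hB1 (show (0 : ℝ) ≤ 1 / 16 by norm_num)
        linarith
      exact mul_le_mul e2 e3 (by positivity) (by positivity)
    refine (mul_le_mul_of_nonneg_right e1 (by positivity)).trans (le_of_eq ?_)
    have e5 : ((2 : ℝ) - 1 / 16) = 1 + 1 / 16 + 7 / 8 := by norm_num
    rw [e5, Real.rpow_add hB0, Real.rpow_add hB0, Real.rpow_one]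
    ring
  refine (s1.or s2).of_eventually CR ?_
  rintro B y x hCB hB hy hyB hx hco ⟨v, t, e1, e2, e3⟩
  by_cases hz : x.2 = 0
  · exact Or.inl hz
  · exact Or.inr ⟨hCB, hz, v, t, e1, e2, e3⟩

end Pool.Agent.Helper19K9.Tf
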