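import Pool.Agent.Helper19K9.Tf.Dec

/-!
Bihomogeneous forms of bidegree `(4, 0)` and polynomials in one variable.
-/

set_option autoImplicit false
set_option linter.all false
set_option maxHeartbeats 4000000

namespace Pool.Agent.Helper19K9.Tf

open MvPolynomial Pool.Agent.TH910.Voj Pool.Agent.H813R3.Voj Pool.Agent.Helper19K9.Sq

/-- homogenization -/
noncomputable def hom (n : ℕ) (q : Polynomial ℚ) : MvPolynomial (Fin 4) ℚ :=
  ∑ i ∈ Finset.range (n + 1), C (q.coeff i) * (X 0 ^ i * X 1 ^ (n - i))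

lemma hom_eval {n : ℕ} {q : Polynomial ℚ} (hq : q.natDegree ≤ n) {x : Fin 4 → ℚ} (hx : x 1 ≠ 0) :
    eval x (hom n q) = x 1 ^ n * q.eval (x 0 / x 1) := by
  unfold hom
  rw [map_sum, Polynomial.eval_eq_sum_range' (Nat.lt_succ_of_le hq), Finset.mul_sum]
  refine Finset.sum_congr rfl fun i hi => ?_
  rw [Finset.mem_range] at hi
  simp only [map_mul, map_pow, eval_C, eval_X]
  have h1 : x 1 ^ n = x 1 ^ (n - i) * x 1 ^ i := by
    rw [← pow_add]
    congr 1
    omega
  rw [h1, div_pow]
  field_simp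

lemma hom_mul {a b : ℕ} {q r : Polynomial ℚ} (hq : q.natDegree ≤ a) (hr : r.natDegree ≤ b) :
    hom (a + b) (q * r) = hom a q * hom b r := by
  have hX : (X 1 : MvPolynomial (Fin 4) ℚ) ≠ 0 := X_ne_zero 1
  refine mul_left_cancel₀ hX ?_
  refine MvPolynomial.funext fun x => ?_
  rw [map_mul, map_mul, map_mul, eval_X]
  by_cases hx : x 1 = 0
  · rw [hx, zero_mul, zero_mul]
  · rw [hom_eval (Polynomial.natDegree_mul_le.trans (Nat.add_le_add hq hr)) hx, hom_eval hq hx,
      hom_eval hr hx, Polynomial.eval_mul, pow_add]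
    ring

lemma hom_not_unit {n : ℕ} (hn : 1 ≤ n) (q : Polynomial ℚ) : ¬ IsUnit (hom n q) := by
  intro h
  have h1 := h.map (eval (0 : Fin 4 → ℚ))
  have h2 : eval (0 : Fin 4 → ℚ) (hom n q) = 0 := by
    unfold hom
    rw [map_sum]
    refine Finset.sum_eq_zero fun i hi => ?_
    simp only [map_mul, map_pow, eval_C, eval_X, Pi.zero_apply]
    rw [← pow_add, show i + (n - i) = n by rw [Finset.mem_range] at hi; omega,
      zero_pow (by omega), mul_zero]
  rw [h2] at h1
  exact not_isUnit_zero h1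

/-- the exponent of `X₀ ^ i X₁ ^ (4 - i)` -/
noncomputable def mi (i : ℕ) : Fin 4 →₀ ℕ := Finsupp.single 0 i + Finsupp.single 1 (4 - i)

lemma mi_zero (i : ℕ) : mi i 0 = i := by
  unfold mi
  simp

lemma form_four {F : MvPolynomial (Fin 4) ℤ} (h : Bi F 4 0) :
    F = ∑ i ∈ Finset.range 5, C (coeff (mi i) F) * (X 0 ^ i * X 1 ^ (4 - i)) := by
  classical
  have hinj : Function.Injective mi := by
    intro i j hij
    have := congrArg (fun d : Fin 4 →₀ ℕ => d 0) hij
    simpa [mi_zero] using this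
  have hsub : F.support ⊆ (Finset.range 5).image mi := by
    intro d hd
    obtain ⟨e1, e2⟩ := h.exps (mem_support_iff.1 hd)
    rw [Finset.mem_image]
    refine ⟨d 0, Finset.mem_range.2 (by omega), ?_⟩
    ext j
    unfold mi
    fin_cases j
    · simp
    · simp; omega
    · simp; omega
    · simp; omega
  have hmon : ∀ i, (monomial (mi i) (coeff (mi i) F) : MvPolynomial (Fin 4) ℤ) =
      C (coeff (mi i) F) * (X 0 ^ i * X 1 ^ (4 - i)) := by
    intro i
    unfold mi
    rw [X_pow_eq_monomial, X_pow_eq_monomial, monomial_mul, one_mul, C_mul_monomial, mul_one]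
  conv_lhs => rw [F.as_sum]
  rw [Finset.sum_subset hsub (fun d _ hd => by
    rw [notMem_support_iff.1 hd, monomial_zero]), Finset.sum_image (fun i _ j _ hij => hinj hij)]
  exact Finset.sum_congr rfl fun i _ => hmon i

/-- the polynomial `F(X, 1)` -/
noncomputable def dehom (F : MvPolynomial (Fin 4) ℤ) : Polynomial ℤ :=
  ∑ i ∈ Finset.range 5, Polynomial.C (coeff (mi i) F) * Polynomial.X ^ i

lemma dehom_coeff (F : MvPolynomial (Fin 4) ℤ) {i : ℕ} (hi : i < 5) :
    (dehom F).coeff i = coeff (mi i) F := by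
  unfold dehom
  rw [Polynomial.finset_sum_coeff]
  simp only [Polynomial.coeff_C_mul_X_pow]
  rw [Finset.sum_ite_eq]
  simp [hi]

lemma dehom_deg (F : MvPolynomial (Fin 4) ℤ) : (dehom F).natDegree ≤ 4 := by
  unfold dehom
  refine Polynomial.natDegree_sum_le_of_forall_le _ _ fun i hi => ?_
  rw [Finset.mem_range] at hi
  exact (Polynomial.natDegree_C_mul_X_pow_le _ _).trans (by omega)

lemma dehom_eval {F : MvPolynomial (Fin 4) ℤ} (h : Bi F 4 0) (x : Fin 4 → ℤ) :
    eval x F = ∑ i ∈ Finset.range 5, (dehom F).coeff i * x 0 ^ i * x 1 ^ (4 - i) := by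
  conv_lhs => rw [form_four h]
  rw [map_sum]
  refine Finset.sum_congr rfl fun i hi => ?_
  rw [dehom_coeff F (Finset.mem_range.1 hi)]
  simp
  ring

lemma toQ_hom {F : MvPolynomial (Fin 4) ℤ} (h : Bi F 4 0) :
    toQ F = hom 4 ((dehom F).map (Int.castRingHom ℚ)) := by
  conv_lhs => rw [form_four h]
  unfold hom toQ
  rw [map_sum]
  refine Finset.sum_congr rfl fun i hi => ?_
  rw [Polynomial.coeff_map, dehom_coeff F (Finset.mem_range.1 hi)]
  simp

lemma dehom_spec {F : MvPolynomial (Fin 4) ℤ} (h : Bi F 4 0) (hirr : Irreducible (toQ F)) :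
    (dehom F).natDegree = 4 ∧ ((dehom F).map (Int.castRingHom ℚ)).Separable := by
  set f := (dehom F).map (Int.castRingHom ℚ) with hf
  have hF := toQ_hom h
  rw [← hf] at hF
  have hfd : f.natDegree = (dehom F).natDegree :=
    Polynomial.natDegree_map_eq_of_injective Int.cast_injective _
  have hf4 : f.natDegree ≤ 4 := by rw [hfd]; exact dehom_deg F
  have hdeg : f.natDegree = 4 := by
    by_contra hne
    have h3 : f.natDegree ≤ 3 := by omega
    have h1 := hom_mul (a := 1) (b := 3) (q := 1) (r := f) (by simp) h3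
    rw [one_mul] at h1
    have h1' : hom 4 f = hom 1 1 * hom 3 f := h1
    rw [hF, h1'] at hirr
    rcases hirr.isUnit_or_isUnit rfl with h2 | h2
    · exact hom_not_unit le_rfl _ h2
    · exact hom_not_unit (by norm_num) _ h2
  have hf0 : f ≠ 0 := by
    intro h0
    rw [h0] at hdeg
    simp at hdeg
  refine ⟨by rw [← hfd]; exact hdeg, ?_⟩
  rw [PerfectField.separable_iff_squarefree]
  rintro x ⟨r, hr⟩
  by_contra hx
  have hx0 : x ≠ 0 := by
    rintro rfl
    apply hf0
    rw [hr]; simp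
  have hr0 : r ≠ 0 := by
    rintro rfl
    apply hf0
    rw [hr]; simp
  have he : 1 ≤ x.natDegree := by
    by_contra hcon
    apply hx
    have h1 : x.natDegree = 0 := by omega
    rw [Polynomial.isUnit_iff_degree_eq_zero, Polynomial.degree_eq_natDegree hx0, h1]
    rfl
  have hsum : x.natDegree + (x.natDegree + r.natDegree) = 4 := by
    rw [← hdeg, hr, Polynomial.natDegree_mul (mul_ne_zero hx0 hx0) hr0,
      Polynomial.natDegree_mul hx0 hx0]
    ring
  have h1 := hom_mul (a := x.natDegree) (b := x.natDegree + r.natDegree) (q := x) (r := x * r) le_rfl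
    Polynomial.natDegree_mul_le
  rw [hsum, ← mul_assoc, ← hr, ← hF] at h1
  rcases hirr.isUnit_or_isUnit h1 with h2 | h2
  · exact hom_not_unit he _ h2
  · exact hom_not_unit (by omega) _ h2

end Pool.Agent.Helper19K9.Tf
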