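import Pool.Agent.Helper19K9.Tf.Sq4
import Pool.Agent.Helper19K9.Tf.Fin

/-!
The truncated counting function of divisors with components of total degree at most four.
-/

set_option autoImplicit false
set_option linter.all false
set_option maxHeartbeats 4000000

namespace Pool.Agent.Helper19K9.Tf

open MvPolynomial Pool.Agent.TH910.Voj Pool.Agent.H813R3.Voj Pool.Agent.Helper19K9.Sq

lemma rad_four {F : MvPolynomial (Fin 4) ℤ} {a b : ℕ} (h : Bi F a b) (hab : a + b ≤ 4)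
    (hirr : Irreducible (toQ F)) {η : ℝ} (hη : 0 < η) :
    Sparse 4 (fun B x => IsCoprime (x 0) (x 1) ∧ IsCoprime (x 2) (x 3) ∧
      (rd (eval x F).natAbs : ℝ) < (B : ℝ) ^ (((a : ℝ) + b) - η)) := by
  by_cases hd : a + b = 4
  · have h1 := sparse_rad' h hd (sq_all h hd hirr) hirr hη
    have h2 : ((a : ℝ) + b) = 4 := by exact_mod_cast hd
    rw [h2]
    exact h1
  · have h1 := sparse_rad h hirr hη
    have h2 : mu (a + b) = 1 := by
      unfold mu
      have : (a + b) / 2 ≤ 1 := by omega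
      exact max_eq_left this
    rw [h2] at h1
    have h3 : (((a + b : ℕ) : ℝ) / ((1 : ℕ) : ℝ) - η) = ((a : ℝ) + b) - η := by push_cast; ring
    rw [h3] at h1
    exact h1

theorem four_sparse {ℓ : ℕ} (F : Fin ℓ → MvPolynomial (Fin 4) ℤ) (a b : Fin ℓ → ℕ)
    (hbi : ∀ j, Bi (F j) (a j) (b j)) (hirr : ∀ j, Irreducible (toQ (F j)))
    (hdist : ∀ i j, i ≠ j → ¬ Associated (toQ (F i)) (toQ (F j)))
    (hab : ∀ j, a j + b j ≤ 4) (S : Finset ℕ)
    (κ₁ κ₂ : ℝ) (hκ : 0 < κ₁ + κ₂) :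
    Sparse 4 (fun B x => IsCoprime (x 0) (x 1) ∧ IsCoprime (x 2) (x 3) ∧
      ((∃ j, eval x (F j) = 0) ∨
        ∑ p ∈ (∏ j, eval x (F j)).natAbs.primeFactors \ S, Real.log (p : ℝ) <
          ((∑ j, (a j : ℝ)) - κ₁) * Real.log (max (x 0).natAbs (x 1).natAbs : ℕ) +
          ((∑ j, (b j : ℝ)) - κ₂) * Real.log (max (x 2).natAbs (x 3).natAbs : ℕ))) := by
  refine main_sparse' F a b hbi hirr hdist S (fun j => (a j : ℝ) + b j)
    (fun j η hη => rad_four (hbi j) (hab j) (hirr j) hη) κ₁ κ₂ ?_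
  simpa using hκ

end Pool.Agent.Helper19K9.Tf
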