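import Pool.Agent.Helper44K9.LS.G1
import Pool.Agent.Helper44K9.LS.G2
import Pool.Agent.Helper44K9.LS.G3

/-!
Values of quadratic polynomials which are a multiple of a square.
-/

set_option autoImplicit false
set_option linter.all false
set_option maxHeartbeats 4000000

namespace Pool.Agent.Helper19K9.Tf

open Pool.Agent.Helper44K9.LS

theorem quad_count (K : ℕ) : ∃ C : ℝ, 0 < C ∧ ∀ B : ℕ, 1 ≤ B → ∀ a b c v : ℤ, v ≠ 0 →
    b ^ 2 - 4 * a * c ≠ 0 → |(v : ℝ) * ((b : ℝ) ^ 2 - 4 * a * c)| ≤ (B : ℝ) ^ K →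
    ∀ Y : Finset ℤ, (∀ y ∈ Y, |y| ≤ (B : ℤ) ∧ ∃ t : ℤ, a * y ^ 2 + b * y + c = v * t ^ 2) →
    (Y.card : ℝ) ≤ C * (B : ℝ) ^ (3 / 4 : ℝ) := by
  obtain ⟨B₀, hG⟩ := G3 K
  refine ⟨12 + 3 * B₀, by positivity, fun B hB a b c v hv hd hm Y hY => ?_⟩
  have hB1 : (1 : ℝ) ≤ B := by exact_mod_cast hB
  have hB0 : (0 : ℝ) < B := by linarith
  have hB34 : (1 : ℝ) ≤ (B : ℝ) ^ (3 / 4 : ℝ) := Real.one_le_rpow hB1 (by norm_num)
  rcases le_or_gt B₀ B with hBB | hBB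
  · set m : ℕ := (v * (b ^ 2 - 4 * a * c)).natAbs with hmdef
    have hm0 : m ≠ 0 := Int.natAbs_ne_zero.2 (mul_ne_zero hv hd)
    have hmB : (m : ℝ) ≤ (B : ℝ) ^ K := by
      have e1 : (m : ℝ) = |(((v * (b ^ 2 - 4 * a * c) : ℤ)) : ℝ)| := by
        rw [← Int.cast_abs, Int.abs_eq_natAbs]
        rfl
      rw [e1]
      push_cast
      exact hm
    obtain ⟨S, hS, hsum⟩ := hG B hBB m hm0 hmB
    have key := G1 Y B hB (fun y hy => (hY y hy).1) S (fun l hl => (hS l hl).1)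
      (fun l => ((l : ℝ) + 4) / 2) (fun l _ => by positivity) (by
      intro l hl
      obtain ⟨hlp, hlm, -⟩ := hS l hl
      haveI : Fact l.Prime := ⟨hlp⟩
      have h2 := G2 l ((v * a : ℤ) : ZMod l) ((v * b : ℤ) : ZMod l) ((v * c : ℤ) : ZMod l) (by
        intro h0
        have h1 : (((v * (v * (b ^ 2 - 4 * a * c)) : ℤ)) : ZMod l) = 0 := by
          rw [← h0]; push_cast; ring
        rw [ZMod.intCast_zmod_eq_zero_iff_dvd] at h1
        have hpr : Prime (l : ℤ) := Nat.prime_iff_prime_int.1 hlp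
        have h3 : (l : ℤ) ∣ v * (b ^ 2 - 4 * a * c) := by
          rcases hpr.dvd_or_dvd h1 with h2 | h2
          · exact Dvd.dvd.mul_right h2 _
          · exact h2
        exact hlm (Int.natCast_dvd.1 h3)) (Y.image fun y : ℤ => (y : ZMod l)) (by
        intro z hz
        rw [Finset.mem_image] at hz
        obtain ⟨y, hy, rfl⟩ := hz
        obtain ⟨t, ht⟩ := (hY y hy).2
        refine ⟨((v * t : ℤ) : ZMod l), ?_⟩
        have h1 : (((v * t) ^ 2 : ℤ) : ZMod l) = ((v * (a * y ^ 2 + b * y + c) : ℤ) : ZMod l) := by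
          rw [ht]
          congr 1
          ring
        push_cast at h1 ⊢
        rw [h1]
        ring)
      have h3 : ((2 * (Y.image fun y : ℤ => (y : ZMod l)).card : ℕ) : ℝ) ≤ ((l + 4 : ℕ) : ℝ) := by
        exact_mod_cast h2
      push_cast at h3
      linarith)
    have hN0 : (0 : ℝ) ≤ Y.card := Nat.cast_nonneg _
    have h1 : (Y.card : ℝ) ≤ ∑ l ∈ S, Real.log (l : ℝ) := by
      refine le_trans ?_ key
      nlinarith
    have h2 : ∑ l ∈ S, Real.log (l : ℝ) ≤ (S.card : ℝ) * (12 * (B : ℝ) ^ (1 / 12 : ℝ)) := by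
      rw [← nsmul_eq_mul, ← Finset.sum_const]
      refine Finset.sum_le_sum fun l hl => ?_
      obtain ⟨hlp, -, hlB⟩ := hS l hl
      have hl0 : (0 : ℝ) < l := by exact_mod_cast hlp.pos
      have e1 : Real.log l ≤ Real.log B := by
        refine Real.log_le_log hl0 (hlB.trans ?_)
        calc (B : ℝ) ^ (2 / 3 : ℝ) ≤ (B : ℝ) ^ (1 : ℝ) :=
              Real.rpow_le_rpow_of_exponent_le hB1 (by norm_num)
          _ = B := Real.rpow_one _
      refine e1.trans ?_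
      have e2 := Real.log_le_rpow_div hB0.le (show (0 : ℝ) < 1 / 12 by norm_num)
      linarith
    have h3 : (S.card : ℝ) ≤ (B : ℝ) ^ (2 / 3 : ℝ) := by
      have e1 : S ⊆ Finset.Icc 1 ⌊(B : ℝ) ^ (2 / 3 : ℝ)⌋₊ := by
        intro l hl
        obtain ⟨hlp, -, hlB⟩ := hS l hl
        rw [Finset.mem_Icc]
        exact ⟨hlp.pos, Nat.le_floor hlB⟩
      have e2 := Finset.card_le_card e1
      rw [Nat.card_Icc, Nat.add_sub_cancel] at e2
      calc (S.card : ℝ) ≤ (⌊(B : ℝ) ^ (2 / 3 : ℝ)⌋₊ : ℝ) := by exact_mod_cast e2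
        _ ≤ _ := Nat.floor_le (by positivity)
    have h4 : (B : ℝ) ^ (2 / 3 : ℝ) * (12 * (B : ℝ) ^ (1 / 12 : ℝ)) = 12 * (B : ℝ) ^ (3 / 4 : ℝ) := by
      have : (3 / 4 : ℝ) = 2 / 3 + 1 / 12 := by norm_num
      rw [this, Real.rpow_add hB0]
      ring
    calc (Y.card : ℝ) ≤ (S.card : ℝ) * (12 * (B : ℝ) ^ (1 / 12 : ℝ)) := h1.trans h2
      _ ≤ (B : ℝ) ^ (2 / 3 : ℝ) * (12 * (B : ℝ) ^ (1 / 12 : ℝ)) :=
          mul_le_mul_of_nonneg_right h3 (by positivity)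
      _ = 12 * (B : ℝ) ^ (3 / 4 : ℝ) := h4
      _ ≤ _ := by
          refine mul_le_mul_of_nonneg_right ?_ (by positivity)
          have : (0 : ℝ) ≤ B₀ := Nat.cast_nonneg _
          linarith
  · have e1 : Y ⊆ Finset.Icc (-(B : ℤ)) B := by
      intro y hy
      rw [Finset.mem_Icc, ← abs_le]
      exact (hY y hy).1
    have e2 := Finset.card_le_card e1
    rw [Int.card_Icc] at e2
    have e3 : Y.card ≤ 3 * B₀ := by omega
    calc (Y.card : ℝ) ≤ 3 * B₀ := by exact_mod_cast e3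
      _ ≤ (12 + 3 * (B₀ : ℝ)) * 1 := by linarith
      _ ≤ _ := mul_le_mul_of_nonneg_left hB34 (by positivity)

end Pool.Agent.Helper19K9.Tf
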