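import Pool.Agent.Helper19K9.Tf.St2
import Pool.Agent.Helper26K9.ST.S1

/-!
Stepanov's method: the bound.
-/

set_option autoImplicit false
set_option linter.all false
set_option maxHeartbeats 4000000

namespace Pool.Agent.Helper19K9.Tf

open Polynomial Pool.Agent.Helper26K9.ST

section
variable {p : ℕ} [Fact p.Prime]

lemma pow_der (f : (ZMod p)[X]) (h : ℕ) :
    f * derivative (f ^ h) = C ((h : ℕ) : ZMod p) * derivative f * f ^ h := by
  rw [derivative_pow]
  rcases h with _ | h
  · simp
  · rw [Nat.add_sub_cancel, pow_succ]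
    ring

theorem stepanov (hp : p ≠ 2) {f : (ZMod p)[X]} (hf : Squarefree f)
    (hd : 1 ≤ f.natDegree) (h0 : f.eval 0 ≠ 0) {J A m : ℕ} (hA : f.natDegree + 2 * A ≤ p + 1)
    (hm : m ≤ p) (hcount : m * (A + m * f.natDegree + J) < 2 * J * A)
    (Z : Finset (ZMod p)) (hZ : ∀ x ∈ Z, f.eval x ^ ((p - 1) / 2) = 1) :
    m * Z.card ≤ A + f.natDegree * ((p - 1) / 2) + (J - 1) * p := by
  classical
  have hp1 := (Fact.out (p := p.Prime)).two_le
  set h := (p - 1) / 2 with hh
  have hh1 : 1 ≤ h := by omega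
  set g := f ^ h with hg
  obtain ⟨r, s, hr, hs, hne, hT⟩ := exists_aux (f := f) le_rfl ((h : ℕ) : ZMod p) hcount
  set R := ∑ j ∈ Finset.range J, (r j + s j * g) * X ^ (j * p) with hR
  have hR0 : R ≠ 0 := by
    intro h1
    obtain ⟨j, hj, hj2⟩ := hne
    obtain ⟨e1, e2⟩ := S1 hp hf hd h0 hA r s hr hs h1 j hj
    rcases hj2 with h2 | h2
    · exact h2 e1
    · exact h2 e2
  have hdvd : ∀ x ∈ Z, (X - C x) ^ m ∣ R := by
    intro x hx
    refine aux_vanish (pow_der f h) hm r s hT hR0 ?_ ?_
    · rw [eval_pow]; exact hZ x hx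
    · intro h1
      have h2 := hZ x hx
      rw [h1, zero_pow (by omega)] at h2
      exact zero_ne_one h2
  have hprod : ∏ x ∈ Z, (X - C x) ^ m ∣ R := by
    refine Finset.prod_dvd_of_coprime ?_ hdvd
    intro x _ y _ hxy
    exact IsCoprime.pow (isCoprime_X_sub_C_of_isUnit_sub (sub_ne_zero.2 hxy).isUnit)
  have h1 := natDegree_le_of_dvd hprod hR0
  have h2 : (∏ x ∈ Z, (X - C x) ^ m).natDegree = m * Z.card := by
    rw [natDegree_prod _ _ (fun x _ => pow_ne_zero _ (X_sub_C_ne_zero x))]
    simp only [natDegree_pow, natDegree_X_sub_C, mul_one, Finset.sum_const, smul_eq_mul]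
    ring
  rw [h2] at h1
  refine h1.trans ?_
  have hgd : g.natDegree ≤ f.natDegree * h := by
    rw [hg]
    exact (natDegree_pow_le).trans (by rw [mul_comm])
  refine natDegree_sum_le_of_forall_le _ _ fun j hj => ?_
  rw [Finset.mem_range] at hj
  have h3 : ∀ q : (ZMod p)[X], q.degree < A → q.natDegree ≤ A := by
    intro q hq
    by_cases h0 : q = 0
    · rw [h0, natDegree_zero]; exact Nat.zero_le _
    · exact ((natDegree_lt_iff_degree_lt h0).2 hq).le
  have h4 : (r j + s j * g).natDegree ≤ A + f.natDegree * h := by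
    refine (natDegree_add_le _ _).trans (max_le ?_ ?_)
    · exact (h3 _ (hr j)).trans (Nat.le_add_right _ _)
    · exact (natDegree_mul_le).trans (Nat.add_le_add (h3 _ (hs j)) hgd)
  have h5 : (X ^ (j * p) : (ZMod p)[X]).natDegree ≤ (J - 1) * p := by
    rw [natDegree_X_pow]
    exact Nat.mul_le_mul_right _ (by omega)
  exact (natDegree_mul_le).trans (Nat.add_le_add h4 h5)

theorem stepanov_zero (hp : 2000 ≤ p) {f : (ZMod p)[X]} (hf : Squarefree f) (hd : f.natDegree = 4)
    (h0 : f.eval 0 ≠ 0) (Z : Finset (ZMod p)) (hZ : ∀ x ∈ Z, f.eval x ^ ((p - 1) / 2) = 1) :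
    8 * Z.card ≤ 5 * p := by
  have hodd : p % 2 = 1 := by
    rcases (Fact.out (p := p.Prime)).eq_two_or_odd with h | h
    · omega
    · exact h
  have h1 := stepanov (J := 11) (A := (p - 3) / 2) (m := 20) (by omega) hf (by omega) h0
    (by rw [hd]; omega) (by omega) (by rw [hd]; omega) Z hZ
  rw [hd] at h1
  omega

theorem stepanov4 (hp : 2000 ≤ p) {f : (ZMod p)[X]} (hf : Squarefree f) (hd : f.natDegree = 4)
    (Y : Finset (ZMod p)) (hY : ∀ y ∈ Y, ∃ s : ZMod p, s ^ 2 = f.eval y) :
    (Y.card : ℝ) ≤ 5 / 8 * (p : ℝ) + 4 := by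
  classical
  have hf0 : f ≠ 0 := hf.ne_zero
  have hpodd : p ≠ 2 := by omega
  -- a point which is not a zero
  obtain ⟨a, ha⟩ : ∃ a : ZMod p, f.eval a ≠ 0 := by
    by_contra hcon
    push Not at hcon
    have h1 : (Finset.univ : Finset (ZMod p)) ⊆ f.roots.toFinset := by
      intro a _
      rw [Multiset.mem_toFinset, mem_roots hf0]
      exact hcon a
    have h2 := Finset.card_le_card h1
    rw [Finset.card_univ, ZMod.card] at h2
    have h3 := (Multiset.toFinset_card_le f.roots).trans (card_roots' f)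
    omega
  set f₁ := f.comp (X + C a) with hf₁
  have hsq : Squarefree f₁ := by
    have h1 : f₁ = algEquivAevalXAddC a f := by
      rw [hf₁]
      simp [algEquivAevalXAddC, comp, aeval_def]
    rw [h1]
    intro x hx
    set e : (ZMod p)[X] ≃ₐ[ZMod p] (ZMod p)[X] := algEquivAevalXAddC a with he
    have h2 : e.symm x * e.symm x ∣ f := by
      obtain ⟨w, hw⟩ := hx
      refine ⟨e.symm w, ?_⟩
      rw [← map_mul, ← map_mul, ← hw, AlgEquiv.symm_apply_apply]
    have h3 := (hf _ h2).map e
    rwa [AlgEquiv.apply_symm_apply] at h3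
  have hd₁ : f₁.natDegree = 4 := by
    rw [hf₁, natDegree_comp, natDegree_X_add_C, mul_one, hd]
  have he : ∀ x, f₁.eval x = f.eval (x + a) := by
    intro x
    rw [hf₁, eval_comp]
    simp
  set Y₀ := Y.filter fun y => f.eval y = 0 with hY₀
  set Y₁ := Y.filter fun y => ¬ f.eval y = 0 with hY₁
  have hcard : Y.card = Y₀.card + Y₁.card := (Finset.card_filter_add_card_filter_not _).symm
  have h1 : Y₀.card ≤ 4 := by
    have h2 : Y₀ ⊆ f.roots.toFinset := by
      intro y hy
      rw [Multiset.mem_toFinset, mem_roots hf0]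
      exact (Finset.mem_filter.1 hy).2
    have h3 := Finset.card_le_card h2
    have h4 := (Multiset.toFinset_card_le f.roots).trans (card_roots' f)
    omega
  have h2 : 8 * Y₁.card ≤ 5 * p := by
    have h3 := stepanov_zero hp hsq hd₁ (by rw [he, zero_add]; exact ha) (Y₁.image fun y => y - a) (by
      intro x hx
      rw [Finset.mem_image] at hx
      obtain ⟨y, hy, rfl⟩ := hx
      rw [hY₁, Finset.mem_filter] at hy
      obtain ⟨s, hs⟩ := hY y hy.1
      rw [he, sub_add_cancel, ← hs, ← pow_mul]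
      have hs0 : s ≠ 0 := by
        rintro rfl
        apply hy.2
        rw [← hs]
        simp
      have h4 : 2 * ((p - 1) / 2) = p - 1 := by
        have hodd : p % 2 = 1 := by
          rcases (Fact.out (p := p.Prime)).eq_two_or_odd with h | h
          · omega
          · exact h
        omega
      rw [h4]
      exact ZMod.pow_card_sub_one_eq_one hs0)
    rwa [Finset.card_image_of_injective _ (sub_left_injective)] at h3
  have h3 : (8 * Y.card : ℝ) ≤ 5 * p + 32 := by
    have : 8 * Y.card ≤ 5 * p + 32 := by omega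
    exact_mod_cast this
  linarith

end

end Pool.Agent.Helper19K9.Tf
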