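import Pool.Agent.Helper44K9.LS.G1
import Pool.Agent.Helper44K9.LS.G3b
import Pool.Agent.Helper19K9.Tf.St3

/-!
Values of binary quartic forms which are a multiple of a square.
-/

set_option autoImplicit false
set_option linter.all false
set_option maxHeartbeats 4000000

namespace Pool.Agent.Helper19K9.Tf

open Polynomial Pool.Agent.Helper44K9.LS

lemma clear_den (u : ℚ[X]) : ∃ N : ℤ, N ≠ 0 ∧ ∃ u' : ℤ[X], u'.map (Int.castRingHom ℚ) = C (N : ℚ) * u := by
  obtain ⟨b, hb⟩ := IsLocalization.integerNormalization_map_to_map (nonZeroDivisors ℤ) u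
  refine ⟨b, nonZeroDivisors.coe_ne_zero b,
    IsLocalization.integerNormalization (nonZeroDivisors ℤ) u, ?_⟩
  have h1 : (algebraMap ℤ ℚ) = Int.castRingHom ℚ := rfl
  rw [h1] at hb
  rw [hb]
  ext n
  simp

lemma bad_primes (f : ℤ[X]) (hd : f.natDegree = 4) (hsep : (f.map (Int.castRingHom ℚ)).Separable) :
    ∃ D : ℕ, D ≠ 0 ∧ ∀ l : ℕ, l.Prime → ¬ l ∣ D → 2000 ≤ l ∧
      Squarefree (f.map (Int.castRingHom (ZMod l))) ∧ (f.map (Int.castRingHom (ZMod l))).natDegree = 4 := by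
  have hf0 : f ≠ 0 := by
    rintro rfl
    simp at hd
  obtain ⟨u, w, huw⟩ := hsep
  obtain ⟨N₁, hN₁, u', hu'⟩ := clear_den u
  obtain ⟨N₂, hN₂, w', hw'⟩ := clear_den w
  have hbez : C N₂ * u' * f + C N₁ * w' * derivative f = C (N₁ * N₂) := by
    apply Polynomial.map_injective (Int.castRingHom ℚ) Int.cast_injective
    rw [Polynomial.map_add, Polynomial.map_mul, Polynomial.map_mul, Polynomial.map_mul,
      Polynomial.map_mul, hu', hw', ← derivative_map, map_C, map_C, map_C]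
    have e1 : (Int.castRingHom ℚ) (N₁ * N₂) = (N₁ : ℚ) * N₂ := by simp
    rw [e1, C_mul]
    simp only [eq_intCast]
    linear_combination (C (N₁ : ℚ) * C (N₂ : ℚ)) * huw
  obtain ⟨c₀, hc₀, hc₀'⟩ : ∃ c₀ : ℕ, c₀ ≠ 0 ∧ ∀ l : ℕ, l.Prime → l < 2000 → l ∣ c₀ := by
    refine ⟨∏ l ∈ (Finset.range 2000).filter Nat.Prime, l, ?_, ?_⟩
    · exact Finset.prod_ne_zero_iff.2 fun l hl => (Finset.mem_filter.1 hl).2.ne_zero
    · intro l hl hl2
      exact Finset.dvd_prod_of_mem _ (Finset.mem_filter.2 ⟨Finset.mem_range.2 hl2, hl⟩)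
  refine ⟨(N₁ * N₂).natAbs * f.leadingCoeff.natAbs * c₀, ?_, ?_⟩
  · refine mul_ne_zero (mul_ne_zero ?_ ?_) hc₀
    · exact Int.natAbs_ne_zero.2 (mul_ne_zero hN₁ hN₂)
    · exact Int.natAbs_ne_zero.2 (leadingCoeff_ne_zero.2 hf0)
  · intro l hl hlD
    haveI : Fact l.Prime := ⟨hl⟩
    have h1 : ¬ l ∣ c₀ := fun h => hlD (Dvd.dvd.mul_left h _)
    have h2 : ¬ (l : ℤ) ∣ N₁ * N₂ := fun h => hlD
      (Dvd.dvd.mul_right (Dvd.dvd.mul_right (Int.natCast_dvd.1 h) _) _)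
    have h3 : ¬ (l : ℤ) ∣ f.leadingCoeff := fun h => hlD
      (Dvd.dvd.mul_right (Dvd.dvd.mul_left (Int.natCast_dvd.1 h) _) _)
    refine ⟨?_, ?_, ?_⟩
    · by_contra hcon
      exact h1 (hc₀' l hl (by omega))
    · have hsp : (f.map (Int.castRingHom (ZMod l))).Separable := by
        have h4 : (C N₂ * u').map (Int.castRingHom (ZMod l)) * f.map (Int.castRingHom (ZMod l)) +
            (C N₁ * w').map (Int.castRingHom (ZMod l)) *
              derivative (f.map (Int.castRingHom (ZMod l))) =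
            C ((Int.castRingHom (ZMod l)) (N₁ * N₂)) := by
          rw [derivative_map, ← Polynomial.map_mul, ← Polynomial.map_mul, ← Polynomial.map_add,
            hbez, map_C]
        have h5 : (Int.castRingHom (ZMod l)) (N₁ * N₂) ≠ 0 := by
          intro h
          apply h2
          rw [← ZMod.intCast_zmod_eq_zero_iff_dvd]
          exact h
        set e := (Int.castRingHom (ZMod l)) (N₁ * N₂) with he
        refine ⟨C e⁻¹ * (C N₂ * u').map (Int.castRingHom (ZMod l)),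
          C e⁻¹ * (C N₁ * w').map (Int.castRingHom (ZMod l)), ?_⟩
        have h6 : C e⁻¹ * C e = (1 : (ZMod l)[X]) := by
          rw [← C_mul, inv_mul_cancel₀ h5, C_1]
        linear_combination C e⁻¹ * h4 + h6
      exact hsp.squarefree
    · rw [natDegree_map_eq_iff.2, hd]
      left
      intro h
      apply h3
      rw [← ZMod.intCast_zmod_eq_zero_iff_dvd]
      exact h

theorem quart_count (f : ℤ[X]) (hd : f.natDegree = 4)
    (hsep : (f.map (Int.castRingHom ℚ)).Separable) : ∃ C : ℝ, 0 < C ∧ ∀ B : ℕ, 1 ≤ B →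
    ∀ w v : ℤ, w ≠ 0 → v ≠ 0 → |(w : ℝ)| ≤ B → |(v : ℝ)| ≤ B →
    ∀ Y : Finset ℤ, (∀ y ∈ Y, |y| ≤ (B : ℤ) ∧ ∃ t : ℤ,
      (∑ i ∈ Finset.range 5, f.coeff i * y ^ i * w ^ (4 - i)) = v * t ^ 2) →
    (Y.card : ℝ) ≤ C * (B : ℝ) ^ (7 / 8 : ℝ) := by
  classical
  obtain ⟨D, hD0, hD⟩ := bad_primes f hd hsep
  obtain ⟨B₀, hG⟩ := G3b 3
  refine ⟨8 + 3 * (B₀ + D), by positivity, fun B hB w v hw hv hwB hvB Y hY => ?_⟩
  have hB1 : (1 : ℝ) ≤ B := by exact_mod_cast hB
  have hB0 : (0 : ℝ) < B := by linarith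
  have hB34 : (1 : ℝ) ≤ (B : ℝ) ^ (7 / 8 : ℝ) := Real.one_le_rpow hB1 (by norm_num)
  rcases le_or_gt (B₀ + D) B with hBB | hBB
  · set m : ℕ := D * w.natAbs * v.natAbs with hmdef
    have hm0 : m ≠ 0 := mul_ne_zero (mul_ne_zero hD0 (Int.natAbs_ne_zero.2 hw)) (Int.natAbs_ne_zero.2 hv)
    have hmB : (m : ℝ) ≤ (B : ℝ) ^ 3 := by
      rw [hmdef]
      push_cast
      have e1 : ((w.natAbs : ℕ) : ℝ) ≤ B := by
        rwa [← Int.cast_abs, Int.abs_eq_natAbs] at hwB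
      have e2 : ((v.natAbs : ℕ) : ℝ) ≤ B := by
        rwa [← Int.cast_abs, Int.abs_eq_natAbs] at hvB
      have e3 : (D : ℝ) ≤ B := by exact_mod_cast (by omega : D ≤ B)
      have e1' : |(w : ℝ)| ≤ B := hwB
      have e2' : |(v : ℝ)| ≤ B := hvB
      calc (D : ℝ) * (w.natAbs : ℝ) * (v.natAbs : ℝ) ≤ B * B * B := by gcongr
        _ = (B : ℝ) ^ 3 := by ring
    obtain ⟨S, hS, hsum⟩ := hG B (by omega) m hm0 hmB
    have key := G1 Y B hB (fun y hy => (hY y hy).1) S (fun l hl => (hS l hl).1)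
      (fun l => 5 / 8 * (l : ℝ) + 4) (fun l _ => by positivity) (by
      intro l hl
      obtain ⟨hlp, hlm, -⟩ := hS l hl
      haveI : Fact l.Prime := ⟨hlp⟩
      have hlD : ¬ l ∣ D := fun h => hlm (by
        rw [hmdef]; exact Dvd.dvd.mul_right (Dvd.dvd.mul_right h _) _)
      have hlw : ¬ (l : ℤ) ∣ w := fun h => hlm (by
        rw [hmdef]; exact Dvd.dvd.mul_right (Dvd.dvd.mul_left (Int.natCast_dvd.1 h) _) _)
      have hlv : ¬ (l : ℤ) ∣ v := fun h => hlm (by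
        rw [hmdef]; exact Dvd.dvd.mul_left (Int.natCast_dvd.1 h) _)
      have hw0 : ((w : ℤ) : ZMod l) ≠ 0 := fun h => hlw ((ZMod.intCast_zmod_eq_zero_iff_dvd _ _).1 h)
      have hv0 : ((v : ℤ) : ZMod l) ≠ 0 := fun h => hlv ((ZMod.intCast_zmod_eq_zero_iff_dvd _ _).1 h)
      obtain ⟨h2000, hsq, hdeg⟩ := hD l hlp hlD
      set fl := f.map (Int.castRingHom (ZMod l)) with hfl
      have hsq' : Squarefree (C (v : ZMod l) * fl) := by
        have h1 : IsUnit (C (v : ZMod l)) := isUnit_C.2 hv0.isUnit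
        intro x hx
        exact hsq x ((h1.dvd_mul_left).1 hx)
      have hdeg' : (C (v : ZMod l) * fl).natDegree = 4 := by
        rw [natDegree_C_mul hv0, hdeg]
      have hfe : ∀ z : ZMod l, fl.eval z = ∑ i ∈ Finset.range 5, ((f.coeff i : ℤ) : ZMod l) * z ^ i := by
        intro z
        rw [eval_eq_sum_range, hdeg]
        refine Finset.sum_congr rfl fun i _ => ?_
        rw [hfl, coeff_map]
        rfl
      have h2 := stepanov4 h2000 hsq' hdeg' (((Y.image fun y : ℤ => (y : ZMod l))).image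
        fun z => z * (w : ZMod l)⁻¹) (by
        intro z hz
        rw [Finset.mem_image] at hz
        obtain ⟨z', hz', rfl⟩ := hz
        rw [Finset.mem_image] at hz'
        obtain ⟨y, hy, rfl⟩ := hz'
        obtain ⟨t, ht⟩ := (hY y hy).2
        refine ⟨(v : ZMod l) * t * ((w : ZMod l)⁻¹) ^ 2, ?_⟩
        rw [eval_mul, eval_C, hfe]
        have h1 : (((∑ i ∈ Finset.range 5, f.coeff i * y ^ i * w ^ (4 - i) : ℤ)) : ZMod l) =
            ((v * t ^ 2 : ℤ) : ZMod l) := by rw [ht]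
        push_cast at h1
        have h3 : ((v : ZMod l) * t * ((w : ZMod l)⁻¹) ^ 2) ^ 2 =
            (v : ZMod l) * ((w : ZMod l)⁻¹) ^ 4 * ((v : ZMod l) * (t : ZMod l) ^ 2) := by ring
        rw [h3, ← h1, mul_assoc, Finset.mul_sum]
        congr 1
        refine Finset.sum_congr rfl fun i hi => ?_
        rw [Finset.mem_range] at hi
        have h4 : ((w : ZMod l)⁻¹) ^ 4 = ((w : ZMod l)⁻¹) ^ (4 - i) * ((w : ZMod l)⁻¹) ^ i := by
          rw [← pow_add]
          congr 1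
          omega
        have h5 : ((w : ZMod l)⁻¹) ^ (4 - i) * (w : ZMod l) ^ (4 - i) = 1 := by
          rw [← mul_pow, inv_mul_cancel₀ hw0, one_pow]
        rw [h4, mul_pow]
        linear_combination (((w : ZMod l)⁻¹) ^ i * (f.coeff i : ZMod l) * (y : ZMod l) ^ i) * h5)
      rwa [Finset.card_image_of_injective] at h2
      intro z z' hzz
      exact mul_right_cancel₀ (inv_ne_zero hw0) hzz)
    have hN0 : (0 : ℝ) ≤ Y.card := Nat.cast_nonneg _
    have h1 : (Y.card : ℝ) ≤ ∑ l ∈ S, Real.log (l : ℝ) := by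
      refine le_trans ?_ key
      nlinarith
    have h2 : ∑ l ∈ S, Real.log (l : ℝ) ≤ (S.card : ℝ) * (8 * (B : ℝ) ^ (1 / 8 : ℝ)) := by
      rw [← nsmul_eq_mul, ← Finset.sum_const]
      refine Finset.sum_le_sum fun l hl => ?_
      obtain ⟨hlp, -, hlB⟩ := hS l hl
      have hl0 : (0 : ℝ) < l := by exact_mod_cast hlp.pos
      have e1 : Real.log l ≤ Real.log B := by
        refine Real.log_le_log hl0 (hlB.trans ?_)
        calc (B : ℝ) ^ (3 / 4 : ℝ) ≤ (B : ℝ) ^ (1 : ℝ) :=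
              Real.rpow_le_rpow_of_exponent_le hB1 (by norm_num)
          _ = B := Real.rpow_one _
      refine e1.trans ?_
      have e2 := Real.log_le_rpow_div hB0.le (show (0 : ℝ) < 1 / 8 by norm_num)
      linarith
    have h3 : (S.card : ℝ) ≤ (B : ℝ) ^ (3 / 4 : ℝ) := by
      have e1 : S ⊆ Finset.Icc 1 ⌊(B : ℝ) ^ (3 / 4 : ℝ)⌋₊ := by
        intro l hl
        obtain ⟨hlp, -, hlB⟩ := hS l hl
        rw [Finset.mem_Icc]
        exact ⟨hlp.pos, Nat.le_floor hlB⟩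
      have e2 := Finset.card_le_card e1
      rw [Nat.card_Icc, Nat.add_sub_cancel] at e2
      calc (S.card : ℝ) ≤ (⌊(B : ℝ) ^ (3 / 4 : ℝ)⌋₊ : ℝ) := by exact_mod_cast e2
        _ ≤ _ := Nat.floor_le (by positivity)
    have h4 : (B : ℝ) ^ (3 / 4 : ℝ) * (8 * (B : ℝ) ^ (1 / 8 : ℝ)) = 8 * (B : ℝ) ^ (7 / 8 : ℝ) := by
      have : (7 / 8 : ℝ) = 3 / 4 + 1 / 8 := by norm_num
      rw [this, Real.rpow_add hB0]
      ring
    calc (Y.card : ℝ) ≤ (S.card : ℝ) * (8 * (B : ℝ) ^ (1 / 8 : ℝ)) := h1.trans h2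
      _ ≤ (B : ℝ) ^ (3 / 4 : ℝ) * (8 * (B : ℝ) ^ (1 / 8 : ℝ)) :=
          mul_le_mul_of_nonneg_right h3 (by positivity)
      _ = 8 * (B : ℝ) ^ (7 / 8 : ℝ) := h4
      _ ≤ _ := by
          refine mul_le_mul_of_nonneg_right ?_ (by positivity)
          have : (0 : ℝ) ≤ (B₀ : ℝ) + D := by positivity
          linarith
  · have e1 : Y ⊆ Finset.Icc (-(B : ℤ)) B := by
      intro y hy
      rw [Finset.mem_Icc, ← abs_le]
      exact (hY y hy).1
    have e2 := Finset.card_le_card e1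
    rw [Int.card_Icc] at e2
    have e3 : Y.card ≤ 3 * (B₀ + D) := by omega
    calc (Y.card : ℝ) ≤ 3 * (B₀ + D) := by exact_mod_cast e3
      _ ≤ (8 + 3 * ((B₀ : ℝ) + D)) * 1 := by linarith
      _ ≤ _ := mul_le_mul_of_nonneg_left hB34 (by positivity)

end Pool.Agent.Helper19K9.Tf
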