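import Pool.Agent.Helper19K9.Sq.Fin
import Pool.Agent.Helper19K9.Tf.Ros

/-!
The radical of the value of an irreducible bihomogeneous form of total degree four, when the values
which are small multiples of squares are sparse.
-/

set_option autoImplicit false
set_option linter.all false
set_option maxHeartbeats 4000000

namespace Pool.Agent.Helper19K9.Tf

open MvPolynomial Pool.Agent.TH910.Voj Pool.Agent.H813R3.Voj Pool.Agent.Helper19K9.Sq

/-- the points at which the value is a small multiple of a square are sparse -/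
def SQ (F : MvPolynomial (Fin 4) ℤ) : Prop := ∃ η₀ : ℝ, 0 < η₀ ∧
  Sparse 4 (fun B x => ∃ v t : ℤ, v ≠ 0 ∧ |(v : ℝ)| ≤ (B : ℝ) ^ η₀ ∧ eval x F = v * t ^ 2)

theorem sparse_rad0' {F : MvPolynomial (Fin 4) ℤ} {a b : ℕ} (h : Bi F (a + 1) b)
    (h4 : a + 1 + b = 4) (hSQ : SQ F)
    (hirr : Irreducible (toQ F)) (h0 : pderiv 0 F ≠ 0) {ε : ℝ} (hε : 0 < ε) :
    Sparse 4 (fun B x => IsCoprime (x 0) (x 1) ∧
      (rd (eval x F).natAbs : ℝ) < (B : ℝ) ^ ((4 : ℝ) - ε)) := by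
  classical
  obtain ⟨η₀, hη₀, s4⟩ := hSQ
  set d := a + 1 + b with hd
  have hd4 : (d : ℝ) = 4 := by exact_mod_cast h4
  set c : ℝ := min (min (ε / 3) (1 / 2)) (η₀ / 4) with hc
  have hc0 : 0 < c := by rw [hc]; positivity
  have hcε : 3 * c ≤ ε := by
    have := (min_le_left (min (ε / 3) (1 / 2)) (η₀ / 4)).trans (min_le_left _ _)
    rw [← hc] at this
    linarith
  have hc2 : c ≤ 1 / 2 := by
    have := (min_le_left (min (ε / 3) (1 / 2)) (η₀ / 4)).trans (min_le_right _ _)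
    rwa [← hc] at this
  have hcη : 4 * c ≤ η₀ := by
    have := min_le_right (min (ε / 3) (1 / 2)) (η₀ / 4)
    rw [← hc] at this
    linarith
  have hc1 : c ≤ 1 := by linarith
  have hhom : F.IsHomogeneous d := h.hom
  obtain ⟨CF, hCF1, hCF⟩ := exists_eval_bound F hhom.totalDegree_le
  have s1 := sparse_small (n := 3) F (k := d) (by omega) hhom hirr hc0 (by rw [hd4]; linarith)
  have hnd : ¬ toQ F ∣ toQ (X 1 * pderiv 0 F) := by
    refine not_dvd_aux (d := a + b) ?_ hirr h0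
    rw [show a + b + 1 = d by omega]
    exact hhom
  have s2 := sparse_part (n := 3) F (X 1 * pderiv 0 F) hhom hirr hnd hc0 hc1
  have s3 := sparse_pw h hc0 (by linarith)
  refine (((s1.or s2).or s3).or s4).of_eventually (CF ^ 2 + 1 + ⌈(CF : ℝ) ^ (1 / c)⌉₊) ?_
  rintro B x hB₀ hB hx ⟨hco, hrad⟩
  by_contra hcon
  push Not at hcon
  obtain ⟨⟨⟨h1, h2⟩, h3⟩, h5⟩ := hcon
  have hB1 : (1 : ℝ) ≤ B := by exact_mod_cast hB
  have hB0 : (0 : ℝ) < B := by linarith
  set n := (eval x F).natAbs with hn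
  have hn0 : n ≠ 0 := by
    intro h0
    rw [h0, Nat.cast_zero] at h1
    have : (0 : ℝ) < (B : ℝ) ^ ((d : ℝ) - c) := by positivity
    linarith
  have hF0 : eval x F ≠ 0 := by rwa [hn, Ne, Int.natAbs_eq_zero] at hn0
  -- the decomposition of `n`
  set w := ∏ p ∈ n.primeFactors.filter (fun p : ℕ => (p : ℤ) ∣ eval x (X 1 * pderiv 0 F)),
    p ^ n.factorization p with hw
  set n' := ∏ p ∈ n.primeFactors.filter (fun p : ℕ => ¬ (p : ℤ) ∣ eval x (X 1 * pderiv 0 F)),
    p ^ n.factorization p with hn'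
  have hwn : w * n' = n := by
    rw [hw, hn', Finset.prod_filter_mul_prod_filter_not]
    exact Nat.prod_factorization_pow_eq_self hn0
  have hw0 : w ≠ 0 := by rintro h; rw [h, zero_mul] at hwn; exact hn0 hwn.symm
  have hn'0 : n' ≠ 0 := by rintro h; rw [h, mul_zero] at hwn; exact hn0 hwn.symm
  have hpw : ∀ p : ℕ, p.Prime → p ∣ w → (p : ℤ) ∣ eval x (X 1 * pderiv 0 F) := by
    intro p hp hpd
    rw [hw, hp.prime.dvd_finsetProd_iff] at hpd
    obtain ⟨q, hq, hpq⟩ := hpd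
    rw [Finset.mem_filter] at hq
    rw [(Nat.prime_dvd_prime_iff_eq hp (Nat.prime_of_mem_primeFactors hq.1)).1
      (hp.dvd_of_dvd_pow hpq)]
    exact hq.2
  have hpn' : ∀ p : ℕ, p.Prime → p ∣ n' → ¬ (p : ℤ) ∣ eval x (X 1 * pderiv 0 F) := by
    intro p hp hpd
    rw [hn', hp.prime.dvd_finsetProd_iff] at hpd
    obtain ⟨q, hq, hpq⟩ := hpd
    rw [Finset.mem_filter] at hq
    rw [(Nat.prime_dvd_prime_iff_eq hp (Nat.prime_of_mem_primeFactors hq.1)).1
      (hp.dvd_of_dvd_pow hpq)]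
    exact hq.2
  have hnF : (n : ℤ) ∣ eval x F := by rw [hn]; exact Int.natAbs_dvd.2 dvd_rfl
  have hwB : (w : ℝ) ≤ (B : ℝ) ^ c := by
    by_contra hlt
    push Not at hlt
    refine absurd hlt (not_lt.2 (h2 hF0 w ?_ hpw))
    exact (Int.natCast_dvd_natCast.2 ⟨n', hwn.symm⟩).trans hnF
  have hrd : rd n' ≤ rd n := rd_le_of_dvd hn0 (fun p _ hp => hp.trans ⟨w, by rw [← hwn, mul_comm]⟩) hn'0
  have hnub : (n : ℝ) ≤ CF * (B : ℝ) ^ d := by exact_mod_cast hCF B hB x hx
  have hn'n : (n' : ℝ) ≤ n := by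
    exact_mod_cast Nat.le_of_dvd (Nat.pos_of_ne_zero hn0) ⟨w, by rw [← hwn, mul_comm]⟩
  have hCFB : (CF : ℝ) ≤ (B : ℝ) ^ c := by
    have e1 : (CF : ℝ) ^ (1 / c) ≤ B := by
      refine (Nat.le_ceil _).trans ?_
      exact_mod_cast (show ⌈(CF : ℝ) ^ (1 / c)⌉₊ ≤ B by omega)
    calc (CF : ℝ) = ((CF : ℝ) ^ (1 / c)) ^ c := by
          rw [← Real.rpow_mul (Nat.cast_nonneg _), one_div, inv_mul_cancel₀ hc0.ne', Real.rpow_one]
      _ ≤ (B : ℝ) ^ c := Real.rpow_le_rpow (by positivity) e1 hc0.le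
  have hnoP : ∀ s : ℕ, Pw s → s ∣ n' → (s : ℝ) < (B : ℝ) ^ c ∨ (B : ℝ) ^ (4 - c) < s := by
    intro s hs hsn
    by_contra hcon
    push Not at hcon
    refine h3 hco s hs hcon.1 hcon.2 ?_ ?_
    · exact (Int.natCast_dvd_natCast.2 (hsn.trans ⟨w, by rw [← hwn, mul_comm]⟩)).trans hnF
    · have : (x 1 * eval x (pderiv 0 F)) = eval x (X 1 * pderiv 0 F) := by
        rw [map_mul, eval_X]
      rw [this, Int.isCoprime_iff_gcd_eq_one]
      by_contra hne
      obtain ⟨p, hp, hpd⟩ := Nat.exists_prime_and_dvd hne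
      have e1 : (p : ℤ) ∣ s := (Int.natCast_dvd_natCast.2 hpd).trans (Int.gcd_dvd_left _ _)
      have e2 : (p : ℤ) ∣ eval x (X 1 * pderiv 0 F) :=
        (Int.natCast_dvd_natCast.2 hpd).trans (Int.gcd_dvd_right _ _)
      exact hpn' p hp ((Int.natCast_dvd_natCast.1 e1).trans hsn) e2
  have hB4 : (B : ℝ) ^ (4 : ℝ) = (B : ℝ) ^ d := by
    rw [← hd4, Real.rpow_natCast]
  rcases rad_or_sq (n := n') hn'0 (L := (B : ℝ) ^ c) (U := (B : ℝ) ^ (4 - c))
    (Real.one_le_rpow hB1 hc0.le) (by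
      rw [← Real.rpow_natCast, ← Real.rpow_mul hB0.le]
      refine Real.rpow_le_rpow_of_exponent_le hB1 ?_
      push_cast
      linarith) hnoP (by
      have e1 : (n' : ℝ) ^ 2 ≤ (CF * (B : ℝ) ^ d) ^ 2 :=
        pow_le_pow_left₀ (Nat.cast_nonneg _) (hn'n.trans hnub) _
      refine lt_of_le_of_lt e1 ?_
      rw [← Real.rpow_natCast ((B : ℝ) ^ (4 - c)), ← Real.rpow_mul hB0.le, mul_pow, ← pow_mul]
      have e2 : ((CF : ℝ)) ^ 2 < B := by
        have : (CF ^ 2 + 1 : ℕ) ≤ B := by omega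
        have : ((CF ^ 2 + 1 : ℕ) : ℝ) ≤ B := by exact_mod_cast this
        push_cast at this
        linarith
      have e3 : (B : ℝ) * (B : ℝ) ^ (d * 2) ≤ (B : ℝ) ^ ((4 - c) * ((3 : ℕ) : ℝ)) := by
        have e4 : (B : ℝ) * (B : ℝ) ^ (d * 2) = (B : ℝ) ^ (((d * 2 + 1 : ℕ) : ℝ)) := by
          rw [Real.rpow_natCast, pow_succ]; ring
        rw [e4]
        refine Real.rpow_le_rpow_of_exponent_le hB1 ?_
        push_cast
        rw [hd4]
        linarith
      refine lt_of_lt_of_le (mul_lt_mul_of_pos_right e2 (by positivity)) e3) with hkey | hkey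
  · -- large radical
    have e1 : (B : ℝ) ^ ((d : ℝ) - c) < w * n' := by
      rw [← Nat.cast_mul, hwn]
      exact h1
    have e2 : (B : ℝ) ^ ((d : ℝ) - c) < (B : ℝ) ^ c * ((B : ℝ) ^ c * (rd n : ℝ)) := by
      refine lt_of_lt_of_le e1 (mul_le_mul hwB (hkey.trans ?_) (Nat.cast_nonneg _) (by positivity))
      refine mul_le_mul_of_nonneg_left ?_ (by positivity)
      exact_mod_cast hrd
    have e5 : (B : ℝ) ^ c * ((B : ℝ) ^ c * (rd n : ℝ)) ≤ (B : ℝ) ^ ((d : ℝ) - c) := by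
      calc (B : ℝ) ^ c * ((B : ℝ) ^ c * (rd n : ℝ)) ≤
            (B : ℝ) ^ c * ((B : ℝ) ^ c * (B : ℝ) ^ ((4 : ℝ) - ε)) :=
            mul_le_mul_of_nonneg_left (mul_le_mul_of_nonneg_left hrad.le (by positivity))
              (by positivity)
        _ = (B : ℝ) ^ (c + (c + ((4 : ℝ) - ε))) := by
            rw [Real.rpow_add hB0, Real.rpow_add hB0]
        _ ≤ _ := by
            refine Real.rpow_le_rpow_of_exponent_le hB1 ?_
            rw [hd4]
            linarith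
    linarith
  · -- a small multiple of a square
    obtain ⟨v, t, hv0, hvt, hvU⟩ := hkey
    have hU0 : (0 : ℝ) < (B : ℝ) ^ (4 - c) := by positivity
    have e1 : (v : ℝ) ≤ (B : ℝ) ^ (3 * c) := by
      have e2 : (v : ℝ) * (B : ℝ) ^ (4 - c) ≤ (B : ℝ) ^ (3 * c) * (B : ℝ) ^ (4 - c) := by
        refine hvU.trans ?_
        calc (B : ℝ) ^ c * (n' : ℝ) ≤ (B : ℝ) ^ c * ((B : ℝ) ^ c * (B : ℝ) ^ (4 : ℝ)) := by
              refine mul_le_mul_of_nonneg_left ?_ (by positivity)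
              rw [hB4]
              refine (hn'n.trans hnub).trans ?_
              exact mul_le_mul_of_nonneg_right hCFB (by positivity)
          _ = _ := by
              rw [← Real.rpow_add hB0, ← Real.rpow_add hB0, ← Real.rpow_add hB0]
              congr 1
              ring
      exact le_of_mul_le_mul_right e2 hU0
    have e2 : ((w * v : ℕ) : ℝ) ≤ (B : ℝ) ^ η₀ := by
      rw [Nat.cast_mul]
      calc (w : ℝ) * v ≤ (B : ℝ) ^ c * (B : ℝ) ^ (3 * c) :=
            mul_le_mul hwB e1 (Nat.cast_nonneg _) (by positivity)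
        _ = (B : ℝ) ^ (4 * c) := by
            rw [← Real.rpow_add hB0]
            congr 1
            ring
        _ ≤ _ := Real.rpow_le_rpow_of_exponent_le hB1 hcη
    have e3 : ((eval x F).natAbs : ℤ) = ((w * v : ℕ) : ℤ) * (t : ℤ) ^ 2 := by
      rw [← hn, ← hwn, hvt]
      push_cast
      ring
    have hwv : ((w * v : ℕ) : ℤ) ≠ 0 := by exact_mod_cast mul_ne_zero hw0 hv0
    rcases Int.natAbs_eq (eval x F) with e4 | e4
    · refine h5 ((w * v : ℕ) : ℤ) t hwv ?_ ?_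
      · rw [Int.cast_natCast, Nat.abs_cast]
        exact e2
      · rw [e4, e3]
    · refine h5 (-((w * v : ℕ) : ℤ)) t (neg_ne_zero.2 hwv) ?_ ?_
      · rw [Int.cast_neg, abs_neg, Int.cast_natCast, Nat.abs_cast]
        exact e2
      · rw [e4, e3]
        ring

lemma SQ.perm {F : MvPolynomial (Fin 4) ℤ} (h : SQ F) (σ : Equiv.Perm (Fin 4)) :
    SQ (rename σ F) := by
  obtain ⟨η₀, hη₀, h⟩ := h
  refine ⟨η₀, hη₀, (sparse_perm h σ).mono ?_⟩
  rintro B x - - ⟨v, t, h1, h2, h3⟩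
  rw [eval_rename] at h3
  exact ⟨v, t, h1, h2, h3⟩

lemma sparse_rad_perm' {F : MvPolynomial (Fin 4) ℤ} {a b a' b' : ℕ} (σ : Equiv.Perm (Fin 4))
    (h' : Bi (rename σ F) (a' + 1) b') (hab : a' + 1 + b' = a + b) (h4 : a + b = 4) (hSQ : SQ F)
    (hirr : Irreducible (toQ F)) (h0 : pderiv (σ.symm 0) F ≠ 0)
    (hco : ∀ x : Fin 4 → ℤ, IsCoprime (x 0) (x 1) → IsCoprime (x 2) (x 3) →
      IsCoprime (x (σ.symm 0)) (x (σ.symm 1))) {ε : ℝ} (hε : 0 < ε) :
    Sparse 4 (fun B x => IsCoprime (x 0) (x 1) ∧ IsCoprime (x 2) (x 3) ∧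
      (rd (eval x F).natAbs : ℝ) < (B : ℝ) ^ ((4 : ℝ) - ε)) := by
  have h1 : pderiv 0 (rename σ F) ≠ 0 := by
    have h2 : pderiv 0 (rename σ F) = rename σ (pderiv (σ.symm 0) F) := by
      have h3 := pderiv_rename (R := ℤ) σ.injective (σ.symm 0) F
      rw [Equiv.apply_symm_apply] at h3
      exact h3
    rw [h2]
    intro h3
    exact h0 (rename_injective _ σ.injective (h3.trans (map_zero _).symm))
  have h2 := sparse_perm (sparse_rad0' h' (hab.trans h4) (hSQ.perm σ) (irr_rename hirr σ) h1 hε) σ.symm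
  refine h2.mono ?_
  rintro B x - - ⟨k1, k2, k3⟩
  refine ⟨hco x k1 k2, ?_⟩
  rw [eval_rename]
  have : ((x ∘ σ.symm) ∘ σ) = x := by
    funext i
    simp
  rw [this]
  exact k3

/-- **The radical of the value of an irreducible bihomogeneous form is large.** -/
theorem sparse_rad' {F : MvPolynomial (Fin 4) ℤ} {a b : ℕ} (h : Bi F a b) (h4 : a + b = 4)
    (hSQ : SQ F)
    (hirr : Irreducible (toQ F)) {ε : ℝ} (hε : 0 < ε) :
    Sparse 4 (fun B x => IsCoprime (x 0) (x 1) ∧ IsCoprime (x 2) (x 3) ∧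
      (rd (eval x F).natAbs : ℝ) < (B : ℝ) ^ ((4 : ℝ) - ε)) := by
  have hF0 : F ≠ 0 := by
    rintro rfl
    exact hirr.ne_zero (map_zero _)
  have hder : ∃ i : Fin 4, pderiv i F ≠ 0 := by
    by_contra hcon
    push Not at hcon
    have h1 := h.hom.sum_X_mul_pderiv
    simp only [hcon, mul_zero, Finset.sum_const_zero] at h1
    have h2 : a + b = 0 := by
      by_contra hne
      have h3 : ((a + b : ℕ) : MvPolynomial (Fin 4) ℤ) * F = 0 := by
        rw [← nsmul_eq_mul]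
        exact h1.symm
      rcases mul_eq_zero.1 h3 with h44 | h44
      · rw [Nat.cast_eq_zero] at h44
        exact hne h44
      · exact hF0 h44
    have h3 : (toQ F).IsHomogeneous (a + b) := h.hom.map _
    have h5 := h3.totalDegree hirr.ne_zero
    rw [h2, totalDegree_eq_zero_iff_eq_C] at h5
    apply hirr.not_isUnit
    set r := coeff 0 (toQ F) with hr
    have h44 : toQ F = C r := h5
    have hr0 : r ≠ 0 := by
      intro hr0
      rw [hr0, map_zero] at h44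
      exact hirr.ne_zero h44
    rw [h44]
    exact (isUnit_iff_ne_zero.2 hr0).map C
  obtain ⟨i, hi⟩ := hder
  have hex : ∃ d, coeff d (pderiv i F) ≠ 0 := by
    by_contra hcon
    push Not at hcon
    exact hi (MvPolynomial.ext _ _ fun d => by rw [hcon d, coeff_zero])
  obtain ⟨d, hd⟩ := hex
  rw [coeff_pderiv] at hd
  obtain ⟨q1, q2⟩ := h.exps (left_ne_zero_of_mul hd)
  simp only [Finsupp.add_apply] at q1 q2
  fin_cases i
  · -- `i = 0`
    have ha : 1 ≤ a := by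
      simp at q1
      omega
    obtain ⟨a', rfl⟩ : ∃ a', a = a' + 1 := ⟨a - 1, by omega⟩
    refine sparse_rad_perm' (Equiv.refl _) (a' := a') (b' := b) ?_ rfl h4 hSQ hirr hi
      (fun x h1 _ => h1) hε
    have : rename (Equiv.refl (Fin 4)) F = F := by
      show rename id F = F
      rw [rename_id]; rfl
    rw [this]
    exact h
  · have ha : 1 ≤ a := by
      simp at q1
      omega
    obtain ⟨a', rfl⟩ : ∃ a', a = a' + 1 := ⟨a - 1, by omega⟩
    refine sparse_rad_perm' (Equiv.swap 0 1) (a' := a') (b' := b) ?_ rfl h4 hSQ hirr hi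
      (fun x h1 _ => h1.symm) hε
    refine Bi.of_exps fun d hd => ?_
    obtain ⟨u, hu, hu2⟩ := exps_rename _ hd
    obtain ⟨w1, w2⟩ := h.exps hu
    have e0 := hu2 0
    have e1 := hu2 1
    have e2 := hu2 2
    have e3 := hu2 3
    have f0 : (Equiv.swap (0 : Fin 4) 1) 0 = 1 := by decide
    have f1 : (Equiv.swap (0 : Fin 4) 1) 1 = 0 := by decide
    have f2 : (Equiv.swap (0 : Fin 4) 1) 2 = 2 := by decide
    have f3 : (Equiv.swap (0 : Fin 4) 1) 3 = 3 := by decide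
    rw [f0] at e0
    rw [f1] at e1
    rw [f2] at e2
    rw [f3] at e3
    omega
  · have hb : 1 ≤ b := by
      simp at q2
      omega
    obtain ⟨b', rfl⟩ : ∃ b', b = b' + 1 := ⟨b - 1, by omega⟩
    set σ : Equiv.Perm (Fin 4) := Equiv.swap 0 2 * Equiv.swap 1 3 with hσ
    have f0 : σ 0 = 2 := by rw [hσ]; decide
    have f1 : σ 1 = 3 := by rw [hσ]; decide
    have f2 : σ 2 = 0 := by rw [hσ]; decide
    have f3 : σ 3 = 1 := by rw [hσ]; decide
    have g0 : σ.symm 0 = 2 := by rw [Equiv.symm_apply_eq, f2]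
    have g1 : σ.symm 1 = 3 := by rw [Equiv.symm_apply_eq, f3]
    refine sparse_rad_perm' σ (a' := b') (b' := a) ?_ (by omega) h4 hSQ hirr (by rw [g0]; exact hi)
      (fun x _ h2 => by rw [g0, g1]; exact h2) hε
    refine Bi.of_exps fun d hd => ?_
    obtain ⟨u, hu, hu2⟩ := exps_rename _ hd
    obtain ⟨w1, w2⟩ := h.exps hu
    have e0 := hu2 0
    have e1 := hu2 1
    have e2 := hu2 2
    have e3 := hu2 3
    rw [f0] at e0
    rw [f1] at e1
    rw [f2] at e2
    rw [f3] at e3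
    omega
  · have hb : 1 ≤ b := by
      simp at q2
      omega
    obtain ⟨b', rfl⟩ : ∃ b', b = b' + 1 := ⟨b - 1, by omega⟩
    set σ : Equiv.Perm (Fin 4) := Equiv.swap 2 3 * Equiv.swap 0 2 * Equiv.swap 1 3 with hσ
    have f0 : σ 0 = 3 := by rw [hσ]; decide
    have f1 : σ 1 = 2 := by rw [hσ]; decide
    have f2 : σ 2 = 0 := by rw [hσ]; decide
    have f3 : σ 3 = 1 := by rw [hσ]; decide
    -- we need `σ 3 = 0`
    set τ : Equiv.Perm (Fin 4) := Equiv.swap 0 1 * σ with hτ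
    have t0 : τ 0 = 3 := by rw [hτ, Equiv.Perm.mul_apply, f0]; decide
    have t1 : τ 1 = 2 := by rw [hτ, Equiv.Perm.mul_apply, f1]; decide
    have t2 : τ 2 = 1 := by rw [hτ, Equiv.Perm.mul_apply, f2]; decide
    have t3 : τ 3 = 0 := by rw [hτ, Equiv.Perm.mul_apply, f3]; decide
    have g0 : τ.symm 0 = 3 := by rw [Equiv.symm_apply_eq, t3]
    have g1 : τ.symm 1 = 2 := by rw [Equiv.symm_apply_eq, t2]
    refine sparse_rad_perm' τ (a' := b') (b' := a) ?_ (by omega) h4 hSQ hirr (by rw [g0]; exact hi)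
      (fun x _ h2 => by rw [g0, g1]; exact h2.symm) hε
    refine Bi.of_exps fun d hd => ?_
    obtain ⟨u, hu, hu2⟩ := exps_rename _ hd
    obtain ⟨w1, w2⟩ := h.exps hu
    have e0 := hu2 0
    have e1 := hu2 1
    have e2 := hu2 2
    have e3 := hu2 3
    rw [t0] at e0
    rw [t1] at e1
    rw [t2] at e2
    rw [t3] at e3
    omega

end Pool.Agent.Helper19K9.Tf
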