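import Pool.Agent.Helper19K9.Tf.Qt

/-!
Stepanov's bound for degrees up to four; values of binary forms which are a multiple of a square, uniformly.
-/

set_option autoImplicit false
set_option linter.all false
set_option maxHeartbeats 4000000

namespace Pool.Agent.Helper19K9.Tf

open Polynomial Pool.Agent.Helper44K9.LS

section
variable {p : ℕ} [Fact p.Prime]

theorem stepanov_zeroN (hp : 2000 ≤ p) {f : (ZMod p)[X]} (hf : Squarefree f) (hd1 : 1 ≤ f.natDegree)
    (hd : f.natDegree ≤ 4)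
    (h0 : f.eval 0 ≠ 0) (Z : Finset (ZMod p)) (hZ : ∀ x ∈ Z, f.eval x ^ ((p - 1) / 2) = 1) :
    8 * Z.card ≤ 5 * p := by
  have hodd : p % 2 = 1 := by
    rcases (Fact.out (p := p.Prime)).eq_two_or_odd with h | h
    · omega
    · exact h
  have h1 := stepanov (J := 11) (A := (p - 3) / 2) (m := 20) (by omega) hf (by omega) h0
    (by omega) (by omega) (by omega) Z hZ
  have h2 : f.natDegree * ((p - 1) / 2) ≤ 4 * ((p - 1) / 2) := Nat.mul_le_mul_right _ hd
  omega

theorem stepanovN (hp : 2000 ≤ p) {f : (ZMod p)[X]} (hf : Squarefree f) (hd1 : 1 ≤ f.natDegree)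
    (hd : f.natDegree ≤ 4)
    (Y : Finset (ZMod p)) (hY : ∀ y ∈ Y, ∃ s : ZMod p, s ^ 2 = f.eval y) :
    (Y.card : ℝ) ≤ 5 / 8 * (p : ℝ) + 4 := by
  classical
  have hf0 : f ≠ 0 := hf.ne_zero
  have hpodd : p ≠ 2 := by omega
  -- a point which is not a zero
  obtain ⟨a, ha⟩ : ∃ a : ZMod p, f.eval a ≠ 0 := by
    by_contra hcon
    push Not at hcon
    have h1 : (Finset.univ : Finset (ZMod p)) ⊆ f.roots.toFinset := by
      intro a _
      rw [Multiset.mem_toFinset, mem_roots hf0]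
      exact hcon a
    have h2 := Finset.card_le_card h1
    rw [Finset.card_univ, ZMod.card] at h2
    have h3 := (Multiset.toFinset_card_le f.roots).trans (card_roots' f)
    omega
  set f₁ := f.comp (X + C a) with hf₁
  have hsq : Squarefree f₁ := by
    have h1 : f₁ = algEquivAevalXAddC a f := by
      rw [hf₁]
      simp [algEquivAevalXAddC, comp, aeval_def]
    rw [h1]
    intro x hx
    set e : (ZMod p)[X] ≃ₐ[ZMod p] (ZMod p)[X] := algEquivAevalXAddC a with he
    have h2 : e.symm x * e.symm x ∣ f := by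
      obtain ⟨w, hw⟩ := hx
      refine ⟨e.symm w, ?_⟩
      rw [← map_mul, ← map_mul, ← hw, AlgEquiv.symm_apply_apply]
    have h3 := (hf _ h2).map e
    rwa [AlgEquiv.apply_symm_apply] at h3
  have hd₁ : f₁.natDegree = f.natDegree := by
    rw [hf₁, natDegree_comp, natDegree_X_add_C, mul_one]
  have he : ∀ x, f₁.eval x = f.eval (x + a) := by
    intro x
    rw [hf₁, eval_comp]
    simp
  set Y₀ := Y.filter fun y => f.eval y = 0 with hY₀
  set Y₁ := Y.filter fun y => ¬ f.eval y = 0 with hY₁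
  have hcard : Y.card = Y₀.card + Y₁.card := (Finset.card_filter_add_card_filter_not _).symm
  have h1 : Y₀.card ≤ 4 := by
    have h2 : Y₀ ⊆ f.roots.toFinset := by
      intro y hy
      rw [Multiset.mem_toFinset, mem_roots hf0]
      exact (Finset.mem_filter.1 hy).2
    have h3 := Finset.card_le_card h2
    have h4 := (Multiset.toFinset_card_le f.roots).trans (card_roots' f)
    omega
  have h2 : 8 * Y₁.card ≤ 5 * p := by
    have h3 := stepanov_zeroN hp hsq (by omega) (by omega) (by rw [he, zero_add]; exact ha)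
      (Y₁.image fun y => y - a) (by
      intro x hx
      rw [Finset.mem_image] at hx
      obtain ⟨y, hy, rfl⟩ := hx
      rw [hY₁, Finset.mem_filter] at hy
      obtain ⟨s, hs⟩ := hY y hy.1
      rw [he, sub_add_cancel, ← hs, ← pow_mul]
      have hs0 : s ≠ 0 := by
        rintro rfl
        apply hy.2
        rw [← hs]
        simp
      have h4 : 2 * ((p - 1) / 2) = p - 1 := by
        have hodd : p % 2 = 1 := by
          rcases (Fact.out (p := p.Prime)).eq_two_or_odd with h | h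
          · omega
          · exact h
        omega
      rw [h4]
      exact ZMod.pow_card_sub_one_eq_one hs0)
    rwa [Finset.card_image_of_injective _ (sub_left_injective)] at h3
  have h3 : (8 * Y.card : ℝ) ≤ 5 * p + 32 := by
    have : 8 * Y.card ≤ 5 * p + 32 := by omega
    exact_mod_cast this
  linarith

end

lemma small_primes : ∃ c₀ : ℕ, c₀ ≠ 0 ∧ ∀ l : ℕ, l.Prime → l < 2000 → l ∣ c₀ := by
  refine ⟨∏ l ∈ (Finset.range 2000).filter Nat.Prime, l, ?_, ?_⟩
  · exact Finset.prod_ne_zero_iff.2 fun l hl => (Finset.mem_filter.1 hl).2.ne_zero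
  · intro l hl hl2
    exact Finset.dvd_prod_of_mem _ (Finset.mem_filter.2 ⟨Finset.mem_range.2 hl2, hl⟩)

theorem deg_count {n : ℕ} (hn1 : 1 ≤ n) (hn4 : n ≤ 4) (K : ℕ) : ∃ C : ℝ, 0 < C ∧ ∀ B : ℕ, 1 ≤ B →
    ∀ (f : ℤ[X]) (D : ℕ), D ≠ 0 → (D : ℝ) ≤ (B : ℝ) ^ K →
    (∀ l : ℕ, l.Prime → ¬ l ∣ D → Squarefree (f.map (Int.castRingHom (ZMod l))) ∧
      (f.map (Int.castRingHom (ZMod l))).natDegree = n) →
    ∀ w v : ℤ, w ≠ 0 → v ≠ 0 → |(w : ℝ)| ≤ B → |(v : ℝ)| ≤ B →
    ∀ Y : Finset ℤ, (∀ y ∈ Y, |y| ≤ (B : ℤ) ∧ ∃ t : ℤ,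
      (∑ i ∈ Finset.range (n + 1), f.coeff i * y ^ i * w ^ (n - i)) = v * t ^ 2) →
    (Y.card : ℝ) ≤ C * (B : ℝ) ^ (7 / 8 : ℝ) := by
  classical
  obtain ⟨c₀, hc₀, hc₀'⟩ := small_primes
  obtain ⟨B₀, hG⟩ := G3b (K + 3)
  refine ⟨8 + 3 * (B₀ + c₀), by positivity, fun B hB f D hD0 hDB hD w v hw hv hwB hvB Y hY => ?_⟩
  have hB1 : (1 : ℝ) ≤ B := by exact_mod_cast hB
  have hB0 : (0 : ℝ) < B := by linarith
  have hB34 : (1 : ℝ) ≤ (B : ℝ) ^ (7 / 8 : ℝ) := Real.one_le_rpow hB1 (by norm_num)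
  rcases le_or_gt (B₀ + c₀) B with hBB | hBB
  · set m : ℕ := c₀ * D * w.natAbs * v.natAbs with hmdef
    have hm0 : m ≠ 0 := mul_ne_zero (mul_ne_zero (mul_ne_zero hc₀ hD0) (Int.natAbs_ne_zero.2 hw))
      (Int.natAbs_ne_zero.2 hv)
    have hmB : (m : ℝ) ≤ (B : ℝ) ^ (K + 3) := by
      rw [hmdef]
      push_cast
      have e1 : ((w.natAbs : ℕ) : ℝ) ≤ B := by
        rwa [← Int.cast_abs, Int.abs_eq_natAbs] at hwB
      have e2 : ((v.natAbs : ℕ) : ℝ) ≤ B := by
        rwa [← Int.cast_abs, Int.abs_eq_natAbs] at hvB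
      have e3 : (c₀ : ℝ) ≤ B := by exact_mod_cast (by omega : c₀ ≤ B)
      calc (c₀ : ℝ) * D * (w.natAbs : ℝ) * (v.natAbs : ℝ) ≤ B * (B : ℝ) ^ K * B * B := by gcongr
        _ = (B : ℝ) ^ (K + 3) := by ring
    obtain ⟨S, hS, hsum⟩ := hG B (by omega) m hm0 hmB
    have key := G1 Y B hB (fun y hy => (hY y hy).1) S (fun l hl => (hS l hl).1)
      (fun l => 5 / 8 * (l : ℝ) + 4) (fun l _ => by positivity) (by
      intro l hl
      obtain ⟨hlp, hlm, -⟩ := hS l hl
      haveI : Fact l.Prime := ⟨hlp⟩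
      have hlc : ¬ l ∣ c₀ := fun h => hlm (by
        rw [hmdef]; exact Dvd.dvd.mul_right (Dvd.dvd.mul_right (Dvd.dvd.mul_right h _) _) _)
      have hlD : ¬ l ∣ D := fun h => hlm (by
        rw [hmdef]; exact Dvd.dvd.mul_right (Dvd.dvd.mul_right (Dvd.dvd.mul_left h _) _) _)
      have hlw : ¬ (l : ℤ) ∣ w := fun h => hlm (by
        rw [hmdef]; exact Dvd.dvd.mul_right (Dvd.dvd.mul_left (Int.natCast_dvd.1 h) _) _)
      have hlv : ¬ (l : ℤ) ∣ v := fun h => hlm (by
        rw [hmdef]; exact Dvd.dvd.mul_left (Int.natCast_dvd.1 h) _)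
      have hw0 : ((w : ℤ) : ZMod l) ≠ 0 := fun h => hlw ((ZMod.intCast_zmod_eq_zero_iff_dvd _ _).1 h)
      have hv0 : ((v : ℤ) : ZMod l) ≠ 0 := fun h => hlv ((ZMod.intCast_zmod_eq_zero_iff_dvd _ _).1 h)
      have h2000 : 2000 ≤ l := by
        by_contra hcon
        exact hlc (hc₀' l hlp (by omega))
      obtain ⟨hsq, hdeg⟩ := hD l hlp hlD
      set fl := f.map (Int.castRingHom (ZMod l)) with hfl
      set e : ZMod l := (v : ZMod l) * (w : ZMod l) ^ n with he
      have he0 : e ≠ 0 := mul_ne_zero hv0 (pow_ne_zero _ hw0)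
      have hsq' : Squarefree (C e * fl) := by
        have h1 : IsUnit (C e) := isUnit_C.2 he0.isUnit
        intro x hx
        exact hsq x ((h1.dvd_mul_left).1 hx)
      have hdeg' : (C e * fl).natDegree = n := by
        rw [natDegree_C_mul he0, hdeg]
      have hfe : ∀ z : ZMod l, fl.eval z = ∑ i ∈ Finset.range (n + 1),
          ((f.coeff i : ℤ) : ZMod l) * z ^ i := by
        intro z
        rw [eval_eq_sum_range, hdeg]
        refine Finset.sum_congr rfl fun i _ => ?_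
        rw [hfl, coeff_map]
        rfl
      have h2 := stepanovN h2000 hsq' (by omega) (by omega) (((Y.image fun y : ℤ => (y : ZMod l))).image
        fun z => z * (w : ZMod l)⁻¹) (by
        intro z hz
        rw [Finset.mem_image] at hz
        obtain ⟨z', hz', rfl⟩ := hz
        rw [Finset.mem_image] at hz'
        obtain ⟨y, hy, rfl⟩ := hz'
        obtain ⟨t, ht⟩ := (hY y hy).2
        refine ⟨(v : ZMod l) * t, ?_⟩
        rw [eval_mul, eval_C, hfe]
        have h1 : (((∑ i ∈ Finset.range (n + 1), f.coeff i * y ^ i * w ^ (n - i) : ℤ)) : ZMod l) =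
            ((v * t ^ 2 : ℤ) : ZMod l) := by rw [ht]
        push_cast at h1
        have h3 : ((v : ZMod l) * t) ^ 2 = (v : ZMod l) * ((v : ZMod l) * (t : ZMod l) ^ 2) := by ring
        have h6 : (∑ i ∈ Finset.range (n + 1), (f.coeff i : ZMod l) * (y : ZMod l) ^ i *
            (w : ZMod l) ^ (n - i)) = (w : ZMod l) ^ n * ∑ i ∈ Finset.range (n + 1),
            (f.coeff i : ZMod l) * ((y : ZMod l) * (w : ZMod l)⁻¹) ^ i := by
          rw [Finset.mul_sum]
          refine Finset.sum_congr rfl fun i hi => ?_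
          rw [Finset.mem_range] at hi
          have h4 : (w : ZMod l) ^ n = (w : ZMod l) ^ (n - i) * (w : ZMod l) ^ i := by
            rw [← pow_add]
            congr 1
            omega
          have h5 : (w : ZMod l) ^ i * ((w : ZMod l)⁻¹) ^ i = 1 := by
            rw [← mul_pow, mul_inv_cancel₀ hw0, one_pow]
          rw [h4, mul_pow]
          linear_combination (-(f.coeff i : ZMod l) * (y : ZMod l) ^ i * (w : ZMod l) ^ (n - i)) * h5
        rw [h3, ← h1, h6, he]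
        ring)
      rwa [Finset.card_image_of_injective] at h2
      intro z z' hzz
      exact mul_right_cancel₀ (inv_ne_zero hw0) hzz)
    have hN0 : (0 : ℝ) ≤ Y.card := Nat.cast_nonneg _
    have h1 : (Y.card : ℝ) ≤ ∑ l ∈ S, Real.log (l : ℝ) := by
      refine le_trans ?_ key
      nlinarith
    have h2 : ∑ l ∈ S, Real.log (l : ℝ) ≤ (S.card : ℝ) * (8 * (B : ℝ) ^ (1 / 8 : ℝ)) := by
      rw [← nsmul_eq_mul, ← Finset.sum_const]
      refine Finset.sum_le_sum fun l hl => ?_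
      obtain ⟨hlp, -, hlB⟩ := hS l hl
      have hl0 : (0 : ℝ) < l := by exact_mod_cast hlp.pos
      have e1 : Real.log l ≤ Real.log B := by
        refine Real.log_le_log hl0 (hlB.trans ?_)
        calc (B : ℝ) ^ (3 / 4 : ℝ) ≤ (B : ℝ) ^ (1 : ℝ) :=
              Real.rpow_le_rpow_of_exponent_le hB1 (by norm_num)
          _ = B := Real.rpow_one _
      refine e1.trans ?_
      have e2 := Real.log_le_rpow_div hB0.le (show (0 : ℝ) < 1 / 8 by norm_num)
      linarith
    have h3 : (S.card : ℝ) ≤ (B : ℝ) ^ (3 / 4 : ℝ) := by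
      have e1 : S ⊆ Finset.Icc 1 ⌊(B : ℝ) ^ (3 / 4 : ℝ)⌋₊ := by
        intro l hl
        obtain ⟨hlp, -, hlB⟩ := hS l hl
        rw [Finset.mem_Icc]
        exact ⟨hlp.pos, Nat.le_floor hlB⟩
      have e2 := Finset.card_le_card e1
      rw [Nat.card_Icc, Nat.add_sub_cancel] at e2
      calc (S.card : ℝ) ≤ (⌊(B : ℝ) ^ (3 / 4 : ℝ)⌋₊ : ℝ) := by exact_mod_cast e2
        _ ≤ _ := Nat.floor_le (by positivity)
    have h4 : (B : ℝ) ^ (3 / 4 : ℝ) * (8 * (B : ℝ) ^ (1 / 8 : ℝ)) = 8 * (B : ℝ) ^ (7 / 8 : ℝ) := by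
      have : (7 / 8 : ℝ) = 3 / 4 + 1 / 8 := by norm_num
      rw [this, Real.rpow_add hB0]
      ring
    calc (Y.card : ℝ) ≤ (S.card : ℝ) * (8 * (B : ℝ) ^ (1 / 8 : ℝ)) := h1.trans h2
      _ ≤ (B : ℝ) ^ (3 / 4 : ℝ) * (8 * (B : ℝ) ^ (1 / 8 : ℝ)) :=
          mul_le_mul_of_nonneg_right h3 (by positivity)
      _ = 8 * (B : ℝ) ^ (7 / 8 : ℝ) := h4
      _ ≤ _ := by
          refine mul_le_mul_of_nonneg_right ?_ (by positivity)
          have : (0 : ℝ) ≤ (B₀ : ℝ) + c₀ := by positivity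
          linarith
  · have e1 : Y ⊆ Finset.Icc (-(B : ℤ)) B := by
      intro y hy
      rw [Finset.mem_Icc, ← abs_le]
      exact (hY y hy).1
    have e2 := Finset.card_le_card e1
    rw [Int.card_Icc] at e2
    have e3 : Y.card ≤ 3 * (B₀ + c₀) := by omega
    calc (Y.card : ℝ) ≤ 3 * (B₀ + c₀) := by exact_mod_cast e3
      _ ≤ (8 + 3 * ((B₀ : ℝ) + c₀)) * 1 := by linarith
      _ ≤ _ := mul_le_mul_of_nonneg_left hB34 (by positivity)

end Pool.Agent.Helper19K9.Tf
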