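import Pool.Agent.Helper19K9.Tf.Rd
import Pool.Agent.Helper19K9.Tf.Qc

/-!
Forms which are quadratic in one variable: the points at which the value is a small multiple of a square are sparse.
-/

set_option autoImplicit false
set_option linter.all false
set_option maxHeartbeats 4000000

namespace Pool.Agent.Helper19K9.Tf

open MvPolynomial Pool.Agent.TH910.Voj Pool.Agent.H813R3.Voj Pool.Agent.Helper19K9.Sq

/-- the value does not depend on the last coordinate -/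
def Ind (P : MvPolynomial (Fin 4) ℤ) : Prop :=
  ∀ x x' : Fin 4 → ℤ, x 0 = x' 0 → x 1 = x' 1 → x 2 = x' 2 → eval x P = eval x' P

theorem sq_quad (F P₂ P₁ P₀ : MvPolynomial (Fin 4) ℤ) (h2 : Ind P₂) (h1 : Ind P₁) (h0 : Ind P₀)
    (hF : ∀ x : Fin 4 → ℤ, eval x F = eval x P₂ * x 3 ^ 2 + eval x P₁ * x 3 + eval x P₀)
    (hdisc : P₁ ^ 2 - 4 * P₂ * P₀ ≠ 0) : SQ F := by
  classical
  refine ⟨1 / 8, by norm_num, ?_⟩
  set D : MvPolynomial (Fin 4) ℤ := P₁ ^ 2 - 4 * P₂ * P₀ with hD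
  have hDe : ∀ x : Fin 4 → ℤ, eval x D = eval x P₁ ^ 2 - 4 * eval x P₂ * eval x P₀ := by
    intro x
    rw [hD]
    simp
  obtain ⟨CD, hCD1, hCD⟩ := exists_eval_bound D (le_refl D.totalDegree)
  set K : ℕ := D.totalDegree + 2 with hK
  obtain ⟨C, hC, hq⟩ := quad_count K
  have s1 := sparse_zeros (n := 3) D hdisc
  have s2 : Sparse 4 (fun B x => eval x D ≠ 0 ∧ CD ≤ B ∧
      ∃ v t : ℤ, v ≠ 0 ∧ |(v : ℝ)| ≤ (B : ℝ) ^ (1 / 8 : ℝ) ∧ eval x F = v * t ^ 2) := by
    refine ⟨1 / 8, by norm_num, 81 * C, by positivity, fun B hB => ?_⟩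
    have hB1 : (1 : ℝ) ≤ B := by exact_mod_cast hB
    have hB0 : (0 : ℝ) < B := by linarith
    by_cases hCB : CD ≤ B
    swap
    · have : {x : Fin 4 → ℤ | x ∈ box 4 B ∧ (eval x D ≠ 0 ∧ CD ≤ B ∧
          ∃ v t : ℤ, v ≠ 0 ∧ |(v : ℝ)| ≤ (B : ℝ) ^ (1 / 8 : ℝ) ∧ eval x F = v * t ^ 2)} = ∅ := by
        ext x
        simp [hCB]
      rw [this, Set.ncard_empty, Nat.cast_zero]
      positivity
    rw [ncard_eq]
    set T := (box 4 B).filter fun x => eval x D ≠ 0 ∧ CD ≤ B ∧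
      ∃ v t : ℤ, v ≠ 0 ∧ |(v : ℝ)| ≤ (B : ℝ) ^ (1 / 8 : ℝ) ∧ eval x F = v * t ^ 2 with hT
    have hex : ∀ x ∈ T, ∃ v : ℤ, v ≠ 0 ∧ |(v : ℝ)| ≤ (B : ℝ) ^ (1 / 8 : ℝ) ∧
        ∃ t : ℤ, eval x F = v * t ^ 2 := by
      intro x hx
      obtain ⟨-, -, -, v, t, e1, e2, e3⟩ := Finset.mem_filter.1 hx
      exact ⟨v, e1, e2, t, e3⟩
    choose! v hv0 hvB hvt using hex
    set W : ℕ := ⌊(B : ℝ) ^ (1 / 8 : ℝ)⌋₊ with hW
    have hWB : (W : ℝ) ≤ (B : ℝ) ^ (1 / 8 : ℝ) := Nat.floor_le (by positivity)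
    set I := Finset.Icc (-(B : ℤ)) B with hI
    set V := Finset.Icc (-(W : ℤ)) W with hV
    let φ : (Fin 4 → ℤ) → (ℤ × ℤ × ℤ) × ℤ := fun x => ((x 0, x 1, x 2), v x)
    have hφ : ∀ x ∈ T, φ x ∈ (I ×ˢ I ×ˢ I) ×ˢ V := by
      intro x hx
      have hb := mem_box.1 (Finset.mem_filter.1 hx).1
      have hvx : |v x| ≤ (W : ℤ) := by
        have e1 := hvB x hx
        have e2 : ((v x).natAbs : ℝ) ≤ (B : ℝ) ^ (1 / 8 : ℝ) := by
          rwa [← Int.cast_abs, Int.abs_eq_natAbs] at e1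
        have e3 : (v x).natAbs ≤ W := Nat.le_floor e2
        rw [Int.abs_eq_natAbs]
        exact_mod_cast e3
      simp only [φ, Finset.mem_product, hI, hV, Finset.mem_Icc, ← abs_le]
      exact ⟨⟨hb 0, hb 1, hb 2⟩, hvx⟩
    have hcard : T.card = ∑ z ∈ (I ×ˢ I ×ˢ I) ×ˢ V, (T.filter fun x => φ x = z).card :=
      Finset.card_eq_sum_card_fiberwise fun x hx => hφ x hx
    have hfib : ∀ z ∈ (I ×ˢ I ×ˢ I) ×ˢ V, ((T.filter fun x => φ x = z).card : ℝ) ≤
        C * (B : ℝ) ^ (3 / 4 : ℝ) := by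
      intro z _
      rcases (T.filter fun x => φ x = z).eq_empty_or_nonempty with he | ⟨x₀, hx₀⟩
      · rw [he, Finset.card_empty, Nat.cast_zero]
        positivity
      · rw [Finset.mem_filter] at hx₀
        obtain ⟨hx₀T, hx₀z⟩ := hx₀
        have hinj : (T.filter fun x => φ x = z).card =
            ((T.filter fun x => φ x = z).image fun x => x 3).card := by
          rw [Finset.card_image_of_injOn]
          intro x hx x' hx' hxx
          rw [Finset.mem_coe, Finset.mem_filter] at hx hx'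
          have e1 := hx.2.trans hx'.2.symm
          simp only [φ, Prod.mk.injEq] at e1
          obtain ⟨⟨f0, f1, f2⟩, -⟩ := e1
          funext i
          fin_cases i
          · exact f0
          · exact f1
          · exact f2
          · exact hxx
        rw [hinj]
        have hDx₀ := (Finset.mem_filter.1 hx₀T).2.1
        refine hq B hB (eval x₀ P₂) (eval x₀ P₁) (eval x₀ P₀) (v x₀) (hv0 x₀ hx₀T) ?_ ?_ _ ?_
        · rw [← hDe]; exact hDx₀
        · have e1 : ((v x₀ : ℝ) * (((eval x₀ P₁ : ℤ) : ℝ) ^ 2 - 4 * ((eval x₀ P₂ : ℤ) : ℝ) *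
              ((eval x₀ P₀ : ℤ) : ℝ))) = (v x₀ : ℝ) * ((eval x₀ D : ℤ) : ℝ) := by
            rw [hDe]; push_cast; ring
          rw [e1, abs_mul]
          have e2 : |((eval x₀ D : ℤ) : ℝ)| ≤ (B : ℝ) * (B : ℝ) ^ D.totalDegree := by
            have e3 := hCD B hB x₀ (Finset.mem_filter.1 hx₀T).1
            have e4 : |((eval x₀ D : ℤ) : ℝ)| = ((eval x₀ D).natAbs : ℝ) := by
              rw [← Int.cast_abs, Int.abs_eq_natAbs]
              rfl
            rw [e4]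
            calc (((eval x₀ D).natAbs : ℕ) : ℝ) ≤ ((CD * B ^ D.totalDegree : ℕ) : ℝ) := by
                  exact_mod_cast e3
              _ = (CD : ℝ) * (B : ℝ) ^ D.totalDegree := by push_cast; ring
              _ ≤ _ := mul_le_mul_of_nonneg_right (by exact_mod_cast hCB) (by positivity)
          have e5 : |(v x₀ : ℝ)| ≤ B := by
            refine (hvB x₀ hx₀T).trans ?_
            calc (B : ℝ) ^ (1 / 8 : ℝ) ≤ (B : ℝ) ^ (1 : ℝ) :=
                  Real.rpow_le_rpow_of_exponent_le hB1 (by norm_num)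
              _ = B := Real.rpow_one _
          calc |(v x₀ : ℝ)| * |((eval x₀ D : ℤ) : ℝ)| ≤ B * ((B : ℝ) * (B : ℝ) ^ D.totalDegree) :=
                mul_le_mul e5 e2 (abs_nonneg _) hB0.le
            _ = (B : ℝ) ^ K := by rw [hK]; ring
        · intro y hy
          rw [Finset.mem_image] at hy
          obtain ⟨x, hx, rfl⟩ := hy
          rw [Finset.mem_filter] at hx
          obtain ⟨hxT, hxz⟩ := hx
          refine ⟨mem_box.1 (Finset.mem_filter.1 hxT).1 3, ?_⟩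
          have e1 := hxz.trans hx₀z.symm
          simp only [φ, Prod.mk.injEq] at e1
          obtain ⟨⟨f0, f1, f2⟩, f3⟩ := e1
          obtain ⟨t, ht⟩ := hvt x hxT
          refine ⟨t, ?_⟩
          rw [← f3, ← ht, hF x, h2 x x₀ f0 f1 f2, h1 x x₀ f0 f1 f2, h0 x x₀ f0 f1 f2]
    rw [hcard, Nat.cast_sum]
    refine (Finset.sum_le_sum hfib).trans ?_
    rw [Finset.sum_const, nsmul_eq_mul, Finset.card_product, Finset.card_product,
      Finset.card_product, hI, hV, card_Icc_int, card_Icc_int]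
    have e1 : ((((2 * B + 1) * ((2 * B + 1) * (2 * B + 1)) * (2 * W + 1) : ℕ)) : ℝ) ≤
        27 * (B : ℝ) ^ 3 * (3 * (B : ℝ) ^ (1 / 8 : ℝ)) := by
      push_cast
      have e2 : (2 * (B : ℝ) + 1) ≤ 3 * B := by linarith
      have e3 : (2 * (W : ℝ) + 1) ≤ 3 * (B : ℝ) ^ (1 / 8 : ℝ) := by
        have := Real.one_le_rpow hB1 (show (0 : ℝ) ≤ 1 / 8 by norm_num)
        linarith
      have e4 : (2 * (B : ℝ) + 1) * ((2 * (B : ℝ) + 1) * (2 * (B : ℝ) + 1)) ≤ 27 * (B : ℝ) ^ 3 := by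
        have h5 : (2 * (B : ℝ) + 1) * ((2 * (B : ℝ) + 1) * (2 * (B : ℝ) + 1)) ≤
            (3 * B) * ((3 * B) * (3 * B)) := by gcongr
        refine h5.trans (le_of_eq ?_)
        ring
      exact mul_le_mul e4 e3 (by positivity) (by positivity)
    refine (mul_le_mul_of_nonneg_right e1 (by positivity)).trans (le_of_eq ?_)
    have e5 : (((4 : ℕ) : ℝ) - 1 / 8) = 3 + 1 / 8 + 3 / 4 := by norm_num
    rw [e5, Real.rpow_add hB0, Real.rpow_add hB0]
    have e6 : (B : ℝ) ^ (3 : ℝ) = (B : ℝ) ^ 3 := by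
      rw [← Real.rpow_natCast]; norm_num
    rw [e6]
    ring
  refine (s1.or s2).of_eventually CD ?_
  rintro B x hCB hB hx ⟨v, t, e1, e2, e3⟩
  by_cases hz : eval x D = 0
  · exact Or.inl hz
  · exact Or.inr ⟨hz, hCB, v, t, e1, e2, e3⟩

end Pool.Agent.Helper19K9.Tf
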