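import Pool.Agent.Helper19K9.Tf.Hom
import Pool.Agent.Helper19K9.Tf.Qt

/-!
Binary quartic forms: the points at which the value is a small multiple of a square are sparse.
-/

set_option autoImplicit false
set_option linter.all false
set_option maxHeartbeats 4000000

namespace Pool.Agent.Helper19K9.Tf

open MvPolynomial Pool.Agent.TH910.Voj Pool.Agent.H813R3.Voj Pool.Agent.Helper19K9.Sq

theorem sq_quart {F : MvPolynomial (Fin 4) ℤ} (h : Bi F 4 0) (hirr : Irreducible (toQ F)) : SQ F := by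
  classical
  refine ⟨1 / 16, by norm_num, ?_⟩
  obtain ⟨hdeg, hsep⟩ := dehom_spec h hirr
  obtain ⟨C, hC, hq⟩ := quart_count (dehom F) hdeg hsep
  have s1 := sparse_zeros (n := 3) (X 1 : MvPolynomial (Fin 4) ℤ) (X_ne_zero 1)
  have s2 : Sparse 4 (fun B x => x 1 ≠ 0 ∧
      ∃ v t : ℤ, v ≠ 0 ∧ |(v : ℝ)| ≤ (B : ℝ) ^ (1 / 16 : ℝ) ∧ eval x F = v * t ^ 2) := by
    refine ⟨1 / 16, by norm_num, 81 * C, by positivity, fun B hB => ?_⟩
    have hB1 : (1 : ℝ) ≤ B := by exact_mod_cast hB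
    have hB0 : (0 : ℝ) < B := by linarith
    rw [ncard_eq]
    set T := (box 4 B).filter fun x => x 1 ≠ 0 ∧
      ∃ v t : ℤ, v ≠ 0 ∧ |(v : ℝ)| ≤ (B : ℝ) ^ (1 / 16 : ℝ) ∧ eval x F = v * t ^ 2 with hT
    have hex : ∀ x ∈ T, ∃ v : ℤ, v ≠ 0 ∧ |(v : ℝ)| ≤ (B : ℝ) ^ (1 / 16 : ℝ) ∧
        ∃ t : ℤ, eval x F = v * t ^ 2 := by
      intro x hx
      obtain ⟨-, -, v, t, e1, e2, e3⟩ := Finset.mem_filter.1 hx
      exact ⟨v, e1, e2, t, e3⟩
    choose! v hv0 hvB hvt using hex
    set W : ℕ := ⌊(B : ℝ) ^ (1 / 16 : ℝ)⌋₊ with hW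
    have hWB : (W : ℝ) ≤ (B : ℝ) ^ (1 / 16 : ℝ) := Nat.floor_le (by positivity)
    set I := Finset.Icc (-(B : ℤ)) B with hI
    set V := Finset.Icc (-(W : ℤ)) W with hV
    let φ : (Fin 4 → ℤ) → (ℤ × ℤ × ℤ) × ℤ := fun x => ((x 1, x 2, x 3), v x)
    have hφ : ∀ x ∈ T, φ x ∈ (I ×ˢ I ×ˢ I) ×ˢ V := by
      intro x hx
      have hb := mem_box.1 (Finset.mem_filter.1 hx).1
      have hvx : |v x| ≤ (W : ℤ) := by
        have e1 := hvB x hx
        have e2 : ((v x).natAbs : ℝ) ≤ (B : ℝ) ^ (1 / 16 : ℝ) := by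
          rwa [← Int.cast_abs, Int.abs_eq_natAbs] at e1
        have e3 : (v x).natAbs ≤ W := Nat.le_floor e2
        rw [Int.abs_eq_natAbs]
        exact_mod_cast e3
      simp only [φ, Finset.mem_product, hI, hV, Finset.mem_Icc, ← abs_le]
      exact ⟨⟨hb 1, hb 2, hb 3⟩, hvx⟩
    have hcard : T.card = ∑ z ∈ (I ×ˢ I ×ˢ I) ×ˢ V, (T.filter fun x => φ x = z).card :=
      Finset.card_eq_sum_card_fiberwise fun x hx => hφ x hx
    have hfib : ∀ z ∈ (I ×ˢ I ×ˢ I) ×ˢ V, ((T.filter fun x => φ x = z).card : ℝ) ≤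
        C * (B : ℝ) ^ (7 / 8 : ℝ) := by
      intro z _
      rcases (T.filter fun x => φ x = z).eq_empty_or_nonempty with he | ⟨x₀, hx₀⟩
      · rw [he, Finset.card_empty, Nat.cast_zero]
        positivity
      · rw [Finset.mem_filter] at hx₀
        obtain ⟨hx₀T, hx₀z⟩ := hx₀
        have hinj : (T.filter fun x => φ x = z).card =
            ((T.filter fun x => φ x = z).image fun x => x 0).card := by
          rw [Finset.card_image_of_injOn]
          intro x hx x' hx' hxx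
          rw [Finset.mem_coe, Finset.mem_filter] at hx hx'
          have e1 := hx.2.trans hx'.2.symm
          simp only [φ, Prod.mk.injEq] at e1
          obtain ⟨⟨f0, f1, f2⟩, -⟩ := e1
          funext i
          fin_cases i
          · exact hxx
          · exact f0
          · exact f1
          · exact f2
        rw [hinj]
        have e5 : |(v x₀ : ℝ)| ≤ B := by
          refine (hvB x₀ hx₀T).trans ?_
          calc (B : ℝ) ^ (1 / 16 : ℝ) ≤ (B : ℝ) ^ (1 : ℝ) :=
                Real.rpow_le_rpow_of_exponent_le hB1 (by norm_num)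
            _ = B := Real.rpow_one _
        have e6 : |((x₀ 1 : ℤ) : ℝ)| ≤ B := by
          have := mem_box.1 (Finset.mem_filter.1 hx₀T).1 1
          rw [← Int.cast_abs]
          exact_mod_cast this
        refine hq B hB (x₀ 1) (v x₀) (Finset.mem_filter.1 hx₀T).2.1 (hv0 x₀ hx₀T) e6 e5 _ ?_
        · intro y hy
          rw [Finset.mem_image] at hy
          obtain ⟨x, hx, rfl⟩ := hy
          rw [Finset.mem_filter] at hx
          obtain ⟨hxT, hxz⟩ := hx
          refine ⟨mem_box.1 (Finset.mem_filter.1 hxT).1 0, ?_⟩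
          have e1 := hxz.trans hx₀z.symm
          simp only [φ, Prod.mk.injEq] at e1
          obtain ⟨⟨f0, f1, f2⟩, f3⟩ := e1
          obtain ⟨t, ht⟩ := hvt x hxT
          refine ⟨t, ?_⟩
          rw [← f3, ← ht, dehom_eval h x, f0]
    rw [hcard, Nat.cast_sum]
    refine (Finset.sum_le_sum hfib).trans ?_
    rw [Finset.sum_const, nsmul_eq_mul, Finset.card_product, Finset.card_product,
      Finset.card_product, hI, hV, card_Icc_int, card_Icc_int]
    have e1 : ((((2 * B + 1) * ((2 * B + 1) * (2 * B + 1)) * (2 * W + 1) : ℕ)) : ℝ) ≤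
        27 * (B : ℝ) ^ 3 * (3 * (B : ℝ) ^ (1 / 16 : ℝ)) := by
      push_cast
      have e2 : (2 * (B : ℝ) + 1) ≤ 3 * B := by linarith
      have e3 : (2 * (W : ℝ) + 1) ≤ 3 * (B : ℝ) ^ (1 / 16 : ℝ) := by
        have := Real.one_le_rpow hB1 (show (0 : ℝ) ≤ 1 / 16 by norm_num)
        linarith
      have e4 : (2 * (B : ℝ) + 1) * ((2 * (B : ℝ) + 1) * (2 * (B : ℝ) + 1)) ≤ 27 * (B : ℝ) ^ 3 := by
        have h5 : (2 * (B : ℝ) + 1) * ((2 * (B : ℝ) + 1) * (2 * (B : ℝ) + 1)) ≤
            (3 * B) * ((3 * B) * (3 * B)) := by gcongr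
        refine h5.trans (le_of_eq ?_)
        ring
      exact mul_le_mul e4 e3 (by positivity) (by positivity)
    refine (mul_le_mul_of_nonneg_right e1 (by positivity)).trans (le_of_eq ?_)
    have e5 : (((4 : ℕ) : ℝ) - 1 / 16) = 3 + 1 / 16 + 7 / 8 := by norm_num
    rw [e5, Real.rpow_add hB0, Real.rpow_add hB0]
    have e6 : (B : ℝ) ^ (3 : ℝ) = (B : ℝ) ^ 3 := by
      rw [← Real.rpow_natCast]; norm_num
    rw [e6]
    ring
  refine (s1.or s2).mono ?_
  rintro B x hB hx ⟨v, t, e1, e2, e3⟩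
  by_cases hz : x 1 = 0
  · left
    rw [eval_X]
    exact hz
  · exact Or.inr ⟨hz, v, t, e1, e2, e3⟩

/-- all types of total degree four -/
theorem sq_all {F : MvPolynomial (Fin 4) ℤ} {a b : ℕ} (h : Bi F a b) (h4 : a + b = 4)
    (hirr : Irreducible (toQ F)) : SQ F := by
  rcases Nat.eq_zero_or_pos b with hb | hb
  · subst hb
    obtain rfl : a = 4 := by omega
    exact sq_quart h hirr
  rcases Nat.eq_zero_or_pos a with ha | ha
  · subst ha
    obtain rfl : b = 4 := by omega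
    set σ : Equiv.Perm (Fin 4) := Equiv.swap 0 2 * Equiv.swap 1 3 with hσ
    have f0 : σ 0 = 2 := by rw [hσ]; decide
    have f1 : σ 1 = 3 := by rw [hσ]; decide
    have f2 : σ 2 = 0 := by rw [hσ]; decide
    have f3 : σ 3 = 1 := by rw [hσ]; decide
    have h' : Bi (rename σ F) 4 0 := by
      refine Bi.of_exps fun d hd => ?_
      obtain ⟨u, hu, hu2⟩ := exps_rename _ hd
      obtain ⟨w1, w2⟩ := h.exps hu
      have e0 := hu2 0
      have e1 := hu2 1
      have e2 := hu2 2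
      have e3 := hu2 3
      rw [f0] at e0
      rw [f1] at e1
      rw [f2] at e2
      rw [f3] at e3
      omega
    have h1 := (sq_quart h' (irr_rename hirr σ)).perm σ.symm
    have h2 : rename σ.symm (rename σ F) = F := by
      rw [rename_rename]
      have : (σ.symm ∘ σ : Fin 4 → Fin 4) = id := by
        funext i; simp
      rw [this, rename_id]
      rfl
    rwa [h2] at h1
  · exact sq_four h h4 ha hb hirr

end Pool.Agent.Helper19K9.Tf
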