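import Mathlib

/-!
Stepanov's method: the number of points at which a squarefree polynomial over the prime field has square
values.
-/

set_option autoImplicit false
set_option linter.all false
set_option maxHeartbeats 4000000

namespace Pool.Agent.Helper19K9.Tf

open Polynomial

section
variable {F : Type*} [Field F]

/-- the operators in Stepanov's method -/
noncomputable def DD (f : F[X]) (c : F) : ℕ → (F[X] →ₗ[F] F[X])
  | 0 => LinearMap.id
  | k + 1 => (LinearMap.mulLeft F f) ∘ₗ (derivative : F[X] →ₗ[F] F[X]) ∘ₗ DD f c k +
      (LinearMap.mulLeft F (C (c - k) * derivative f)) ∘ₗ DD f c k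

lemma DD_succ (f : F[X]) (c : F) (k : ℕ) (q : F[X]) : DD f c (k + 1) q =
    f * derivative (DD f c k q) + C (c - k) * derivative f * DD f c k q := rfl

lemma mul_deg {f q : F[X]} {d n : ℕ} (hf : f.natDegree ≤ d) (hq : q.degree < n) :
    (f * q).degree < (n + d : ℕ) := by
  by_cases h0 : f * q = 0
  · rw [h0, degree_zero]
    exact WithBot.bot_lt_coe _
  · have hq0 : q ≠ 0 := right_ne_zero_of_mul h0
    have h1 : q.natDegree < n := (natDegree_lt_iff_degree_lt hq0).2 hq
    rw [← natDegree_lt_iff_degree_lt h0]
    have := natDegree_mul_le (p := f) (q := q)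
    omega

lemma der_deg {q : F[X]} {n : ℕ} (hq : q.degree < n) : (derivative q).degree < n := by
  refine lt_of_le_of_lt ?_ hq
  exact degree_derivative_le

lemma DD_deg {f : F[X]} {d : ℕ} (hf : f.natDegree ≤ d) (c : F) {q : F[X]} {n : ℕ} (hq : q.degree < n)
    (k : ℕ) : (DD f c k q).degree < (n + k * d : ℕ) := by
  induction k with
  | zero => simpa [DD] using hq
  | succ k ih =>
    rw [DD_succ]
    have h1 : (f * derivative (DD f c k q)).degree < (n + k * d + d : ℕ) :=
      mul_deg hf (der_deg ih)
    have h2 : (C (c - k) * derivative f * DD f c k q).degree < (n + k * d + d : ℕ) := by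
      refine mul_deg ?_ ih
      refine (natDegree_C_mul_le _ _).trans ((natDegree_derivative_le f).trans ?_)
      omega
    have h3 : n + (k + 1) * d = n + k * d + d := by ring
    rw [h3]
    exact lt_of_le_of_lt (degree_add_le _ _) (max_lt h1 h2)

/-- the derivatives of `r + s g` -/
lemma DD_spec {f g : F[X]} {c : F} (hg : f * derivative g = C c * derivative f * g) (r s : F[X])
    (k : ℕ) : f ^ k * derivative^[k] (r + s * g) = DD f 0 k r + DD f c k s * g := by
  induction k with
  | zero => simp [DD]
  | succ k ih =>
    have h1 := congrArg (fun P => f * derivative P) ih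
    simp only [derivative_mul, derivative_pow, derivative_add] at h1
    rw [DD_succ, DD_succ, Function.iterate_succ_apply']
    have h2 : f * ((k : F[X]) * f ^ (k - 1) * derivative f) = (k : F[X]) * f ^ k * derivative f := by
      rcases k with _ | k
      · simp
      · simp only [Nat.add_sub_cancel]
        ring
    have h3 : C ((k : ℕ) : F) = (k : F[X]) := by simp
    rw [C_sub, C_sub, C_0, h3]
    have h4 : f ^ (k + 1) * derivative (derivative^[k] (r + s * g)) =
        f * (f ^ k * derivative (derivative^[k] (r + s * g))) := by ring
    have h5 : f * (C (k : F) * f ^ (k - 1) * derivative f * derivative^[k] (r + s * g) +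
        f ^ k * derivative (derivative^[k] (r + s * g))) =
        f * (derivative (DD f 0 k r) + (derivative (DD f c k s) * g + DD f c k s * derivative g)) := by
      simpa using h1
    rw [h3] at h5
    have h6 : f * ((k : F[X]) * f ^ (k - 1) * derivative f * derivative^[k] (r + s * g)) =
        (k : F[X]) * derivative f * (DD f 0 k r + DD f c k s * g) := by
      rw [← ih]
      linear_combination (derivative^[k] (r + s * g)) * h2
    linear_combination h5 - h6 + DD f c k s * hg

end

end Pool.Agent.Helper19K9.Tf
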