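import Pool.Agent.Helper19K9.Tf.St

/-!
Stepanov's method: the construction of the auxiliary polynomial.
-/

set_option autoImplicit false
set_option linter.all false
set_option maxHeartbeats 4000000

namespace Pool.Agent.Helper19K9.Tf

open Polynomial

section
variable {p : ℕ} [Fact p.Prime]

lemma der_mul_Xp (q : (ZMod p)[X]) (j k : ℕ) :
    derivative^[k] (q * X ^ (j * p)) = derivative^[k] q * X ^ (j * p) := by
  induction k with
  | zero => rfl
  | succ k ih =>
    rw [Function.iterate_succ_apply', ih, derivative_mul, derivative_X_pow,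
      Function.iterate_succ_apply']
    have : ((j * p : ℕ) : ZMod p) = 0 := by
      rw [Nat.cast_mul, ZMod.natCast_self, mul_zero]
    rw [this, C_0]
    ring

/-- the conditions on the auxiliary polynomial -/
noncomputable def TT (f : (ZMod p)[X]) (c : ZMod p) (J k : ℕ) (r s : ℕ → (ZMod p)[X]) : (ZMod p)[X] :=
  ∑ j ∈ Finset.range J, (DD f 0 k (r j) + DD f c k (s j)) * X ^ j

lemma aux_vanish {f g : (ZMod p)[X]} {c : ZMod p} (hg : f * derivative g = C c * derivative f * g)
    {J m : ℕ} (hm : m ≤ p) (r s : ℕ → (ZMod p)[X]) (hT : ∀ k < m, TT f c J k r s = 0)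
    (hR : ∑ j ∈ Finset.range J, (r j + s j * g) * X ^ (j * p) ≠ 0) {x : ZMod p}
    (hx : g.eval x = 1) (hfx : f.eval x ≠ 0) :
    (X - C x) ^ m ∣ ∑ j ∈ Finset.range J, (r j + s j * g) * X ^ (j * p) := by
  set R := ∑ j ∈ Finset.range J, (r j + s j * g) * X ^ (j * p) with hRdef
  rcases Nat.eq_zero_or_pos m with h0 | h0
  · rw [h0, pow_zero]
    exact one_dvd _
  rw [← le_rootMultiplicity_iff hR]
  have hroot : ∀ k ≤ m - 1, (derivative^[k] R).IsRoot x := by
    intro k hk
    have h1 : f ^ k * derivative^[k] R = ∑ j ∈ Finset.range J,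
        (DD f 0 k (r j) + DD f c k (s j) * g) * X ^ (j * p) := by
      rw [hRdef, iterate_derivative_sum, Finset.mul_sum]
      refine Finset.sum_congr rfl fun j _ => ?_
      rw [der_mul_Xp, ← mul_assoc, DD_spec hg]
    have h2 : (f ^ k * derivative^[k] R).eval x = (TT f c J k r s).eval x := by
      rw [h1]
      unfold TT
      rw [eval_finset_sum, eval_finset_sum]
      refine Finset.sum_congr rfl fun j _ => ?_
      have h3 : x ^ (j * p) = x ^ j := by
        rw [pow_mul, ZMod.pow_card]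
      simp only [eval_mul, eval_add, eval_pow, eval_X, hx, mul_one, h3]
    rw [hT k (by omega), eval_zero, eval_mul, eval_pow] at h2
    rcases mul_eq_zero.1 h2 with h3 | h3
    · exact absurd h3 (pow_ne_zero _ hfx)
    · exact h3
  have hfac : (((m - 1).factorial : ℕ) : ZMod p) ∈ nonZeroDivisors (ZMod p) := by
    rw [mem_nonZeroDivisors_iff_ne_zero]
    intro h1
    rw [ZMod.natCast_eq_zero_iff] at h1
    have hp := Fact.out (p := p.Prime)
    rw [hp.dvd_factorial] at h1
    omega
  have h5 := lt_rootMultiplicity_of_isRoot_iterate_derivative_of_mem_nonZeroDivisors hR hroot hfac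
  omega

/-- a linear system with more unknowns than equations -/
lemma exists_aux {f : (ZMod p)[X]} {d : ℕ} (hf : f.natDegree ≤ d) (c : ZMod p) {J A m : ℕ}
    (hcount : m * (A + m * d + J) < 2 * J * A) :
    ∃ r s : ℕ → (ZMod p)[X], (∀ j, (r j).degree < A) ∧ (∀ j, (s j).degree < A) ∧
      (∃ j < J, r j ≠ 0 ∨ s j ≠ 0) ∧ ∀ k < m, TT f c J k r s = 0 := by
  classical
  set E := A + m * d + J with hE
  let V := (Fin J → degreeLT (ZMod p) A) × (Fin J → degreeLT (ZMod p) A)
  let L : ℕ → V →ₗ[ZMod p] (ZMod p)[X] := fun k =>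
    ∑ j : Fin J, (LinearMap.mulRight (ZMod p) (X ^ (j : ℕ) : (ZMod p)[X])) ∘ₗ
      ((DD f 0 k) ∘ₗ (degreeLT (ZMod p) A).subtype ∘ₗ (LinearMap.proj j) ∘ₗ (LinearMap.fst _ _ _) +
      (DD f c k) ∘ₗ (degreeLT (ZMod p) A).subtype ∘ₗ (LinearMap.proj j) ∘ₗ (LinearMap.snd _ _ _))
  have hL : ∀ (k : ℕ) (v : V), L k v = ∑ j : Fin J, (DD f 0 k (v.1 j : (ZMod p)[X]) +
      DD f c k (v.2 j : (ZMod p)[X])) * X ^ (j : ℕ) := by
    intro k v
    simp only [L, LinearMap.sum_apply, LinearMap.comp_apply, LinearMap.add_apply,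
      LinearMap.mulRight_apply]
    rfl
  have hdeg : ∀ (k : ℕ), k < m → ∀ v : V, L k v ∈ degreeLT (ZMod p) E := by
    intro k hk v
    rw [hL]
    refine Submodule.sum_mem _ fun j _ => ?_
    rw [mem_degreeLT]
    have h1 : (DD f 0 k (v.1 j : (ZMod p)[X])).degree < (A + k * d : ℕ) :=
      DD_deg hf 0 (mem_degreeLT.1 (v.1 j).2) k
    have h2 : (DD f c k (v.2 j : (ZMod p)[X])).degree < (A + k * d : ℕ) :=
      DD_deg hf c (mem_degreeLT.1 (v.2 j).2) k
    have h3 : (DD f 0 k (v.1 j : (ZMod p)[X]) + DD f c k (v.2 j : (ZMod p)[X])).degree <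
        (A + k * d : ℕ) := lt_of_le_of_lt (degree_add_le _ _) (max_lt h1 h2)
    have h4 := mul_deg (f := (X ^ (j : ℕ) : (ZMod p)[X])) (d := j) (by simp) h3
    rw [mul_comm]
    refine lt_of_lt_of_le h4 ?_
    have h5 : k * d ≤ m * d := Nat.mul_le_mul_right _ hk.le
    have := j.2
    exact_mod_cast (by omega : A + k * d + j ≤ E)
  let Φ : V →ₗ[ZMod p] (Fin m → degreeLT (ZMod p) E) :=
    LinearMap.pi fun k => LinearMap.codRestrict (degreeLT (ZMod p) E) (L k) (hdeg k k.2)
  haveI : Module.Finite (ZMod p) (degreeLT (ZMod p) A) :=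
    Module.Finite.equiv (degreeLTEquiv (ZMod p) A).symm
  haveI : Module.Finite (ZMod p) (degreeLT (ZMod p) E) :=
    Module.Finite.equiv (degreeLTEquiv (ZMod p) E).symm
  have hfr : ∀ n : ℕ, Module.finrank (ZMod p) (degreeLT (ZMod p) n) = n := by
    intro n
    rw [(degreeLTEquiv (ZMod p) n).finrank_eq, Module.finrank_fin_fun]
  have hV : Module.finrank (ZMod p) V = 2 * J * A := by
    show Module.finrank (ZMod p) ((Fin J → degreeLT (ZMod p) A) × (Fin J → degreeLT (ZMod p) A)) = _
    rw [Module.finrank_prod, Module.finrank_pi_fintype]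
    simp only [hfr, Finset.sum_const, Finset.card_univ, Fintype.card_fin, smul_eq_mul]
    ring
  have hW : Module.finrank (ZMod p) (Fin m → degreeLT (ZMod p) E) = m * E := by
    rw [Module.finrank_pi_fintype]
    simp only [hfr, Finset.sum_const, Finset.card_univ, Fintype.card_fin, smul_eq_mul]
  have hker : LinearMap.ker Φ ≠ ⊥ := by
    apply LinearMap.ker_ne_bot_of_finrank_lt
    rw [hV, hW]
    exact hcount
  obtain ⟨v, hv, hv0⟩ := Submodule.exists_mem_ne_zero_of_ne_bot hker
  refine ⟨fun j => if h : j < J then (v.1 ⟨j, h⟩ : (ZMod p)[X]) else 0,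
    fun j => if h : j < J then (v.2 ⟨j, h⟩ : (ZMod p)[X]) else 0, ?_, ?_, ?_, ?_⟩
  · intro j
    by_cases h : j < J
    · simp only [h, dif_pos]
      exact mem_degreeLT.1 (v.1 ⟨j, h⟩).2
    · simp only [h, dif_neg, not_false_eq_true, degree_zero]
      exact WithBot.bot_lt_coe _
  · intro j
    by_cases h : j < J
    · simp only [h, dif_pos]
      exact mem_degreeLT.1 (v.2 ⟨j, h⟩).2
    · simp only [h, dif_neg, not_false_eq_true, degree_zero]
      exact WithBot.bot_lt_coe _
  · by_contra hcon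
    push Not at hcon
    apply hv0
    refine Prod.ext ?_ ?_
    · funext j
      have h1 := (hcon j j.2).1
      simp only [j.2, dif_pos] at h1
      exact Subtype.ext h1
    · funext j
      have h1 := (hcon j j.2).2
      simp only [j.2, dif_pos] at h1
      exact Subtype.ext h1
  · intro k hk
    have h1 : Φ v = 0 := hv
    have h2 : L k v = 0 := by
      have h3 := congrFun h1 ⟨k, hk⟩
      exact congrArg Subtype.val h3
    rw [hL] at h2
    unfold TT
    rw [Finset.sum_range, ← h2]
    refine Finset.sum_congr rfl fun j _ => ?_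
    simp only [j.2, dif_pos]

end

end Pool.Agent.Helper19K9.Tf
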